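import Pool.Agent.K3P.St

/-!
K3P: the bilinear map from two copies of `H_1` to `T ⊗ ℂ`.
-/

set_option autoImplicit false

namespace Pool.Agent.K3P

open Module Matrix NumberField Pool.Agent.Helper7 Pool.Agent.KS Pool.Agent.Ball Pool.Agent.KSE
open Pool.Agent.GPC (TC)

section lin

variable {K : Type} [Field K] [NumberField K] {m : ℕ}

/-- `opT` as a linear map -/
noncomputable def Bet_op {V : Type} [AddCommGroup V] [Module ℂ V] (t : Fin m → K → Module.End ℂ V) :
    TC K m →ₗ[ℂ] Module.End ℂ V :=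
  ∑ σ : K →+* ℂ, (tau (ts t σ)) ∘ₗ LinearMap.proj σ

lemma Bet_op_apply {V : Type} [AddCommGroup V] [Module ℂ V] (t : Fin m → K → Module.End ℂ V)
    (x : TC K m) : Bet_op t x = opT t x := by
  rw [Bet_op, LinearMap.sum_apply]
  rfl

/-- the form as a bilinear map -/
noncomputable def Bet_q (h : Matrix (Fin m) (Fin m) K) : TC K m →ₗ[ℂ] TC K m →ₗ[ℂ] ℂ :=
  LinearMap.mk₂ ℂ (qT h)
    (fun x x' y => by
      rw [qT, qT, qT, ← Finset.sum_add_distrib]
      refine Finset.sum_congr rfl fun σ _ => ?_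
      rw [Pi.add_apply, pr_add_left])
    (fun r x y => by
      rw [qT, qT, smul_eq_mul, Finset.mul_sum]
      refine Finset.sum_congr rfl fun σ _ => ?_
      rw [Pi.smul_apply, pr_smul_left])
    (fun x y y' => by
      rw [qT, qT, qT, ← Finset.sum_add_distrib]
      refine Finset.sum_congr rfl fun σ _ => ?_
      rw [Pi.add_apply, pr_add_right])
    (fun r x y => by
      rw [qT, qT, smul_eq_mul, Finset.mul_sum]
      refine Finset.sum_congr rfl fun σ _ => ?_
      rw [Pi.smul_apply, pr_smul_right])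

lemma Bet_q_apply (h : Matrix (Fin m) (Fin m) K) (x y : TC K m) : Bet_q h x y = qT h x y := rfl

lemma Bet_qT_single (h : Matrix (Fin m) (Fin m) K) [DecidableEq (K →+* ℂ)] (x : TC K m)
    (σ : K →+* ℂ) (y : Fin m → ℂ) :
    qT h x (Pi.single (cj σ) y) = pr h σ (x σ) y := by
  rw [qT, Finset.sum_eq_single σ]
  · rw [Pi.single_eq_same]
  · intro τ _ hτ
    have h1 : cj τ ≠ cj σ := by
      intro h2
      apply hτ
      rw [← cj_cj τ, h2, cj_cj]
    rw [Pi.single_eq_of_ne h1, pr, Matrix.mulVec_zero, dotProduct_zero]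
  · intro h1; exact absurd (Finset.mem_univ _) h1

lemma Bet_q_inj {h : Matrix (Fin m) (Fin m) K} (hnd : h.det ≠ 0) :
    Function.Injective (Bet_q h) := by
  classical
  rw [injective_iff_map_eq_zero]
  intro x hx
  funext σ
  apply pr_nd hnd σ
  intro y
  have h1 : Bet_q h x (Pi.single (cj σ) y) = 0 := by rw [hx]; rfl
  rw [Bet_q_apply, Bet_qT_single] at h1
  exact h1

lemma Bet_qT_symm {c : K →+* K} {h : Matrix (Fin m) (Fin m) K}
    (hconj : ∀ (σ : K →+* ℂ) (x : K), cj σ x = σ (c x))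
    (hh : ∀ a b, c (h a b) = h b a) (x y : TC K m) : qT h x y = qT h y x := by
  rw [qT, qT]
  have hinv : Function.Involutive (cj (K := K)) := cj_cj
  have h1 : ∑ σ : K →+* ℂ, pr h σ (y σ) (x (cj σ)) =
      ∑ σ : K →+* ℂ, pr h (cj σ) (y (cj σ)) (x (cj (cj σ))) :=
    (Equiv.sum_comp hinv.toPerm (fun σ : K →+* ℂ => pr h σ (y σ) (x (cj σ)))).symm
  rw [h1]
  refine Finset.sum_congr rfl fun σ _ => ?_
  rw [cj_cj, pr_symm hconj hh]

/-- the identification with the dual -/
noncomputable def Bet_e {h : Matrix (Fin m) (Fin m) K} (hnd : h.det ≠ 0) :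
    TC K m ≃ₗ[ℂ] Module.Dual ℂ (TC K m) :=
  LinearEquiv.ofInjectiveOfFinrankEq (Bet_q h) (Bet_q_inj hnd) (Subspace.dual_finrank_eq).symm

lemma Bet_e_apply {h : Matrix (Fin m) (Fin m) K} (hnd : h.det ≠ 0) (x y : TC K m) :
    Bet_e hnd x y = qT h x y := rfl

lemma Bet_e_symm {h : Matrix (Fin m) (Fin m) K} (hnd : h.det ≠ 0)
    (f : Module.Dual ℂ (TC K m)) (y : TC K m) :
    qT h ((Bet_e hnd).symm f) y = f y := by
  rw [← Bet_e_apply hnd, LinearEquiv.apply_symm_apply]

end lin

section main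

variable {κ : Type} [Fintype κ] [DecidableEq κ] {ϖ : ℂ} {K : Type} [Field K] [NumberField K]
  {m : ℕ} {P : PData κ ϖ} {c : K →+* K} {h : Matrix (Fin m) (Fin m) K}
  {t : Fin m → K → Module.End ℂ (κ → ℂ)}

/-- the functional of two vectors -/
noncomputable def Bet_f (P : PData κ ϖ) (t : Fin m → K → Module.End ℂ (κ → ℂ)) (u v : κ → ℂ) :
    Module.Dual ℂ (TC K m) :=
  (P.ψ.flip v) ∘ₗ (LinearMap.applyₗ u) ∘ₗ (Bet_op t)

lemma Bet_f_apply (u v : κ → ℂ) (x : TC K m) : Bet_f P t u v x = P.ψ (opT t x u) v := by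
  rw [← Bet_op_apply]
  rfl

/-- the bilinear map -/
noncomputable def Bet_b (P : PData κ ϖ) (t : Fin m → K → Module.End ℂ (κ → ℂ))
    {h : Matrix (Fin m) (Fin m) K} (hnd : h.det ≠ 0) :
    (κ → ℂ) →ₗ[ℂ] (κ → ℂ) →ₗ[ℂ] TC K m :=
  LinearMap.mk₂ ℂ (fun u v => (Bet_e hnd).symm (Bet_f P t u v))
    (fun u u' v => by
      rw [← map_add]
      congr 1
      apply LinearMap.ext
      intro x
      rw [LinearMap.add_apply, Bet_f_apply, Bet_f_apply, Bet_f_apply, map_add, map_add,
        LinearMap.add_apply])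
    (fun r u v => by
      rw [← map_smul]
      congr 1
      apply LinearMap.ext
      intro x
      rw [LinearMap.smul_apply, Bet_f_apply, Bet_f_apply, map_smul, map_smul,
        LinearMap.smul_apply])
    (fun u v v' => by
      rw [← map_add]
      congr 1
      apply LinearMap.ext
      intro x
      rw [LinearMap.add_apply, Bet_f_apply, Bet_f_apply, Bet_f_apply, map_add])
    (fun r u v => by
      rw [← map_smul]
      congr 1
      apply LinearMap.ext
      intro x
      rw [LinearMap.smul_apply, Bet_f_apply, Bet_f_apply, map_smul])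

lemma Bet_b_apply (hnd : h.det ≠ 0) (u v : κ → ℂ) (x : TC K m) :
    qT h (Bet_b P t hnd u v) x = P.ψ (opT t x u) v := by
  have h1 : Bet_b P t hnd u v = (Bet_e hnd).symm (Bet_f P t u v) := rfl
  rw [h1, Bet_e_symm, Bet_f_apply]

lemma Bet_opT_emb (hadd : ∀ a x y, t a (x + y) = t a x + t a y) (y : Fin m → K) :
    opT t (emb y) = ∑ a, t a (y a) := by
  rw [opT]
  have h1 : ∀ σ : K →+* ℂ, tau (ts t σ) (emb y σ) = ∑ a, σ (y a) • ts t σ a := by
    intro σ
    rw [tau_apply]
    rfl
  rw [Finset.sum_congr rfl fun σ _ => h1 σ, Finset.sum_comm]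
  refine Finset.sum_congr rfl fun a _ => ?_
  rw [t_eq_sum hadd a (y a)]

lemma Bet_opT_zero [Nonempty κ] (S : MD P c h t) (x : TC K m) (hx : opT t x = 0) : x = 0 := by
  classical
  funext σ
  apply pr_nd S.nd σ
  intro y
  have h1 : opT t x * tau (ts t (cj σ)) y + tau (ts t (cj σ)) y * opT t x =
      (2 * pr h σ (x σ) y) • 1 := by
    rw [opT, Finset.sum_mul, Finset.mul_sum, ← Finset.sum_add_distrib,
      Finset.sum_eq_single σ]
    · exact tau_pair S.conj S.cliff σ (x σ) y
    · intro τ _ hτ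
      have h2 : cj σ ≠ cj τ := by
        intro h3
        apply hτ
        rw [← cj_cj τ, ← h3, cj_cj]
      exact tau_anti S.conj S.cliff h2 (x τ) y
    · intro h1; exact absurd (Finset.mem_univ _) h1
  rw [hx, zero_mul, mul_zero, add_zero] at h1
  rcases smul_eq_zero.mp h1.symm with h2 | h2
  · simpa using h2
  · exact absurd h2 one_ne_zero

lemma Bet_alg_apply (f : Module.End ℂ (κ → ℂ))
    (hf : ∀ i j, IsAlgebraic ℚ (f (Pi.single i 1) j)) (u : κ → ℂ)
    (hu : ∀ j, IsAlgebraic ℚ (u j)) (j : κ) : IsAlgebraic ℚ (f u j) := by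
  have h1 : u = ∑ i, u i • (Pi.single i (1 : ℂ) : κ → ℂ) := by
    funext j
    rw [Finset.sum_apply, Finset.sum_eq_single j]
    · simp
    · intro i _ hi
      simp [Pi.single_eq_of_ne (Ne.symm hi)]
    · intro h1; exact absurd (Finset.mem_univ _) h1
  rw [h1, map_sum, Finset.sum_apply]
  refine Finset.sum_induction _ (fun z : ℂ => IsAlgebraic ℚ z) (fun a b ha hb => ha.add hb)
    isAlgebraic_zero fun i _ => ?_
  rw [map_smul, Pi.smul_apply, smul_eq_mul]
  exact (hu i).mul (hf i j)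

lemma Bet_alg_psi (P : PData κ ϖ) (u v : κ → ℂ) (hu : ∀ j, IsAlgebraic ℚ (u j))
    (hv : ∀ j, IsAlgebraic ℚ (v j)) : IsAlgebraic ℚ (P.ψ u v) := by
  have h1 : ∀ u : κ → ℂ, u = ∑ i, u i • (Pi.single i (1 : ℂ) : κ → ℂ) := by
    intro u
    funext j
    rw [Finset.sum_apply, Finset.sum_eq_single j]
    · simp
    · intro i _ hi
      simp [Pi.single_eq_of_ne (Ne.symm hi)]
    · intro h1; exact absurd (Finset.mem_univ _) h1
  rw [h1 u, map_sum, LinearMap.sum_apply]
  refine Finset.sum_induction _ (fun z : ℂ => IsAlgebraic ℚ z) (fun a b ha hb => ha.add hb)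
    isAlgebraic_zero fun i _ => ?_
  rw [map_smul, LinearMap.smul_apply, smul_eq_mul, h1 v, map_sum]
  refine (hu i).mul ?_
  refine Finset.sum_induction _ (fun z : ℂ => IsAlgebraic ℚ z) (fun a b ha hb => ha.add hb)
    isAlgebraic_zero fun j _ => ?_
  rw [map_smul, smul_eq_mul]
  exact (hv j).mul (P.hψalg i j)

end main

theorem thm_Bet (h1 : St_Drb) (h2 : St_Rtb) : St_Bet := by
  classical
  intro κ _ _ _ ϖ P K _ _ c m h t hϖ S
  refine ⟨Bet_b P t S.nd, fun u v x => Bet_b_apply S.nd u v x, ?_, ?_, ?_⟩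
  · intro u hu v hv
    obtain ⟨_, _, h3⟩ := h2 K c m h S.conj S.herm S.nd
    obtain ⟨y, hy⟩ := h3 (ϖ⁻¹ • Bet_b P t S.nd u v) (by
      intro y
      have e1 : opT t (emb y) u ∈ P.Q := by
        rw [Bet_opT_emb S.add, LinearMap.sum_apply]
        exact Submodule.sum_mem _ fun a _ => S.rat a _ u hu
      obtain ⟨q, hq⟩ := P.hψQ _ e1 v hv
      refine ⟨q, ?_⟩
      have e2 : qT h (ϖ⁻¹ • Bet_b P t S.nd u v) (emb y) =
          ϖ⁻¹ * qT h (Bet_b P t S.nd u v) (emb y) := by
        rw [← Bet_q_apply, ← Bet_q_apply, map_smul, LinearMap.smul_apply, smul_eq_mul]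
      rw [e2, Bet_b_apply, hq]
      field_simp)
    refine ⟨y, ?_⟩
    rw [← hy, smul_smul, mul_inv_cancel₀ hϖ, one_smul]
  · intro u v hu hv
    obtain ⟨g, g1, g2, g3⟩ := h1 κ ϖ P K c m h t S
    apply g3
    intro σ b
    rw [← Bet_qT_single, Bet_b_apply]
    have e1 : DR t (Pi.single (cj σ) (g (cj σ) b) : TC K m) := by
      rw [g1]
      refine ⟨Pi.single (cj σ) (Pi.single b 1), ?_, ?_⟩
      · intro τ b'
        by_cases hτ : τ = cj σ
        · subst hτ
          rw [Pi.single_eq_same]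
          by_cases hb : b' = b
          · subst hb
            rw [Pi.single_eq_same]
            exact isAlgebraic_one
          · rw [Pi.single_eq_of_ne hb]
            exact isAlgebraic_zero
        · rw [Pi.single_eq_of_ne hτ, Pi.zero_apply]
          exact isAlgebraic_zero
      · intro τ
        by_cases hτ : τ = cj σ
        · subst hτ
          rw [Pi.single_eq_same, Pi.single_eq_same, Finset.sum_eq_single b]
          · rw [Pi.single_eq_same, one_smul]
          · intro b' _ hb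
            rw [Pi.single_eq_of_ne hb, zero_smul]
          · intro h1; exact absurd (Finset.mem_univ _) h1
        · rw [Pi.single_eq_of_ne hτ, Pi.single_eq_of_ne hτ]
          simp
    exact Bet_alg_psi P _ v (Bet_alg_apply _ e1 u hu) hv
  · by_contra hne
    obtain ⟨f, hf0, hf⟩ := Submodule.exists_dual_map_eq_bot_of_lt_top (lt_top_iff_ne_top.mpr hne)
      inferInstance
    have hv : ∀ w ∈ Submodule.span ℂ {w | ∃ u v, w = Bet_b P t S.nd u v}, f w = 0 := by
      intro w hw
      have e1 : f w ∈ Submodule.map f (Submodule.span ℂ {w | ∃ u v, w = Bet_b P t S.nd u v}) :=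
        ⟨w, hw, rfl⟩
      rw [hf] at e1
      exact e1
    have e2 : (Bet_e S.nd).symm f = 0 := by
      apply Bet_opT_zero S
      apply LinearMap.ext
      intro u
      rw [LinearMap.zero_apply]
      apply P.hψnd
      intro v
      rw [← Bet_b_apply S.nd, Bet_qT_symm S.conj S.herm, Bet_e_symm]
      exact hv _ (Submodule.subset_span ⟨u, v, rfl⟩)
    apply hf0
    rw [← LinearEquiv.apply_symm_apply (Bet_e S.nd) f, e2, map_zero]

end Pool.Agent.K3P
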