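import Pool.Agent.K3P.StD

/-!
# K3P: Casimir identities for tensors
-/

set_option autoImplicit false

namespace Pool.Agent.K3P

variable {Pl : Type} [DecidableEq Pl] {m d : ℕ}

lemma Cas_sum [Fintype Pl] (i : Fin d → Pl × Fin m) (G : Pl × Fin m → Fin m → Fin d → ℂ) :
    ∑ s, ∑ a, ∑ b, ∑ r, (if i r = (s, a) then G (s, a) b r else 0) = ∑ r, ∑ b, G (i r) b r := by
  have h1 : ∀ (s : Pl) (a : Fin m), ∑ b, ∑ r, (if i r = (s, a) then G (s, a) b r else 0) =
      ∑ r, if i r = (s, a) then ∑ b, G (s, a) b r else 0 := by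
    intro s a
    rw [Finset.sum_comm]
    refine Finset.sum_congr rfl fun r _ => ?_
    split_ifs
    · rfl
    · exact Finset.sum_const_zero
  have h2 : ∑ s, ∑ a, ∑ b, ∑ r, (if i r = (s, a) then G (s, a) b r else 0) =
      ∑ x : Pl × Fin m, ∑ r, if i r = x then ∑ b, G x b r else 0 := by
    rw [Fintype.sum_prod_type]
    exact Finset.sum_congr rfl fun s _ => Finset.sum_congr rfl fun a _ => h1 s a
  rw [h2, Finset.sum_comm]
  refine Finset.sum_congr rfl fun r _ => ?_
  rw [Finset.sum_ite_eq, if_pos (Finset.mem_univ _)]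

omit [DecidableEq Pl] in
lemma Cas_swap (c : (Fin d → Pl × Fin m) → ℂ) (i : Fin d → Pl × Fin m) (r r' : Fin d) :
    c (Function.update (Function.update i r (i r')) r' (i r)) = c (i ∘ Equiv.swap r r') := by
  rw [Equiv.swap_comm, Equiv.comp_swap_eq_update]

lemma Cas_one (c : (Fin d → Pl × Fin m) → ℂ) (i : Fin d → Pl × Fin m) (r : Fin d) :
    ∑ b, DE (i r).1 b (i r).2 c (Function.update i r ((i r).1, b)) =
      (m : ℂ) * c i + ∑ r' ∈ Finset.univ.erase r,
        if (i r).1 = (i r').1 then c (i ∘ Equiv.swap r r') else 0 := by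
  have h1 : ∀ b : Fin m, DE (i r).1 b (i r).2 c (Function.update i r ((i r).1, b)) =
      c i + ∑ r' ∈ Finset.univ.erase r, if i r' = ((i r).1, b) then
        c (Function.update (Function.update i r ((i r).1, b)) r' (i r)) else 0 := by
    intro b
    rw [DE, ← Finset.add_sum_erase Finset.univ _ (Finset.mem_univ r)]
    congr 1
    · rw [Function.update_self, if_pos rfl, Function.update_idem, Prod.mk.eta,
        Function.update_eq_self]
    · refine Finset.sum_congr rfl fun r' hr' => ?_
      rw [Function.update_of_ne (Finset.ne_of_mem_erase hr'), Prod.mk.eta]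
  rw [Finset.sum_congr rfl fun b _ => h1 b, Finset.sum_add_distrib, Finset.sum_const,
    Finset.card_univ, Fintype.card_fin, nsmul_eq_mul, Finset.sum_comm]
  congr 1
  refine Finset.sum_congr rfl fun r' _ => ?_
  by_cases h : (i r).1 = (i r').1
  · rw [if_pos h, Finset.sum_eq_single (i r').2]
    · rw [h, Prod.mk.eta, if_pos rfl]
      exact Cas_swap c i r r'
    · intro b _ hb
      rw [if_neg]
      intro h2
      exact hb (by rw [h2])
    · intro h2; exact absurd (Finset.mem_univ _) h2
  · rw [if_neg h]
    refine Finset.sum_eq_zero fun b _ => ?_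
    rw [if_neg]
    intro h2
    exact h (by rw [h2])

lemma Cas_two (c : (Fin d → Pl × Fin m) → ℂ) (i : Fin d → Pl × Fin m) (r : Fin d) :
    ∑ b, DE (i r).1 (i r).2 b c (Function.update i r ((i r).1, b)) =
      c i + ∑ r' ∈ Finset.univ.erase r, if i r = i r' then
        ∑ b, c (Function.update (Function.update i r ((i r).1, b)) r' ((i r).1, b)) else 0 := by
  have h1 : ∀ b : Fin m, DE (i r).1 (i r).2 b c (Function.update i r ((i r).1, b)) =
      (if b = (i r).2 then c i else 0) + ∑ r' ∈ Finset.univ.erase r, if i r = i r' then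
        c (Function.update (Function.update i r ((i r).1, b)) r' ((i r).1, b)) else 0 := by
    intro b
    rw [DE, ← Finset.add_sum_erase Finset.univ _ (Finset.mem_univ r)]
    congr 1
    · rw [Function.update_self, Function.update_idem]
      by_cases hb : b = (i r).2
      · rw [if_pos hb, hb, if_pos rfl, Prod.mk.eta, Function.update_eq_self]
      · rw [if_neg hb, if_neg]
        intro h2
        exact hb (Prod.ext_iff.1 h2).2
    · refine Finset.sum_congr rfl fun r' hr' => ?_
      rw [Function.update_of_ne (Finset.ne_of_mem_erase hr'), Prod.mk.eta]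
      by_cases h2 : i r = i r'
      · rw [if_pos h2, if_pos h2.symm]
      · rw [if_neg h2, if_neg fun h3 => h2 h3.symm]
  rw [Finset.sum_congr rfl fun b _ => h1 b, Finset.sum_add_distrib, Finset.sum_ite_eq',
    if_pos (Finset.mem_univ _), Finset.sum_comm]
  congr 1
  refine Finset.sum_congr rfl fun r' _ => ?_
  by_cases h : i r = i r'
  · simp only [if_pos h]
  · simp only [if_neg h]
    exact Finset.sum_const_zero

theorem thm_Cas : St_Cas := by
  intro Pl _ _ m d c i
  constructor
  · have h1 : ∑ s, ∑ a, ∑ b, DE s a b (DE s b a c) i =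
        ∑ r, ∑ b, DE (i r).1 b (i r).2 c (Function.update i r ((i r).1, b)) :=
      Cas_sum i fun x b r => DE x.1 b x.2 c (Function.update i r (x.1, b))
    rw [h1, Finset.sum_congr rfl fun r _ => Cas_one c i r, Finset.sum_add_distrib,
      Finset.sum_const, Finset.card_univ, Fintype.card_fin, nsmul_eq_mul, SP]
    ring
  · have h1 : ∑ s, ∑ a, ∑ b, DE s a b (DE s a b c) i =
        ∑ r, ∑ b, DE (i r).1 (i r).2 b c (Function.update i r ((i r).1, b)) :=
      Cas_sum i fun x b r => DE x.1 x.2 b c (Function.update i r (x.1, b))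
    rw [h1, Finset.sum_congr rfl fun r _ => Cas_two c i r, Finset.sum_add_distrib,
      Finset.sum_const, Finset.card_univ, Fintype.card_fin, nsmul_eq_mul, KP]

end Pool.Agent.K3P
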