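import Pool.Agent.K3P.StD

/-!
# K3P: contractions of invariant tensors

Theorem `thm_Cof : St_Cof`.
-/

set_option autoImplicit false
set_option linter.unusedSectionVars false

namespace Pool.Agent.K3P

section

variable {Pl : Type} [DecidableEq Pl] {m d : ℕ}

/-- an equivalence with two prescribed values -/
private theorem Cof_equiv (d : ℕ) (r r' : Fin (d + 2)) (h : r' ≠ r) :
    ∃ φ : Fin 2 ⊕ Fin d ≃ Fin (d + 2), φ (.inl 0) = r ∧ φ (.inl 1) = r' := by
  obtain ⟨e0⟩ : Nonempty (Fin 2 ⊕ Fin d ≃ Fin (d + 2)) :=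
    ⟨finSumFinEquiv.trans (finCongr (by omega))⟩
  have h1 : (e0.trans (Equiv.swap (e0 (.inl 0)) r)) (.inl 0) = r := by simp
  refine ⟨(e0.trans (Equiv.swap (e0 (.inl 0)) r)).trans
    (Equiv.swap ((e0.trans (Equiv.swap (e0 (.inl 0)) r)) (.inl 1)) r'), ?_, ?_⟩
  · rw [Equiv.trans_apply, h1]
    apply Equiv.swap_apply_of_ne_of_ne
    · intro h2
      have h3 := h1.trans h2
      have h4 := (e0.trans (Equiv.swap (e0 (.inl 0)) r)).injective h3
      simp at h4
    · exact h.symm
  · rw [Equiv.trans_apply, Equiv.swap_apply_left]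

/-- the tuple with two prescribed entries -/
private def Cof_tup (φ : Fin 2 ⊕ Fin d ≃ Fin (d + 2)) (x y : Pl × Fin m)
    (j : Fin d → Pl × Fin m) : Fin (d + 2) → Pl × Fin m :=
  fun t => Sum.elim ![x, y] j (φ.symm t)

private theorem Cof_tup_l0 (φ : Fin 2 ⊕ Fin d ≃ Fin (d + 2)) (x y : Pl × Fin m)
    (j : Fin d → Pl × Fin m) : Cof_tup φ x y j (φ (.inl 0)) = x := by
  simp [Cof_tup]

private theorem Cof_tup_l1 (φ : Fin 2 ⊕ Fin d ≃ Fin (d + 2)) (x y : Pl × Fin m)
    (j : Fin d → Pl × Fin m) : Cof_tup φ x y j (φ (.inl 1)) = y := by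
  simp [Cof_tup]

private theorem Cof_tup_r (φ : Fin 2 ⊕ Fin d ≃ Fin (d + 2)) (x y : Pl × Fin m)
    (j : Fin d → Pl × Fin m) (q : Fin d) : Cof_tup φ x y j (φ (.inr q)) = j q := by
  simp [Cof_tup]

private theorem Cof_ext (φ : Fin 2 ⊕ Fin d ≃ Fin (d + 2)) (f g : Fin (d + 2) → Pl × Fin m)
    (h0 : f (φ (.inl 0)) = g (φ (.inl 0))) (h1 : f (φ (.inl 1)) = g (φ (.inl 1)))
    (h2 : ∀ q, f (φ (.inr q)) = g (φ (.inr q))) : f = g := by
  funext t
  obtain ⟨x, rfl⟩ := φ.surjective t
  rcases x with k | q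
  · fin_cases k
    · exact h0
    · exact h1
  · exact h2 q

private theorem Cof_upd_l0 (φ : Fin 2 ⊕ Fin d ≃ Fin (d + 2)) (x y z : Pl × Fin m)
    (j : Fin d → Pl × Fin m) :
    Function.update (Cof_tup φ x y j) (φ (.inl 0)) z = Cof_tup φ z y j := by
  apply Cof_ext φ
  · rw [Function.update_self, Cof_tup_l0]
  · rw [Function.update_of_ne (by simp), Cof_tup_l1, Cof_tup_l1]
  · intro q
    rw [Function.update_of_ne (by simp), Cof_tup_r, Cof_tup_r]

private theorem Cof_upd_l1 (φ : Fin 2 ⊕ Fin d ≃ Fin (d + 2)) (x y z : Pl × Fin m)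
    (j : Fin d → Pl × Fin m) :
    Function.update (Cof_tup φ x y j) (φ (.inl 1)) z = Cof_tup φ x z j := by
  apply Cof_ext φ
  · rw [Function.update_of_ne (by simp), Cof_tup_l0, Cof_tup_l0]
  · rw [Function.update_self, Cof_tup_l1]
  · intro q
    rw [Function.update_of_ne (by simp), Cof_tup_r, Cof_tup_r]

private theorem Cof_upd_r (φ : Fin 2 ⊕ Fin d ≃ Fin (d + 2)) (x y z : Pl × Fin m)
    (j : Fin d → Pl × Fin m) (q : Fin d) :
    Function.update (Cof_tup φ x y j) (φ (.inr q)) z = Cof_tup φ x y (Function.update j q z) := by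
  apply Cof_ext φ
  · rw [Function.update_of_ne (by simp), Cof_tup_l0, Cof_tup_l0]
  · rw [Function.update_of_ne (by simp), Cof_tup_l1, Cof_tup_l1]
  · intro q'
    rw [Cof_tup_r]
    by_cases h : q' = q
    · subst h
      rw [Function.update_self, Function.update_self]
    · rw [Function.update_of_ne (by simpa using h), Cof_tup_r, Function.update_of_ne h]

/-- the contraction -/
private def Cof_c (φ : Fin 2 ⊕ Fin d ≃ Fin (d + 2)) (c : (Fin (d + 2) → Pl × Fin m) → ℂ) (s : Pl) :
    (Fin d → Pl × Fin m) → ℂ :=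
  fun j => ∑ b, c (Cof_tup φ (s, b) (s, b) j)

private theorem Cof_rot (φ : Fin 2 ⊕ Fin d ≃ Fin (d + 2))
    (c : (Fin (d + 2) → Pl × Fin m) → ℂ) (s : Pl) (hc : Rot c) : Rot (Cof_c φ c s) := by
  intro j s0 a b hab
  have h1 : ∀ b' : Fin m, _ := fun b' => hc (Cof_tup φ (s, b') (s, b') j) s0 a b hab
  have h2 : ∀ b' : Fin m,
      (∑ k : Fin 2, (if (s, b') = (s0, a) then
        c (Function.update (Cof_tup φ (s, b') (s, b') j) (φ (.inl k)) (s0, b)) else
        if (s, b') = (s0, b) then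
        -c (Function.update (Cof_tup φ (s, b') (s, b') j) (φ (.inl k)) (s0, a)) else 0)) +
      ∑ q : Fin d, (if j q = (s0, a) then
        c (Cof_tup φ (s, b') (s, b') (Function.update j q (s0, b))) else
        if j q = (s0, b) then
        -c (Cof_tup φ (s, b') (s, b') (Function.update j q (s0, a))) else 0) = 0 := by
    intro b'
    have h5 := h1 b'
    rw [← Equiv.sum_comp φ, Fintype.sum_sum_type] at h5
    refine Eq.trans ?_ h5
    congr 1
    · apply Finset.sum_congr rfl
      intro k _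
      have : Cof_tup φ (s, b') (s, b') j (φ (.inl k)) = (s, b') := by
        fin_cases k
        · exact Cof_tup_l0 φ _ _ j
        · exact Cof_tup_l1 φ _ _ j
      rw [this]
    · apply Finset.sum_congr rfl
      intro q _
      rw [Cof_tup_r, Cof_upd_r, Cof_upd_r]
  have h3 := Finset.sum_congr rfl fun b' (_ : b' ∈ (Finset.univ : Finset (Fin m))) => h2 b'
  rw [Finset.sum_const_zero, Finset.sum_add_distrib] at h3
  have h4 : (∑ b' : Fin m, ∑ k : Fin 2, (if (s, b') = (s0, a) then
        c (Function.update (Cof_tup φ (s, b') (s, b') j) (φ (.inl k)) (s0, b)) else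
        if (s, b') = (s0, b) then
        -c (Function.update (Cof_tup φ (s, b') (s, b') j) (φ (.inl k)) (s0, a)) else 0)) = 0 := by
    by_cases hs : s = s0
    · subst hs
      simp only [Fin.sum_univ_two, Cof_upd_l0, Cof_upd_l1, Prod.mk.injEq, true_and]
      rw [Finset.sum_add_distrib]
      have e1 : ∀ f g : Fin m → ℂ, (∑ b' : Fin m, if b' = a then f b' else
          if b' = b then -g b' else 0) = f a - g b := by
        intro f g
        have : ∀ b' : Fin m, (if b' = a then f b' else if b' = b then -g b' else 0) =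
            (if b' = a then f b' else 0) - (if b' = b then g b' else 0) := by
          intro b'
          by_cases h5 : b' = a
          · subst h5
            simp [hab]
          · simp [h5]
            split_ifs <;> simp
        rw [Finset.sum_congr rfl fun b' _ => this b', Finset.sum_sub_distrib]
        simp
      rw [e1, e1]
      ring
    · have : ∀ (b' : Fin m) (x : Fin m), ((s, b') : Pl × Fin m) ≠ (s0, x) := by
        intro b' x h
        exact hs (congrArg Prod.fst h)
      simp [this]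
  rw [h4, zero_add, Finset.sum_comm] at h3
  refine Eq.trans ?_ h3
  apply Finset.sum_congr rfl
  intro q _
  split_ifs
  · rfl
  · simp [Cof_c]
  · simp

/-- multiplication by the pairing -/
private def Cof_G (φ : Fin 2 ⊕ Fin d ≃ Fin (d + 2)) (s : Pl) (f : (Fin d → Pl × Fin m) → ℂ) :
    (Fin (d + 2) → Pl × Fin m) → ℂ :=
  fun i => if i (φ (.inl 0)) = i (φ (.inl 1)) ∧ (i (φ (.inl 0))).1 = s then
    f (fun q => i (φ (.inr q))) else 0

/-- one more pair -/
private def Cof_pair (l : ℕ) : Fin (l + 1) × Fin 2 ≃ Fin 2 ⊕ (Fin l × Fin 2) where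
  toFun p := Fin.cases (motive := fun _ => Fin 2 ⊕ (Fin l × Fin 2)) (Sum.inl p.2)
    (fun a => Sum.inr (a, p.2)) p.1
  invFun := Sum.elim (fun k => (0, k)) fun p => (p.1.succ, p.2)
  left_inv := by
    rintro ⟨a, k⟩
    refine Fin.cases ?_ (fun a => ?_) a <;> simp
  right_inv := by
    rintro (k | ⟨a, k⟩) <;> simp

/-- the new equivalence -/
private def Cof_e {l l₁ : ℕ} (φ : Fin 2 ⊕ Fin d ≃ Fin (d + 2))
    (e : (Fin l × Fin 2) ⊕ (Fin l₁ × Fin m) ≃ Fin d) :
    (Fin (l + 1) × Fin 2) ⊕ (Fin l₁ × Fin m) ≃ Fin (d + 2) :=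
  ((((Cof_pair l).sumCongr (Equiv.refl _)).trans (Equiv.sumAssoc _ _ _)).trans
    ((Equiv.refl _).sumCongr e)).trans φ

private theorem Cof_e_0 {l l₁ : ℕ} (φ : Fin 2 ⊕ Fin d ≃ Fin (d + 2))
    (e : (Fin l × Fin 2) ⊕ (Fin l₁ × Fin m) ≃ Fin d) (k : Fin 2) :
    Cof_e φ e (.inl (0, k)) = φ (.inl k) := by
  simp [Cof_e, Cof_pair]

private theorem Cof_e_s {l l₁ : ℕ} (φ : Fin 2 ⊕ Fin d ≃ Fin (d + 2))
    (e : (Fin l × Fin 2) ⊕ (Fin l₁ × Fin m) ≃ Fin d) (a : Fin l) (k : Fin 2) :
    Cof_e φ e (.inl (a.succ, k)) = φ (.inr (e (.inl (a, k)))) := by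
  simp [Cof_e, Cof_pair]

private theorem Cof_e_r {l l₁ : ℕ} (φ : Fin 2 ⊕ Fin d ≃ Fin (d + 2))
    (e : (Fin l × Fin 2) ⊕ (Fin l₁ × Fin m) ≃ Fin d) (p : Fin l₁ × Fin m) :
    Cof_e φ e (.inr p) = φ (.inr (e (.inr p))) := by
  simp [Cof_e]

private theorem Cof_dd {l l₁ : ℕ} (φ : Fin 2 ⊕ Fin d ≃ Fin (d + 2)) (s : Pl)
    (e : (Fin l × Fin 2) ⊕ (Fin l₁ × Fin m) ≃ Fin d) (s' : Fin l → Pl) (s₁ : Fin l₁ → Pl) :
    Cof_G φ s (dd e s' s₁) =
      dd (Cof_e φ e) (Fin.cons (α := fun _ => Pl) s s') s₁ := by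
  funext i
  unfold Cof_G dd
  rw [Fin.prod_univ_succ]
  simp only [Cof_e_0, Cof_e_s, Cof_e_r, Fin.cons_zero, Fin.cons_succ]
  by_cases h : i (φ (.inl 0)) = i (φ (.inl 1)) ∧ (i (φ (.inl 0))).1 = s
  · rw [if_pos h, if_pos h, one_mul]
  · rw [if_neg h, if_neg h, zero_mul, zero_mul]

private theorem Cof_G_mem (φ : Fin 2 ⊕ Fin d ≃ Fin (d + 2)) (s : Pl)
    (f : (Fin d → Pl × Fin m) → ℂ) (hf : f ∈ SD Pl m d) : Cof_G φ s f ∈ SD Pl m (d + 2) := by
  unfold SD at hf
  induction hf using Submodule.span_induction with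
  | mem x hx =>
    obtain ⟨l, l₁, e, s', s₁, rfl⟩ := hx
    rw [Cof_dd]
    exact Submodule.subset_span ⟨_, _, _, _, _, rfl⟩
  | zero =>
    have : Cof_G φ s (0 : (Fin d → Pl × Fin m) → ℂ) = 0 := by
      funext i
      simp [Cof_G]
    rw [this]
    exact Submodule.zero_mem _
  | add x y _ _ hx hy =>
    have : Cof_G φ s (x + y) = Cof_G φ s x + Cof_G φ s y := by
      funext i
      simp only [Cof_G, Pi.add_apply]
      split_ifs <;> simp
    rw [this]
    exact Submodule.add_mem _ hx hy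
  | smul t x _ hx =>
    have : Cof_G φ s (t • x) = t • Cof_G φ s x := by
      funext i
      simp only [Cof_G, Pi.smul_apply]
      split_ifs <;> simp
    rw [this]
    exact Submodule.smul_mem _ _ hx

end

theorem thm_Cof : St_Cof := by
  intro Pl _ _ m d ih c hc
  have hterm : ∀ r : Fin (d + 2), ∀ r' ∈ Finset.univ.erase r,
      (fun i : Fin (d + 2) → Pl × Fin m => if i r = i r' then
        ∑ b, c (Function.update (Function.update i r ((i r).1, b)) r' ((i r).1, b)) else 0) ∈
      SD Pl m (d + 2) := by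
    intro r r' hr'
    obtain ⟨φ, h0, h1⟩ := Cof_equiv d r r' (Finset.ne_of_mem_erase hr')
    have heq : (fun i : Fin (d + 2) → Pl × Fin m => if i r = i r' then
        ∑ b, c (Function.update (Function.update i r ((i r).1, b)) r' ((i r).1, b)) else 0) =
        ∑ s : Pl, Cof_G φ s (Cof_c φ c s) := by
      funext i
      rw [Finset.sum_apply]
      simp only [Cof_G, h0, h1]
      by_cases h : i r = i r'
      · rw [if_pos h]
        simp only [h, true_and]
        rw [Finset.sum_ite_eq]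
        rw [if_pos (Finset.mem_univ _)]
        unfold Cof_c
        apply Finset.sum_congr rfl
        intro b _
        congr 1
        have hne : r ≠ r' := (Finset.ne_of_mem_erase hr').symm
        apply Cof_ext φ
        · rw [Cof_tup_l0, h0, Function.update_of_ne hne, Function.update_self]
        · rw [Cof_tup_l1, h1, Function.update_self]
        · intro q
          rw [Cof_tup_r, Function.update_of_ne, Function.update_of_ne]
          · rw [← h0]; simp
          · rw [← h1]; simp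
      · rw [if_neg h]
        simp [h]
    rw [heq]
    apply Submodule.sum_mem
    intro s _
    exact Cof_G_mem φ s _ (ih _ (Cof_rot φ c s hc))
  have hK : KP c = ∑ r, ∑ r' ∈ Finset.univ.erase r,
      (fun i : Fin (d + 2) → Pl × Fin m => if i r = i r' then
        ∑ b, c (Function.update (Function.update i r ((i r).1, b)) r' ((i r).1, b)) else 0) := by
    funext i
    simp only [KP, Finset.sum_apply]
  rw [hK]
  exact Submodule.sum_mem _ fun r _ => Submodule.sum_mem _ fun r' hr' => hterm r r' hr'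

end Pool.Agent.K3P

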