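import Pool.Agent.K3P.St

/-!
# K3P: the de Rham structure of `T`
-/

set_option autoImplicit false

namespace Pool.Agent.K3P

open Module Matrix NumberField Pool.Agent.Helper7 Pool.Agent.KS Pool.Agent.Ball Pool.Agent.KSE
open Pool.Agent.GPC (AbVar TC IsRatT qf HX IsGrK3 IsBasicK3 IsGenK3)

section alg

lemma Drb_sum {ι : Type*} (s : Finset ι) (f : ι → ℂ) (h : ∀ i ∈ s, IsAlgebraic ℚ (f i)) :
    IsAlgebraic ℚ (∑ i ∈ s, f i) := by
  have h1 : ∑ i ∈ s, f i ∈ algebraicClosure ℚ ℂ :=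
    sum_mem fun i hi => mem_algebraicClosure_iff.mpr (h i hi)
  exact mem_algebraicClosure_iff.mp h1

/-- the solution of a linear system with algebraic coefficients -/
lemma Drb_inv {m : ℕ} (G : Matrix (Fin m) (Fin m) ℂ) (hG : ∀ a b, IsAlgebraic ℚ (G a b))
    (hdet : G.det ≠ 0) (v : Fin m → ℂ) (hv : ∀ b, IsAlgebraic ℚ ((v ᵥ* G) b)) (b : Fin m) :
    IsAlgebraic ℚ (v b) := by
  let G0 : Matrix (Fin m) (Fin m) (algebraicClosure ℚ ℂ) :=
    fun a b => ⟨G a b, mem_algebraicClosure_iff.mpr (hG a b)⟩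
  have hG0 : G = G0.map (algebraMap (algebraicClosure ℚ ℂ) ℂ) := rfl
  have hd : IsUnit G0.det := by
    rw [isUnit_iff_ne_zero]
    intro h0
    apply hdet
    rw [hG0, ← RingHom.mapMatrix_apply, ← RingHom.map_det, h0, map_zero]
  have h1 : G * (G0⁻¹).map (algebraMap (algebraicClosure ℚ ℂ) ℂ) = 1 := by
    have h2 : G0 * G0⁻¹ = 1 := Matrix.mul_nonsing_inv G0 hd
    rw [hG0, ← RingHom.mapMatrix_apply, ← RingHom.mapMatrix_apply, ← map_mul, h2, map_one]
  have h3 : v = (v ᵥ* G) ᵥ* (G0⁻¹).map (algebraMap (algebraicClosure ℚ ℂ) ℂ) := by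
    rw [Matrix.vecMul_vecMul, h1, Matrix.vecMul_one]
  have h4 : v b = ∑ a, (v ᵥ* G) a * ((G0⁻¹ a b : algebraicClosure ℚ ℂ) : ℂ) := by
    conv_lhs => rw [h3]
    rfl
  rw [h4]
  exact Drb_sum _ _ fun a _ => (hv a).mul (mem_algebraicClosure_iff.mp (G0⁻¹ a b).2)

variable {κ : Type} [DecidableEq κ]

/-- operators with algebraic entries -/
def Drb_A (f : Module.End ℂ (κ → ℂ)) : Prop := ∀ i j, IsAlgebraic ℚ (f (Pi.single i 1) j)

lemma Drb_A_sum {ι : Type*} (s : Finset ι) (f : ι → Module.End ℂ (κ → ℂ))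
    (h : ∀ i ∈ s, Drb_A (f i)) : Drb_A (∑ i ∈ s, f i) := by
  intro i j
  rw [LinearMap.sum_apply, Finset.sum_apply]
  exact Drb_sum _ _ fun k hk => h k hk i j

lemma Drb_A_smul (r : ℂ) (hr : IsAlgebraic ℚ r) (f : Module.End ℂ (κ → ℂ)) (h : Drb_A f) :
    Drb_A (r • f) := by
  intro i j
  rw [LinearMap.smul_apply, Pi.smul_apply, smul_eq_mul]
  exact hr.mul (h i j)

lemma Drb_A_add (f g : Module.End ℂ (κ → ℂ)) (hf : Drb_A f) (hg : Drb_A g) :
    Drb_A (f + g) := by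
  intro i j
  rw [LinearMap.add_apply, Pi.add_apply]
  exact (hf i j).add (hg i j)

lemma Drb_A_mul [Fintype κ] (f g : Module.End ℂ (κ → ℂ)) (hf : Drb_A f) (hg : Drb_A g) :
    Drb_A (f * g) := by
  intro i j
  have h1 : g (Pi.single i 1) = ∑ k, g (Pi.single i 1) k • (Pi.single k (1 : ℂ) : κ → ℂ) := by
    funext l
    rw [Finset.sum_apply, Finset.sum_eq_single l]
    · simp
    · intro k _ hk
      rw [Pi.smul_apply, Pi.single_eq_of_ne (Ne.symm hk), smul_zero]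
    · intro h; exact absurd (Finset.mem_univ _) h
  rw [Module.End.mul_apply, h1, map_sum, Finset.sum_apply]
  refine Drb_sum _ _ fun k _ => ?_
  rw [map_smul, Pi.smul_apply, smul_eq_mul]
  exact (hg i k).mul (hf k j)

end alg

section

variable {κ : Type} [Fintype κ] [DecidableEq κ] {ϖ : ℂ} {P : PData κ ϖ} {K : Type} [Field K]
  [NumberField K] {c : K →+* K} {m : ℕ} {h : Matrix (Fin m) (Fin m) K}
  {t : Fin m → K → Module.End ℂ (κ → ℂ)}

lemma Drb_cj_inj {σ τ : K →+* ℂ} (hst : cj σ = cj τ) : σ = τ := by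
  rw [← cj_cj σ, hst, cj_cj]

lemma Drb_anti (S : MD P c h t) (x : TC K m) (σ : K →+* ℂ) (y : Fin m → ℂ) :
    opT t x * tau (ts t (cj σ)) y + tau (ts t (cj σ)) y * opT t x = (2 * pr h σ (x σ) y) • 1 := by
  rw [opT, Finset.sum_mul, Finset.mul_sum, ← Finset.sum_add_distrib,
    Finset.sum_eq_single σ]
  · exact tau_pair S.conj S.cliff σ (x σ) y
  · intro τ _ hτ
    exact tau_anti S.conj S.cliff (fun hh => hτ (Drb_cj_inj hh).symm) (x τ) y
  · intro hh; exact absurd (Finset.mem_univ _) hh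

lemma Drb_pr_sum (σ : K →+* ℂ) (w : Fin m → ℂ) (G : Fin m → Fin m → ℂ) (y : Fin m → ℂ) :
    pr h σ (∑ b, w b • G b) y = ∑ b, w b * pr h σ (G b) y := by
  have hz : pr h σ (0 : Fin m → ℂ) y = 0 := by
    rw [pr, zero_dotProduct]
  have h1 : ∀ s : Finset (Fin m), pr h σ (∑ b ∈ s, w b • G b) y =
      ∑ b ∈ s, w b * pr h σ (G b) y := by
    intro s
    induction s using Finset.induction_on with
    | empty => rw [Finset.sum_empty, Finset.sum_empty, hz]
    | insert a s ha ih =>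
      rw [Finset.sum_insert ha, Finset.sum_insert ha, pr_add_left, pr_smul_left, ih]
  exact h1 Finset.univ

end

theorem thm_Drb : St_Drb := by
  intro κ _ _ _ ϖ P K _ _ c m h t S
  choose g hg hga using S.alg
  let G : (K →+* ℂ) → Fin m → Fin m → ℂ := fun σ b a => g σ a b
  have hG : ∀ σ b, Drb_A (tau (ts t σ) (G σ b)) := by
    intro σ b i j
    rw [tau_apply]
    exact hga σ b i j
  have hback : ∀ x : TC K m, (∃ y : (K →+* ℂ) → Fin m → ℂ, (∀ σ b, IsAlgebraic ℚ (y σ b)) ∧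
      ∀ σ, x σ = ∑ b, y σ b • G σ b) → DR t x := by
    rintro x ⟨y, hy, hx⟩
    show Drb_A (opT t x)
    rw [opT]
    refine Drb_A_sum _ _ fun σ _ => ?_
    rw [hx σ, map_sum]
    refine Drb_A_sum _ _ fun b _ => ?_
    rw [map_smul]
    exact Drb_A_smul _ (hy σ b) _ (hG σ b)
  have hdiag : ∀ r : ℂ, Drb_A ((2 * r) • (1 : Module.End ℂ (κ → ℂ))) → IsAlgebraic ℚ r := by
    intro r hr
    obtain ⟨i⟩ : Nonempty κ := inferInstance
    have h1 := hr i i
    rw [LinearMap.smul_apply, Module.End.one_apply, Pi.smul_apply, Pi.single_eq_same, smul_eq_mul,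
      mul_one] at h1
    have h2 : r = (((1 / 2 : ℚ) : ℂ)) * (2 * r) := by
      push_cast
      ring
    rw [h2]
    exact (isAlgebraic_algebraMap (1 / 2 : ℚ)).mul h1
  have hpair : ∀ x : TC K m, DR t x → ∀ σ b, IsAlgebraic ℚ (pr h σ (x σ) (G (cj σ) b)) := by
    intro x hx σ b
    apply hdiag
    rw [← Drb_anti S x σ (G (cj σ) b)]
    exact Drb_A_add _ _ (Drb_A_mul _ _ hx (hG _ b)) (Drb_A_mul _ _ (hG _ b) hx)
  have hgg : ∀ σ b b', IsAlgebraic ℚ (pr h σ (G σ b) (G (cj σ) b')) := by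
    intro σ b b'
    apply hdiag
    rw [← tau_pair S.conj S.cliff σ (G σ b) (G (cj σ) b')]
    exact Drb_A_add _ _ (Drb_A_mul _ _ (hG _ b) (hG _ b')) (Drb_A_mul _ _ (hG _ b') (hG _ b))
  have hcore : ∀ x : TC K m, (∀ σ b, IsAlgebraic ℚ (pr h σ (x σ) (G (cj σ) b))) →
      ∃ y : (K →+* ℂ) → Fin m → ℂ, (∀ σ b, IsAlgebraic ℚ (y σ b)) ∧
        ∀ σ, x σ = ∑ b, y σ b • G σ b := by
    intro x hx
    have hxy : ∀ σ, x σ = ∑ b, ((g σ)⁻¹ *ᵥ x σ) b • G σ b := by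
      intro σ
      have h1 : g σ *ᵥ ((g σ)⁻¹ *ᵥ x σ) = x σ := by
        rw [Matrix.mulVec_mulVec, Matrix.mul_nonsing_inv _
          ((Matrix.isUnit_iff_isUnit_det _).mp (hg σ)), Matrix.one_mulVec]
      funext a
      rw [Finset.sum_apply]
      conv_lhs => rw [← h1]
      show ∑ b, g σ a b * ((g σ)⁻¹ *ᵥ x σ) b = ∑ b, ((g σ)⁻¹ *ᵥ x σ) b * g σ a b
      exact Finset.sum_congr rfl fun b _ => mul_comm _ _
    refine ⟨fun σ b => ((g σ)⁻¹ *ᵥ x σ) b, ?_, hxy⟩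
    intro σ
    let N : Matrix (Fin m) (Fin m) ℂ := fun b b' => pr h σ (G σ b) (G (cj σ) b')
    have hN : N = (g σ)ᵀ * (h.map σ * g (cj σ)) := by
      funext b b'
      rfl
    have hNdet : N.det ≠ 0 := by
      rw [hN, Matrix.det_mul, Matrix.det_mul, Matrix.det_transpose]
      have e : (h.map σ).det = σ h.det := (RingHom.map_det σ h).symm
      rw [e]
      have u1 := ((Matrix.isUnit_iff_isUnit_det _).mp (hg σ)).ne_zero
      have u2 := ((Matrix.isUnit_iff_isUnit_det _).mp (hg (cj σ))).ne_zero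
      exact mul_ne_zero u1 (mul_ne_zero ((map_ne_zero σ).mpr S.nd) u2)
    refine Drb_inv N (fun b b' => hgg σ b b') hNdet _ fun b => ?_
    have h2 := hx σ b
    rw [hxy σ, Drb_pr_sum] at h2
    exact h2
  exact ⟨G, fun x => ⟨fun hx => hcore x (hpair x hx), hback x⟩, hgg,
    fun x hx => hback x (hcore x hx)⟩

end Pool.Agent.K3P
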