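import Pool.Agent.K3P.St

/-!
# K3P, DSC: descent from complex to rational combinations
-/

set_option autoImplicit false

namespace Pool.Agent.K3P

open Module Matrix NumberField Pool.Agent.Helper7 Pool.Agent.KS Pool.Agent.Ball Pool.Agent.KSE
open Pool.Agent.GPC (AbVar TC IsRatT qf HX IsGrK3 IsBasicK3 IsGenK3)

section

variable {K : Type} [Field K] [NumberField K] {m : ℕ}

lemma Dsc_qz_add_left (h : Matrix (Fin m) (Fin m) K) (z : K) (x x' y : TC K m) :
    qz h z (x + x') y = qz h z x y + qz h z x' y := by
  simp only [qz, pr, Pi.add_apply, add_dotProduct, mul_add, Finset.sum_add_distrib]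

lemma Dsc_qz_add_right (h : Matrix (Fin m) (Fin m) K) (z : K) (x y y' : TC K m) :
    qz h z x (y + y') = qz h z x y + qz h z x y' := by
  simp only [qz, pr, Pi.add_apply, mulVec_add, dotProduct_add, mul_add, Finset.sum_add_distrib]

lemma Dsc_qz_smul_left (h : Matrix (Fin m) (Fin m) K) (z : K) (a : ℂ) (x y : TC K m) :
    qz h z (a • x) y = a * qz h z x y := by
  simp only [qz, pr, Pi.smul_apply, smul_dotProduct, smul_eq_mul, Finset.mul_sum]
  exact Finset.sum_congr rfl fun σ _ => by ring

lemma Dsc_qz_smul_right (h : Matrix (Fin m) (Fin m) K) (z : K) (a : ℂ) (x y : TC K m) :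
    qz h z x (a • y) = a * qz h z x y := by
  simp only [qz, pr, Pi.smul_apply, mulVec_smul, dotProduct_smul, smul_eq_mul, Finset.mul_sum]
  exact Finset.sum_congr rfl fun σ _ => by ring

/-- the value at a slot -/
lemma Dsc_prod_update {d l : ℕ} (h : Matrix (Fin m) (Fin m) K) (e : Fin l × Fin 2 ≃ Fin d)
    (z : Fin l → K) (v : Fin d → TC K m) (r : Fin d) :
    ∃ (C : ℂ) (f : TC K m → ℂ), (∀ x y, f (x + y) = f x + f y) ∧ (∀ (a : ℂ) x, f (a • x) = a * f x) ∧
      ∀ x, ∏ a, qz h (z a) (Function.update v r x (e (a, 0))) (Function.update v r x (e (a, 1))) =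
        C * f x := by
  classical
  obtain ⟨⟨a₀, i₀⟩, rfl⟩ := e.surjective r
  refine ⟨∏ a ∈ Finset.univ.erase a₀, qz h (z a) (v (e (a, 0))) (v (e (a, 1))),
    fun x => if i₀ = 0 then qz h (z a₀) x (v (e (a₀, 1))) else qz h (z a₀) (v (e (a₀, 0))) x,
    ?_, ?_, ?_⟩
  · intro x y
    dsimp only
    split_ifs
    · exact Dsc_qz_add_left h _ _ _ _
    · exact Dsc_qz_add_right h _ _ _ _
  · intro a x
    dsimp only
    split_ifs
    · exact Dsc_qz_smul_left h _ _ _ _
    · exact Dsc_qz_smul_right h _ _ _ _
  · intro x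
    rw [← Finset.prod_erase_mul _ _ (Finset.mem_univ a₀)]
    congr 1
    · refine Finset.prod_congr rfl fun a ha => ?_
      have ha' : a ≠ a₀ := (Finset.mem_erase.1 ha).1
      rw [Function.update_of_ne, Function.update_of_ne]
      · intro h'
        exact ha' (congrArg Prod.fst (e.injective h'))
      · intro h'
        exact ha' (congrArg Prod.fst (e.injective h'))
    · by_cases hi : i₀ = 0
      · subst hi
        dsimp only
        rw [if_pos rfl, Function.update_self, Function.update_of_ne]
        intro h'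
        have := congrArg Prod.snd (e.injective h')
        simp at this
      · have hi' : i₀ = 1 := by omega
        subst hi'
        dsimp only
        rw [if_neg hi, Function.update_self, Function.update_of_ne]
        intro h'
        have := congrArg Prod.snd (e.injective h')
        simp at this

/-- a product of forms `q(z x, y)` as a multilinear form -/
noncomputable def Dsc_QF {d l : ℕ} (h : Matrix (Fin m) (Fin m) K) (e : Fin l × Fin 2 ≃ Fin d)
    (z : Fin l → K) : MultilinearMap ℂ (fun _ : Fin d => TC K m) ℂ where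
  toFun v := ∏ a, qz h (z a) (v (e (a, 0))) (v (e (a, 1)))
  map_update_add' := by
    intro inst v r x y
    have hi : inst = instDecidableEqFin d := Subsingleton.elim _ _
    subst hi
    obtain ⟨C, f, h1, h2, h3⟩ := Dsc_prod_update h e z v r
    rw [h3, h3, h3, h1, mul_add]
  map_update_smul' := by
    intro inst v r a x
    have hi : inst = instDecidableEqFin d := Subsingleton.elim _ _
    subst hi
    obtain ⟨C, f, h1, h2, h3⟩ := Dsc_prod_update h e z v r
    rw [h3, h3, h2, smul_eq_mul]
    ring

lemma Dsc_QF_apply {d l : ℕ} (h : Matrix (Fin m) (Fin m) K) (e : Fin l × Fin 2 ≃ Fin d)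
    (z : Fin l → K) (v : Fin d → TC K m) :
    Dsc_QF h e z v = ∏ a, qz h (z a) (v (e (a, 0))) (v (e (a, 1))) := rfl

/-- the pairing at a place -/
lemma Dsc_pr (h : Matrix (Fin m) (Fin m) K) (σ : K →+* ℂ) (x y : TC K m) :
    pr h σ (x σ) (y (cj σ)) = ∑ b, σ (dbas K b) * qz h (bas K b) x y := by
  classical
  have h1 : ∑ b, σ (dbas K b) * qz h (bas K b) x y =
      ∑ τ : K →+* ℂ, (if σ = τ then 1 else 0) * pr h τ (x τ) (y (cj τ)) := by
    simp only [qz, Finset.mul_sum]
    rw [Finset.sum_comm]
    refine Finset.sum_congr rfl fun τ _ => ?_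
    rw [← sum_dbas_bas, Finset.sum_mul]
    exact Finset.sum_congr rfl fun b _ => by ring
  rw [h1, Finset.sum_eq_single σ]
  · rw [if_pos rfl, one_mul]
  · intro τ _ hτ
    rw [if_neg (fun h => hτ h.symm), zero_mul]
  · intro h; exact absurd (Finset.mem_univ _) h

/-- products of pairings at places are combinations of products of forms `q(z x, y)` -/
lemma Dsc_PP (h : Matrix (Fin m) (Fin m) K) {d l₀ : ℕ} (hl : l₀ * 2 = d)
    (ω : MultilinearMap ℂ (fun _ : Fin d => TC K m) ℂ) (hω : ω ∈ PP h d) :
    ω ∈ Submodule.span ℂ (Set.range fun i : (Fin l₀ × Fin 2 ≃ Fin d) ×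
      (Fin l₀ → Fin (finrank ℚ K)) => Dsc_QF h i.1 fun a => bas K (i.2 a)) := by
  classical
  obtain ⟨l, e, s, hv⟩ := hω
  have hl' : l = l₀ := by
    have := Fintype.card_congr e
    simp only [Fintype.card_prod, Fintype.card_fin] at this
    omega
  subst hl'
  have h1 : ω = ∑ f : Fin l → Fin (finrank ℚ K), (∏ a, s a (dbas K (f a))) •
      Dsc_QF h e fun a => bas K (f a) := by
    refine MultilinearMap.ext fun v => ?_
    rw [hv, _root_.sum_apply]
    simp only [_root_.smul_apply, Dsc_QF_apply, smul_eq_mul]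
    simp only [Dsc_pr]
    rw [Finset.prod_univ_sum]
    simp only [Fintype.piFinset_univ]
    exact Finset.sum_congr rfl fun f _ => Finset.prod_mul_distrib
  rw [h1]
  refine Submodule.sum_mem _ fun f _ => Submodule.smul_mem _ _ (Submodule.subset_span ⟨(e, f), rfl⟩)

/-- the vectors of `T` span -/
lemma Dsc_span : Submodule.span ℂ (Set.range (emb : (Fin m → K) → TC K m)) = ⊤ := by
  classical
  rw [eq_top_iff]
  intro x _
  have h1 : x = ∑ σ : K →+* ℂ, ∑ a, ∑ b, (x σ a * σ (dbas K b)) •
      (emb (Pi.single a (bas K b)) : TC K m) := by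
    funext τ c
    simp only [Finset.sum_apply, Pi.smul_apply, emb, smul_eq_mul]
    have h2 : ∀ (σ : K →+* ℂ) (a : Fin m), ∑ b, x σ a * σ (dbas K b) *
        τ ((Pi.single a (bas K b) : Fin m → K) c) =
        (if a = c then 1 else 0) * ((if σ = τ then 1 else 0) * x σ a) := by
      intro σ a
      by_cases hac : a = c
      · subst hac
        rw [if_pos rfl, one_mul, ← sum_dbas_bas, Finset.sum_mul]
        refine Finset.sum_congr rfl fun b _ => ?_
        rw [Pi.single_eq_same]
        ring
      · rw [if_neg hac, zero_mul]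
        refine Finset.sum_eq_zero fun b _ => ?_
        rw [Pi.single_eq_of_ne (fun h => hac h.symm), map_zero, mul_zero]
    simp only [h2]
    rw [Finset.sum_eq_single τ, Finset.sum_eq_single c]
    · simp
    · intro a _ ha
      rw [if_neg ha, zero_mul]
    · intro h; exact absurd (Finset.mem_univ _) h
    · intro σ _ hσ
      refine Finset.sum_eq_zero fun a _ => ?_
      rw [if_neg hσ, zero_mul, mul_zero]
    · intro h; exact absurd (Finset.mem_univ _) h
  rw [h1]
  refine Submodule.sum_mem _ fun σ _ => Submodule.sum_mem _ fun a _ => Submodule.sum_mem _ fun b _ =>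
    Submodule.smul_mem _ _ (Submodule.subset_span ⟨_, rfl⟩)

/-- a multilinear form which vanishes on the vectors of `T` is zero -/
lemma Dsc_ext {d : ℕ} (G : MultilinearMap ℂ (fun _ : Fin d => TC K m) ℂ)
    (hG : ∀ y : Fin d → Fin m → K, G (fun r => emb (y r)) = 0) (v : Fin d → TC K m) : G v = 0 := by
  classical
  have key : ∀ (s : Finset (Fin d)) (v : Fin d → TC K m),
      (∀ r, r ∉ s → ∃ y : Fin m → K, v r = emb y) → G v = 0 := by
    intro s
    induction s using Finset.induction_on with
    | empty =>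
      intro v hv
      choose y hy using fun r => hv r (Finset.notMem_empty r)
      rw [funext hy]
      exact hG y
    | insert r s hr ih =>
      intro v hv
      have h1 : ∀ x ∈ Submodule.span ℂ (Set.range (emb : (Fin m → K) → TC K m)),
          G (Function.update v r x) = 0 := by
        intro x hx
        induction hx using Submodule.span_induction with
        | mem x hx =>
          obtain ⟨y, rfl⟩ := hx
          refine ih _ fun r' hr' => ?_
          by_cases h : r' = r
          · subst h
            exact ⟨y, Function.update_self _ _ _⟩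
          · rw [Function.update_of_ne h]
            exact hv r' (by simp [h, hr'])
        | zero => exact G.map_update_zero v r
        | add x y _ _ hx hy => rw [G.map_update_add, hx, hy, add_zero]
        | smul a x _ hx => rw [G.map_update_smul, hx, smul_zero]
      have h2 := h1 (v r) (by rw [Dsc_span]; trivial)
      rwa [Function.update_eq_self] at h2
  exact key Finset.univ v fun r hr => absurd (Finset.mem_univ r) hr

/-- rational values -/
lemma Dsc_rat (c : K →+* K) (h : Matrix (Fin m) (Fin m) K)
    (hc : ∀ (σ : K →+* ℂ) (x : K), cj σ x = σ (c x)) (z : K) (x y : Fin m → K) :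
    qz h z (emb x) (emb y) = ((Algebra.trace ℚ K (z * ∑ a, ∑ b, x a * (h a b * c (y b))) : ℚ) : ℂ) := by
  rw [← sum_emb]
  simp only [qz, pr, emb, dotProduct, mulVec, Matrix.map_apply, map_mul, map_sum]
  refine Finset.sum_congr rfl fun σ _ => ?_
  congr 1
  refine Finset.sum_congr rfl fun a _ => ?_
  rw [Finset.mul_sum]
  refine Finset.sum_congr rfl fun b _ => ?_
  rw [hc]

end

/-- descent from complex to rational combinations -/
theorem thm_Dsc : St_Dsc := by
  classical
  intro K _ _ c m d h hc F hF hrat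
  by_cases hd : ∃ l₀ : ℕ, l₀ * 2 = d
  · obtain ⟨l₀, hl⟩ := hd
    have hF' : F ∈ Submodule.span ℂ (Set.range fun i : (Fin l₀ × Fin 2 ≃ Fin d) ×
        (Fin l₀ → Fin (finrank ℚ K)) => Dsc_QF h i.1 fun a => bas K (i.2 a)) :=
      (Submodule.span_le.2 fun ω hω => Dsc_PP h hl ω hω) hF
    rw [Submodule.mem_span_range_iff_exists_fun] at hF'
    obtain ⟨cf, hcf⟩ := hF'
    obtain ⟨φ, hφ⟩ := LinearMap.exists_leftInverse_of_injective (Algebra.linearMap ℚ ℂ)
      (LinearMap.ker_eq_bot.2 (algebraMap ℚ ℂ).injective)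
    have hφ' : ∀ q : ℚ, φ (q : ℂ) = q := by
      intro q
      have := congrArg (fun f => f q) hφ
      simpa using this
    have hφ2 : ∀ (a : ℂ) (q : ℚ), φ (a * q) = φ a * q := by
      intro a q
      have : a * (q : ℂ) = q • a := by
        rw [Algebra.smul_def, mul_comm]
        rfl
      rw [this, map_smul, smul_eq_mul, mul_comm]
    let G : MultilinearMap ℂ (fun _ : Fin d => TC K m) ℂ :=
      ∑ i : (Fin l₀ × Fin 2 ≃ Fin d) × (Fin l₀ → Fin (finrank ℚ K)),
        ((φ (cf i) : ℚ) : ℂ) • Dsc_QF h i.1 fun a => bas K (i.2 a)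
    have hFG : ∀ v, (F - G) v = 0 := by
      refine Dsc_ext _ fun y => ?_
      have hq : ∀ i : (Fin l₀ × Fin 2 ≃ Fin d) × (Fin l₀ → Fin (finrank ℚ K)),
          ∃ q : ℚ, (Dsc_QF h i.1 fun a => bas K (i.2 a)) (fun r => emb (y r)) = q := by
        intro i
        refine ⟨∏ a, Algebra.trace ℚ K (bas K (i.2 a) * ∑ b, ∑ b', y (i.1 (a, 0)) b *
          (h b b' * c (y (i.1 (a, 1)) b'))), ?_⟩
        rw [Dsc_QF_apply]
        push_cast
        exact Finset.prod_congr rfl fun a _ => Dsc_rat c h hc _ _ _
      choose q hq using hq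
      obtain ⟨p, hp⟩ := hrat y
      have h1 : F (fun r => emb (y r)) = ∑ i, cf i * (q i : ℂ) := by
        rw [← hcf, _root_.sum_apply]
        exact Finset.sum_congr rfl fun i _ => by
          rw [_root_.smul_apply, hq, smul_eq_mul]
      have h2 : G (fun r => emb (y r)) = ((∑ i, φ (cf i) * q i : ℚ) : ℂ) := by
        simp only [G]
        rw [_root_.sum_apply]
        push_cast
        exact Finset.sum_congr rfl fun i _ => by
          rw [Pi.smul_apply, hq, smul_eq_mul]
      have h3 : p = ∑ i, φ (cf i) * q i := by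
        rw [← hφ' p, ← hp, h1, map_sum]
        exact Finset.sum_congr rfl fun i _ => hφ2 _ _
      rw [_root_.sub_apply, h2, hp, h3, sub_self]
    let eq := Fintype.equivFin ((Fin l₀ × Fin 2 ≃ Fin d) × (Fin l₀ → Fin (finrank ℚ K)))
    refine ⟨_, l₀, fun j => φ (cf (eq.symm j)), fun j => (eq.symm j).1,
      fun j a => bas K ((eq.symm j).2 a), fun v => ?_⟩
    have h4 : F v = G v := sub_eq_zero.1 (hFG v)
    rw [h4]
    simp only [G]
    rw [_root_.sum_apply]
    refine (Equiv.sum_comp eq.symm _).symm.trans ?_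
    exact Finset.sum_congr rfl fun j _ => rfl
  · have h0 : PP h d = ∅ := by
      rw [Set.eq_empty_iff_forall_notMem]
      rintro ω ⟨l, e, s, -⟩
      refine hd ⟨l, ?_⟩
      have := Fintype.card_congr e
      simpa only [Fintype.card_prod, Fintype.card_fin] using this
    rw [h0, Submodule.span_empty, Submodule.mem_bot] at hF
    refine ⟨0, 0, Fin.elim0, fun j => j.elim0, fun j => j.elim0, fun v => ?_⟩
    rw [hF]
    simp

end Pool.Agent.K3P
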