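import Pool.Agent.K3P.StD
import Pool.Agent.K3P.Dsc

/-!
# K3P, DSD: descent from complex to rational combinations, with determinants
-/

set_option autoImplicit false

namespace Pool.Agent.K3P

open Module Matrix NumberField Pool.Agent.Helper7 Pool.Agent.KS Pool.Agent.Ball Pool.Agent.KSE
open Pool.Agent.GPC (AbVar TC IsRatT qf df HX IsGrK3 IsBasicPow IsGenPow)

section

variable {K : Type} [Field K] [NumberField K] {m : ℕ}

omit [NumberField K] in
lemma Dsd_mat (w : Fin m → TC K m) (j : Fin m) (x : TC K m) (σ : K →+* ℂ) :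
    (Matrix.of fun j' k => Function.update w j x j' σ k) =
      Matrix.updateRow (Matrix.of fun j' k => w j' σ k) j (x σ) := by
  classical
  ext j' k
  by_cases hj : j' = j
  · subst hj
    simp
  · simp [hj]

lemma Dsd_df_add (z : K) (w : Fin m → TC K m) (j : Fin m) (x y : TC K m) :
    df z (Function.update w j (x + y)) =
      df z (Function.update w j x) + df z (Function.update w j y) := by
  classical
  unfold df
  rw [← Finset.sum_add_distrib]
  refine Finset.sum_congr rfl fun σ _ => ?_
  rw [Dsd_mat, Dsd_mat, Dsd_mat, Pi.add_apply, Matrix.det_updateRow_add, mul_add]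

lemma Dsd_df_smul (z : K) (w : Fin m → TC K m) (j : Fin m) (a : ℂ) (x : TC K m) :
    df z (Function.update w j (a • x)) = a * df z (Function.update w j x) := by
  classical
  unfold df
  rw [Finset.mul_sum]
  refine Finset.sum_congr rfl fun σ _ => ?_
  rw [Dsd_mat, Dsd_mat, Pi.smul_apply, Matrix.det_updateRow_smul]
  ring

/-- the products -/
noncomputable def Dsd_P {d l l₁ : ℕ} (h : Matrix (Fin m) (Fin m) K)
    (e : (Fin l × Fin 2) ⊕ (Fin l₁ × Fin m) ≃ Fin d) (z : Fin l → K) (z₁ : Fin l₁ → K)
    (v : Fin d → TC K m) : ℂ :=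
  (∏ a, qz h (z a) (v (e (.inl (a, 0)))) (v (e (.inl (a, 1))))) *
    ∏ b, df (z₁ b) fun k => v (e (.inr (b, k)))

/-- the value at a slot -/
lemma Dsd_update {d l l₁ : ℕ} (h : Matrix (Fin m) (Fin m) K)
    (e : (Fin l × Fin 2) ⊕ (Fin l₁ × Fin m) ≃ Fin d) (z : Fin l → K) (z₁ : Fin l₁ → K)
    (v : Fin d → TC K m) (r : Fin d) :
    ∃ (C : ℂ) (f : TC K m → ℂ), (∀ x y, f (x + y) = f x + f y) ∧ (∀ (a : ℂ) x, f (a • x) = a * f x) ∧
      ∀ x, Dsd_P h e z z₁ (Function.update v r x) = C * f x := by
  classical
  obtain ⟨⟨a₀, i₀⟩ | ⟨b₀, j₀⟩, rfl⟩ := e.surjective r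
  · refine ⟨(∏ a ∈ Finset.univ.erase a₀, qz h (z a) (v (e (.inl (a, 0)))) (v (e (.inl (a, 1))))) *
        ∏ b, df (z₁ b) fun k => v (e (.inr (b, k))),
      fun x => if i₀ = 0 then qz h (z a₀) x (v (e (.inl (a₀, 1)))) else
        qz h (z a₀) (v (e (.inl (a₀, 0)))) x, ?_, ?_, ?_⟩
    · intro x y
      dsimp only
      split_ifs
      · exact Dsc_qz_add_left h _ _ _ _
      · exact Dsc_qz_add_right h _ _ _ _
    · intro a x
      dsimp only
      split_ifs
      · exact Dsc_qz_smul_left h _ _ _ _
      · exact Dsc_qz_smul_right h _ _ _ _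
    · intro x
      have h1 : (∏ b, df (z₁ b) fun k => Function.update v (e (.inl (a₀, i₀))) x (e (.inr (b, k)))) =
          ∏ b, df (z₁ b) fun k => v (e (.inr (b, k))) := by
        refine Finset.prod_congr rfl fun b _ => ?_
        congr 1
        funext k
        rw [Function.update_of_ne]
        intro h'
        exact absurd (e.injective h') (by simp)
      have h2 : (∏ a, qz h (z a) (Function.update v (e (.inl (a₀, i₀))) x (e (.inl (a, 0))))
            (Function.update v (e (.inl (a₀, i₀))) x (e (.inl (a, 1))))) =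
          (∏ a ∈ Finset.univ.erase a₀, qz h (z a) (v (e (.inl (a, 0)))) (v (e (.inl (a, 1))))) *
          (if i₀ = 0 then qz h (z a₀) x (v (e (.inl (a₀, 1)))) else
            qz h (z a₀) (v (e (.inl (a₀, 0)))) x) := by
        rw [← Finset.prod_erase_mul _ _ (Finset.mem_univ a₀)]
        congr 1
        · refine Finset.prod_congr rfl fun a ha => ?_
          have ha' : a ≠ a₀ := (Finset.mem_erase.1 ha).1
          rw [Function.update_of_ne, Function.update_of_ne]
          · intro h'
            have := e.injective h'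
            simp only [Sum.inl.injEq, Prod.mk.injEq] at this
            exact ha' this.1
          · intro h'
            have := e.injective h'
            simp only [Sum.inl.injEq, Prod.mk.injEq] at this
            exact ha' this.1
        · by_cases hi : i₀ = 0
          · subst hi
            rw [if_pos rfl, Function.update_self, Function.update_of_ne]
            intro h'
            have := e.injective h'
            simp at this
          · have hi' : i₀ = 1 := by omega
            subst hi'
            rw [if_neg hi, Function.update_self, Function.update_of_ne]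
            intro h'
            have := e.injective h'
            simp at this
      unfold Dsd_P
      rw [h1, h2]
      ring
  · refine ⟨(∏ a, qz h (z a) (v (e (.inl (a, 0)))) (v (e (.inl (a, 1))))) *
        ∏ b ∈ Finset.univ.erase b₀, df (z₁ b) fun k => v (e (.inr (b, k))),
      fun x => df (z₁ b₀) (Function.update (fun k => v (e (.inr (b₀, k)))) j₀ x), ?_, ?_, ?_⟩
    · intro x y
      exact Dsd_df_add _ _ _ _ _
    · intro a x
      exact Dsd_df_smul _ _ _ _ _
    · intro x
      have h1 : (∏ a, qz h (z a) (Function.update v (e (.inr (b₀, j₀))) x (e (.inl (a, 0))))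
            (Function.update v (e (.inr (b₀, j₀))) x (e (.inl (a, 1))))) =
          ∏ a, qz h (z a) (v (e (.inl (a, 0)))) (v (e (.inl (a, 1)))) := by
        refine Finset.prod_congr rfl fun a _ => ?_
        rw [Function.update_of_ne, Function.update_of_ne]
        · intro h'
          exact absurd (e.injective h') (by simp)
        · intro h'
          exact absurd (e.injective h') (by simp)
      have h2 : (∏ b, df (z₁ b) fun k => Function.update v (e (.inr (b₀, j₀))) x (e (.inr (b, k)))) =
          (∏ b ∈ Finset.univ.erase b₀, df (z₁ b) fun k => v (e (.inr (b, k)))) *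
          df (z₁ b₀) (Function.update (fun k => v (e (.inr (b₀, k)))) j₀ x) := by
        rw [← Finset.prod_erase_mul _ _ (Finset.mem_univ b₀)]
        congr 1
        · refine Finset.prod_congr rfl fun b hb => ?_
          have hb' : b ≠ b₀ := (Finset.mem_erase.1 hb).1
          congr 1
          funext k
          rw [Function.update_of_ne]
          intro h'
          have := e.injective h'
          simp only [Sum.inr.injEq, Prod.mk.injEq] at this
          exact hb' this.1
        · congr 1
          funext k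
          by_cases hk : k = j₀
          · subst hk
            rw [Function.update_self, Function.update_self]
          · rw [Function.update_of_ne, Function.update_of_ne hk]
            intro h'
            have := e.injective h'
            simp only [Sum.inr.injEq, Prod.mk.injEq] at this
            exact hk this.2
      unfold Dsd_P
      rw [h1, h2]
      ring

/-- the products as multilinear forms -/
noncomputable def Dsd_M {d l l₁ : ℕ} (h : Matrix (Fin m) (Fin m) K)
    (e : (Fin l × Fin 2) ⊕ (Fin l₁ × Fin m) ≃ Fin d) (z : Fin l → K) (z₁ : Fin l₁ → K) :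
    MultilinearMap ℂ (fun _ : Fin d => TC K m) ℂ where
  toFun v := Dsd_P h e z z₁ v
  map_update_add' := by
    intro inst v r x y
    have hi : inst = instDecidableEqFin d := Subsingleton.elim _ _
    subst hi
    obtain ⟨C, f, h1, h2, h3⟩ := Dsd_update h e z z₁ v r
    rw [h3, h3, h3, h1, mul_add]
  map_update_smul' := by
    intro inst v r a x
    have hi : inst = instDecidableEqFin d := Subsingleton.elim _ _
    subst hi
    obtain ⟨C, f, h1, h2, h3⟩ := Dsd_update h e z z₁ v r
    rw [h3, h3, h2, smul_eq_mul]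
    ring

lemma Dsd_M_apply {d l l₁ : ℕ} (h : Matrix (Fin m) (Fin m) K)
    (e : (Fin l × Fin 2) ⊕ (Fin l₁ × Fin m) ≃ Fin d) (z : Fin l → K) (z₁ : Fin l₁ → K)
    (v : Fin d → TC K m) : Dsd_M h e z z₁ v =
    (∏ a, qz h (z a) (v (e (.inl (a, 0)))) (v (e (.inl (a, 1))))) *
      ∏ b, df (z₁ b) fun k => v (e (.inr (b, k))) := rfl

/-- the determinant at a place -/
lemma Dsd_det (σ : K →+* ℂ) (x : Fin m → TC K m) :
    (Matrix.of fun j k => x j σ k).det = ∑ b, σ (dbas K b) * df (bas K b) x := by
  classical
  have h1 : ∑ b, σ (dbas K b) * df (bas K b) x =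
      ∑ τ : K →+* ℂ, (if σ = τ then 1 else 0) * (Matrix.of fun j k => x j τ k).det := by
    simp only [df, Finset.mul_sum]
    rw [Finset.sum_comm]
    refine Finset.sum_congr rfl fun τ _ => ?_
    rw [← sum_dbas_bas, Finset.sum_mul]
    exact Finset.sum_congr rfl fun b _ => by ring
  rw [h1, Finset.sum_eq_single σ]
  · rw [if_pos rfl, one_mul]
  · intro τ _ hτ
    rw [if_neg (fun h => hτ h.symm), zero_mul]
  · intro h; exact absurd (Finset.mem_univ _) h

/-- the set of the products -/
def Dsd_S (c : K →+* K) (h : Matrix (Fin m) (Fin m) K) (d : ℕ) :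
    Set (MultilinearMap ℂ (fun _ : Fin d => TC K m) ℂ) :=
  {ω | ∃ (l l₁ : ℕ) (e : (Fin l × Fin 2) ⊕ (Fin l₁ × Fin m) ≃ Fin d) (z : Fin l → K)
    (z₁ : Fin l₁ → K), (c ≠ RingHom.id K → l₁ = 0) ∧ ω = Dsd_M h e z z₁}

lemma Dsd_PPD (c : K →+* K) (h : Matrix (Fin m) (Fin m) K) {d : ℕ}
    (ω : MultilinearMap ℂ (fun _ : Fin d => TC K m) ℂ) (hω : ω ∈ PPD c h d) :
    ω ∈ Submodule.span ℂ (Dsd_S c h d) := by
  classical
  obtain ⟨l, l₁, e, s, s₁, hcl, hv⟩ := hω
  have h1 : ω = ∑ f : Fin l → Fin (finrank ℚ K), ∑ g : Fin l₁ → Fin (finrank ℚ K),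
      ((∏ a, s a (dbas K (f a))) * ∏ b, s₁ b (dbas K (g b))) •
      Dsd_M h e (fun a => bas K (f a)) fun b => bas K (g b) := by
    refine MultilinearMap.ext fun v => ?_
    rw [hv]
    simp only [_root_.sum_apply, _root_.smul_apply, Dsd_M_apply, smul_eq_mul]
    have hA : (∏ a, pr h (s a) (v (e (.inl (a, 0))) (s a)) (v (e (.inl (a, 1))) (cj (s a)))) =
        ∑ f : Fin l → Fin (finrank ℚ K), (∏ a, s a (dbas K (f a))) *
          ∏ a, qz h (bas K (f a)) (v (e (.inl (a, 0)))) (v (e (.inl (a, 1)))) := by
      simp only [Dsc_pr]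
      rw [Finset.prod_univ_sum]
      simp only [Fintype.piFinset_univ]
      exact Finset.sum_congr rfl fun f _ => Finset.prod_mul_distrib
    have hB : (∏ b, (Matrix.of fun j k => v (e (.inr (b, j))) (s₁ b) k).det) =
        ∑ g : Fin l₁ → Fin (finrank ℚ K), (∏ b, s₁ b (dbas K (g b))) *
          ∏ b, df (bas K (g b)) fun k => v (e (.inr (b, k))) := by
      have h2 : ∀ b, (Matrix.of fun j k => v (e (.inr (b, j))) (s₁ b) k).det =
          ∑ i, s₁ b (dbas K i) * df (bas K i) fun k => v (e (.inr (b, k))) := fun b =>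
        Dsd_det (s₁ b) fun k => v (e (.inr (b, k)))
      simp only [h2]
      rw [Finset.prod_univ_sum]
      simp only [Fintype.piFinset_univ]
      exact Finset.sum_congr rfl fun f _ => Finset.prod_mul_distrib
    rw [hA, hB, Finset.sum_mul_sum]
    refine Finset.sum_congr rfl fun f _ => Finset.sum_congr rfl fun g _ => ?_
    ring
  rw [h1]
  exact Submodule.sum_mem _ fun f _ => Submodule.sum_mem _ fun g _ => Submodule.smul_mem _ _
    (Submodule.subset_span ⟨l, l₁, e, _, _, hcl, rfl⟩)

/-- rational values -/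
lemma Dsd_rat (z : K) (x : Fin m → Fin m → K) :
    df z (fun j => emb (x j)) = ((Algebra.trace ℚ K (z * (Matrix.of x).det) : ℚ) : ℂ) := by
  classical
  rw [← sum_emb]
  unfold df
  refine Finset.sum_congr rfl fun σ _ => ?_
  rw [map_mul, RingHom.map_det]
  rfl

end

/-- descent from complex to rational combinations, with determinants -/
theorem thm_Dsd : St_Dsd := by
  classical
  intro K _ _ c m d h hc F hF hrat
  have hF' : F ∈ Submodule.span ℂ (Dsd_S c h d) :=
    (Submodule.span_le.2 fun ω hω => Dsd_PPD c h ω hω) hF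
  rw [Submodule.mem_span_set'] at hF'
  obtain ⟨N, cf, ω, hω⟩ := hF'
  obtain ⟨φ, hφ⟩ := LinearMap.exists_leftInverse_of_injective (Algebra.linearMap ℚ ℂ)
    (LinearMap.ker_eq_bot.2 (algebraMap ℚ ℂ).injective)
  have hφ' : ∀ q : ℚ, φ (q : ℂ) = q := by
    intro q
    have := congrArg (fun f => f q) hφ
    simpa using this
  have hφ2 : ∀ (a : ℂ) (q : ℚ), φ (a * q) = φ a * q := by
    intro a q
    have : a * (q : ℂ) = q • a := by
      rw [Algebra.smul_def, mul_comm]
      rfl
    rw [this, map_smul, smul_eq_mul, mul_comm]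
  let G : MultilinearMap ℂ (fun _ : Fin d => TC K m) ℂ :=
    ∑ i, ((φ (cf i) : ℚ) : ℂ) • (ω i : MultilinearMap ℂ (fun _ : Fin d => TC K m) ℂ)
  have hFG : ∀ v, (F - G) v = 0 := by
    refine Dsc_ext _ fun y => ?_
    have hq : ∀ i, ∃ q : ℚ, (ω i : MultilinearMap ℂ (fun _ : Fin d => TC K m) ℂ)
        (fun r => emb (y r)) = q := by
      intro i
      obtain ⟨l, l₁, e, z, z₁, -, hi⟩ := (ω i).2
      refine ⟨(∏ a, Algebra.trace ℚ K (z a * ∑ b, ∑ b', y (e (.inl (a, 0))) b *
        (h b b' * c (y (e (.inl (a, 1))) b')))) *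
        ∏ b, Algebra.trace ℚ K (z₁ b * (Matrix.of fun j => y (e (.inr (b, j)))).det), ?_⟩
      rw [hi, Dsd_M_apply]
      push_cast
      congr 1
      · exact Finset.prod_congr rfl fun a _ => Dsc_rat c h hc _ _ _
      · exact Finset.prod_congr rfl fun b _ => Dsd_rat _ _
    choose q hq using hq
    obtain ⟨p, hp⟩ := hrat y
    have h1 : F (fun r => emb (y r)) = ∑ i, cf i * (q i : ℂ) := by
      rw [← hω, _root_.sum_apply]
      exact Finset.sum_congr rfl fun i _ => by
        rw [_root_.smul_apply, hq, smul_eq_mul]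
    have h2 : G (fun r => emb (y r)) = ((∑ i, φ (cf i) * q i : ℚ) : ℂ) := by
      simp only [G]
      rw [_root_.sum_apply]
      push_cast
      exact Finset.sum_congr rfl fun i _ => by
        rw [Pi.smul_apply, hq, smul_eq_mul]
    have h3 : p = ∑ i, φ (cf i) * q i := by
      rw [← hφ' p, ← hp, h1, map_sum]
      exact Finset.sum_congr rfl fun i _ => hφ2 _ _
    rw [_root_.sub_apply, h2, hp, h3, sub_self]
  refine ⟨N, fun j => φ (cf j), fun j => ⇑(ω j : MultilinearMap ℂ (fun _ : Fin d => TC K m) ℂ),
    fun j => ?_, fun v => ?_⟩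
  · obtain ⟨l, l₁, e, z, z₁, h1, hi⟩ := (ω j).2
    refine ⟨l, l₁, e, z, z₁, h1, fun v => ?_⟩
    dsimp only
    rw [hi, Dsd_M_apply]
  · have h4 : F v = G v := sub_eq_zero.1 (hFG v)
    rw [h4]
    simp only [G]
    rw [_root_.sum_apply]
    exact Finset.sum_congr rfl fun j _ => rfl

end Pool.Agent.K3P
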