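import Pool.Agent.K3P.StD

/-!
# K3P, FFD: the first fundamental theorem for the special orthogonal groups
-/

set_option autoImplicit false

namespace Pool.Agent.K3P

open Module

lemma Ffd_lin {V : Type} [AddCommGroup V] [Module ℂ V] [FiniteDimensional ℂ V]
    (T : Module.End ℂ V) (S : Submodule ℂ V) (hS : ∀ x ∈ S, T x ∈ S) (hker : ∀ x, T x = 0 → x ∈ S)
    (h2 : ∀ x, T (T x) = 0 → T x = 0) (c : V) (hc : T c ∈ S) : c ∈ S := by
  obtain ⟨R, hR⟩ : ∃ R : Submodule ℂ V, R = S.map T := ⟨_, rfl⟩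
  have hRS : R ≤ S := by
    rw [hR]
    rintro _ ⟨y, hy, rfl⟩
    exact hS y hy
  have hRR : ∀ x ∈ R, T x ∈ R := by
    intro x hx
    rw [hR]
    exact ⟨x, hRS hx, rfl⟩
  have hinj : Function.Injective (T.restrict hRR) := by
    rw [injective_iff_map_eq_zero]
    rintro ⟨x, hx⟩ h3
    have h4 : T x = 0 := congrArg Subtype.val h3
    rw [hR] at hx
    obtain ⟨y, hy, rfl⟩ := hx
    exact Subtype.ext (h2 y h4)
  have hsurj := LinearMap.injective_iff_surjective.mp hinj
  have hTc : T (T c) ∈ R := by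
    rw [hR]
    exact ⟨T c, hc, rfl⟩
  obtain ⟨⟨u, hu⟩, h5⟩ := hsurj ⟨T (T c), hTc⟩
  have h6 : T u = T (T c) := congrArg Subtype.val h5
  rw [hR] at hu
  obtain ⟨y, hy, rfl⟩ := hu
  have h7 : T (T (c - y)) = 0 := by
    rw [map_sub, map_sub, h6, sub_self]
  have h8 := hker _ (h2 _ h7)
  have h9 := S.add_mem h8 hy
  rwa [sub_add_cancel] at h9

section

variable {Pl : Type} [DecidableEq Pl] {m d : ℕ}

lemma Ffd_add (x y : (Fin d → Pl × Fin m) → ℂ) : TT (x + y) = TT x + TT y := by
  funext i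
  show SP (x + y) i + ((d : ℂ) * ((m : ℂ) - 1)) * (x i + y i) =
    (SP x i + ((d : ℂ) * ((m : ℂ) - 1)) * x i) + (SP y i + ((d : ℂ) * ((m : ℂ) - 1)) * y i)
  have h1 : SP (x + y) i = SP x i + SP y i := by
    rw [SP, SP, SP, ← Finset.sum_add_distrib]
    refine Finset.sum_congr rfl fun r _ => ?_
    rw [← Finset.sum_add_distrib]
    refine Finset.sum_congr rfl fun r' _ => ?_
    split_ifs
    · rfl
    · rw [add_zero]
  rw [h1]
  ring

lemma Ffd_smul (z : ℂ) (x : (Fin d → Pl × Fin m) → ℂ) : TT (z • x) = z • TT x := by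
  funext i
  show SP (z • x) i + ((d : ℂ) * ((m : ℂ) - 1)) * (z * x i) =
    z * (SP x i + ((d : ℂ) * ((m : ℂ) - 1)) * x i)
  have h1 : SP (z • x) i = z * SP x i := by
    rw [SP, SP, Finset.mul_sum]
    refine Finset.sum_congr rfl fun r _ => ?_
    rw [Finset.mul_sum]
    refine Finset.sum_congr rfl fun r' _ => ?_
    split_ifs
    · rfl
    · rw [mul_zero]
  rw [h1]
  ring

/-- `TT` as a linear map -/
def Ffd_T (Pl : Type) [DecidableEq Pl] (m d : ℕ) :
    Module.End ℂ ((Fin d → Pl × Fin m) → ℂ) where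
  toFun := TT
  map_add' := Ffd_add
  map_smul' := Ffd_smul

lemma Ffd_rot {c : (Fin d → Pl × Fin m) → ℂ} (hc : Rot c) (s : Pl) (a b : Fin m) :
    DE s b a c = DE s a b c := by
  by_cases hab : a = b
  · rw [hab]
  funext i
  have h1 := hc i s a b hab
  have h2 : DE s a b c i - DE s b a c i = 0 := by
    rw [← h1, DE, DE, ← Finset.sum_sub_distrib]
    refine Finset.sum_congr rfl fun r _ => ?_
    by_cases h3 : i r = (s, a)
    · have h4 : i r ≠ (s, b) := by
        intro h5
        rw [h3] at h5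
        exact hab (Prod.ext_iff.mp h5).2
      rw [if_pos h3, if_neg h4, if_pos h3, sub_zero]
    · rw [if_neg h3, if_neg h3, zero_sub]
      split_ifs
      · rfl
      · rw [neg_zero]
  exact (sub_eq_zero.mp h2).symm

end

theorem thm_Ffd (h1 : St_Cas) (h2 : St_Psd) (h3 : St_Glk) (h4 : St_Ker) (h5 : St_Cof)
    (h6 : St_Stb) : St_Ffd := by
  intro Pl _ _ m d
  induction d using Nat.strong_induction_on with
  | _ d ih =>
  intro c hc
  have hTT : TT c = KP c := by
    funext i
    obtain ⟨e1, e2⟩ := h1 Pl m d c i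
    have e3 : ∑ s, ∑ a, ∑ b, DE s a b (DE s b a c) i =
        ∑ s, ∑ a, ∑ b, DE s a b (DE s a b c) i := by
      refine Finset.sum_congr rfl fun s _ => Finset.sum_congr rfl fun a _ =>
        Finset.sum_congr rfl fun b _ => ?_
      rw [Ffd_rot hc s a b]
    rw [e1, e2] at e3
    show SP c i + ((d : ℂ) * ((m : ℂ) - 1)) * c i = KP c i
    linear_combination e3
  have hKP : KP c ∈ SD Pl m d := by
    rcases d with _ | _ | d
    · have h0 : KP c = 0 := by
        funext i
        exact Finset.sum_eq_zero fun r _ => r.elim0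
      rw [h0]
      exact Submodule.zero_mem _
    · have h0 : KP c = 0 := by
        funext i
        refine Finset.sum_eq_zero fun r _ => Finset.sum_eq_zero fun r' hr' => ?_
        exact absurd (Fin.ext (by omega)) (Finset.ne_of_mem_erase hr')
      rw [h0]
      exact Submodule.zero_mem _
    · exact h5 Pl m d (fun c' hc' => ih d (by omega) c' hc') c hc
  refine Ffd_lin (Ffd_T Pl m d) (SD Pl m d) (fun x hx => h6 Pl m d x hx)
    (fun x hx => h4 Pl m d x hx (h3 Pl m d x hx)) (fun x hx => (h2 Pl m d x).2 hx) c ?_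
  show TT c ∈ SD Pl m d
  rw [hTT]
  exact hKP

end Pool.Agent.K3P
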