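import Pool.Agent.K3P.StD

/-!
# K3P: the kernel of `TT` is killed by the elementary matrices
-/

set_option autoImplicit false

namespace Pool.Agent.K3P

variable {Pl : Type} [DecidableEq Pl] {m d : ℕ}

/-- the number of slots with the value `y` -/
def Glk_N (y : Pl × Fin m) (i : Fin d → Pl × Fin m) : ℂ := ∑ r, if i r = y then 1 else 0

lemma Glk_N_update (y z : Pl × Fin m) (i : Fin d → Pl × Fin m) (r : Fin d) :
    Glk_N y (Function.update i r z) =
      Glk_N y i - (if i r = y then 1 else 0) + (if z = y then 1 else 0) := by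
  rw [Glk_N, Glk_N, ← Finset.add_sum_erase Finset.univ _ (Finset.mem_univ r),
    ← Finset.add_sum_erase Finset.univ (fun r' => if i r' = y then (1 : ℂ) else 0)
      (Finset.mem_univ r), Function.update_self]
  have h1 : ∑ x ∈ Finset.univ.erase r, (if Function.update i r z x = y then (1 : ℂ) else 0) =
      ∑ x ∈ Finset.univ.erase r, if i x = y then 1 else 0 := by
    refine Finset.sum_congr rfl fun x hx => ?_
    rw [Function.update_of_ne (Finset.ne_of_mem_erase hx)]
  rw [h1]
  ring

lemma Glk_N_swap (y : Pl × Fin m) (i : Fin d → Pl × Fin m) (r r' : Fin d) :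
    Glk_N y (i ∘ Equiv.swap r r') = Glk_N y i :=
  Equiv.sum_comp (Equiv.swap r r') fun x => if i x = y then (1 : ℂ) else 0

lemma Glk_TT (y : Pl × Fin m) (c : (Fin d → Pl × Fin m) → ℂ) (i : Fin d → Pl × Fin m) :
    TT (fun j => Glk_N y j * c j) i = Glk_N y i * TT c i := by
  have h1 : SP (fun j => Glk_N y j * c j) i = Glk_N y i * SP c i := by
    rw [SP, SP, Finset.mul_sum]
    refine Finset.sum_congr rfl fun r _ => ?_
    rw [Finset.mul_sum]
    refine Finset.sum_congr rfl fun r' _ => ?_
    rw [Glk_N_swap, mul_ite, mul_zero]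
  rw [TT, TT, h1]
  ring

lemma Glk_rot (c : (Fin d → Pl × Fin m) → ℂ) (hc : Rot c) (s : Pl) (a b : Fin m) (hab : a ≠ b)
    (i : Fin d → Pl × Fin m) : DE s a b c i = DE s b a c i := by
  have h1 := hc i s a b hab
  have h2 : DE s a b c i - DE s b a c i =
      ∑ r, (if i r = (s, a) then c (Function.update i r (s, b)) else
        if i r = (s, b) then -c (Function.update i r (s, a)) else 0) := by
    rw [DE, DE, ← Finset.sum_sub_distrib]
    refine Finset.sum_congr rfl fun r _ => ?_
    by_cases h3 : i r = (s, a)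
    · rw [if_pos h3, if_pos h3, if_neg, sub_zero]
      intro h4
      rw [h3] at h4
      exact hab (Prod.ext_iff.1 h4).2
    · rw [if_neg h3, if_neg h3, zero_sub]
      by_cases h4 : i r = (s, b)
      · rw [if_pos h4, if_pos h4]
      · rw [if_neg h4, if_neg h4, neg_zero]
  exact sub_eq_zero.1 (h2.trans h1)

theorem thm_Glk (h : St_Psd) : St_Glk := by
  intro Pl _ _ m d c hc s a b hab
  funext i
  rw [Pi.zero_apply]
  have hx : TT (fun j => Glk_N (s, a) j * c j) = 0 := by
    funext j
    rw [Glk_TT, hc, Pi.zero_apply, mul_zero]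
  have hrc := Glk_rot c ((h Pl m d c).1 hc) s a b hab i
  have hrx := Glk_rot _ ((h Pl m d _).1 hx) s a b hab i
  have h1 : DE s a b (fun j => Glk_N (s, a) j * c j) i = (Glk_N (s, a) i - 1) * DE s a b c i := by
    rw [DE, DE, Finset.mul_sum]
    refine Finset.sum_congr rfl fun r _ => ?_
    by_cases h3 : i r = (s, a)
    · rw [if_pos h3, if_pos h3, Glk_N_update, if_pos h3, if_neg, add_zero]
      intro h4
      exact hab (Prod.ext_iff.1 h4).2.symm
    · rw [if_neg h3, if_neg h3, mul_zero]
  have h2 : DE s b a (fun j => Glk_N (s, a) j * c j) i = (Glk_N (s, a) i + 1) * DE s b a c i := by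
    rw [DE, DE, Finset.mul_sum]
    refine Finset.sum_congr rfl fun r _ => ?_
    by_cases h3 : i r = (s, b)
    · rw [if_pos h3, if_pos h3, Glk_N_update, if_pos rfl, if_neg, sub_zero]
      intro h4
      rw [h3] at h4
      exact hab (Prod.ext_iff.1 h4).2.symm
    · rw [if_neg h3, if_neg h3, mul_zero]
  rw [h1, h2, ← hrc] at hrx
  have h3 : (2 : ℂ) * DE s a b c i = 0 := by linear_combination -hrx
  exact (mul_eq_zero.1 h3).resolve_left two_ne_zero

end Pool.Agent.K3P
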