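import Pool.Agent.K3P.St
import Pool.Agent.KSE.BvA

/-!
Module Inv: Grothendieck forms on `T` are invariant under the skew families of matrices.
-/

set_option autoImplicit false

namespace Pool.Agent.K3P

open Module Matrix NumberField Pool.Agent.Helper7 Pool.Agent.KS Pool.Agent.Ball Pool.Agent.KSE
open Pool.Agent.GPC (TC)

section ops

variable {K : Type} [Field K] [NumberField K] {m : ℕ} {h : Matrix (Fin m) (Fin m) K}

/-- the action of a family of matrices on `T ⊗ ℂ` -/
noncomputable def Inv_op (M : (K →+* ℂ) → Matrix (Fin m) (Fin m) ℂ) : Module.End ℂ (TC K m) where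
  toFun x := fun σ => M σ *ᵥ x σ
  map_add' x y := by
    funext σ
    exact Matrix.mulVec_add (M σ) (x σ) (y σ)
  map_smul' r x := by
    funext σ
    exact Matrix.mulVec_smul (M σ) r (x σ)

lemma Inv_qT_add (x x' y : TC K m) : qT h (x + x') y = qT h x y + qT h x' y := by
  rw [qT, qT, qT, ← Finset.sum_add_distrib]
  exact Finset.sum_congr rfl fun σ _ => pr_add_left σ _ _ _

lemma Inv_nd (hnd : h.det ≠ 0) (w : TC K m) (hw : ∀ x, qT h w x = 0) : w = 0 := by
  classical
  funext σ
  apply pr_nd hnd σ
  intro y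
  have h1 := hw (Pi.single (cj σ) y)
  rw [qT, Finset.sum_eq_single σ] at h1
  · rwa [Pi.single_eq_same] at h1
  · intro ρ _ hρ
    rw [Pi.single_eq_of_ne, pr, Matrix.mulVec_zero, dotProduct_zero]
    intro h2
    exact hρ (by rw [← cj_cj ρ, h2, cj_cj])
  · intro h2; exact absurd (Finset.mem_univ _) h2

lemma Inv_skew {M : (K →+* ℂ) → Matrix (Fin m) (Fin m) ℂ} (hM : SkewM h M) (w x : TC K m) :
    qT h (Inv_op M w) x = - qT h w (Inv_op M x) := by
  have h1 := (skewM_iff M).mp hM
  rw [eq_neg_iff_add_eq_zero, qT, qT, ← Finset.sum_add_distrib]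
  exact Finset.sum_eq_zero fun σ _ => h1 σ _ _

lemma Inv_act {V : Type} [AddCommGroup V] [Module ℂ V] {t : Fin m → K → Module.End ℂ V}
    {Z : Module.End ℂ V} {M : (K →+* ℂ) → Matrix (Fin m) (Fin m) ℂ} (hZ : ActM t Z M)
    (x : TC K m) : Z * opT t x - opT t x * Z = opT t (Inv_op M x) := by
  rw [opT, opT, Finset.mul_sum, Finset.sum_mul, ← Finset.sum_sub_distrib]
  exact Finset.sum_congr rfl fun σ _ => hZ σ _

/-- the vector of two elements is equivariant -/
lemma Inv_beta {V : Type} [AddCommGroup V] [Module ℂ V] {t : Fin m → K → Module.End ℂ V}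
    {Z : Module.End ℂ V} {M : (K →+* ℂ) → Matrix (Fin m) (Fin m) ℂ} (hZ : ActM t Z M)
    (hM : SkewM h M) (hnd : h.det ≠ 0) (ψ : V →ₗ[ℂ] V →ₗ[ℂ] ℂ) (β : V →ₗ[ℂ] V →ₗ[ℂ] TC K m)
    (hβ : ∀ u v x, qT h (β u v) x = ψ (opT t x u) v)
    (hψ : ∀ u v, ψ (Z u) v + ψ u (Z v) = 0) (u v : V) :
    β (Z u) v + β u (Z v) = Inv_op M (β u v) := by
  rw [← sub_eq_zero]
  apply Inv_nd hnd
  intro x
  have h1 : qT h (β (Z u) v + β u (Z v) - Inv_op M (β u v)) x + qT h (Inv_op M (β u v)) x =
      qT h (β (Z u) v) x + qT h (β u (Z v)) x := by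
    rw [← Inv_qT_add, sub_add_cancel, Inv_qT_add]
  have e1 := hψ (opT t x u) v
  have e2 : Z (opT t x u) - opT t x (Z u) = opT t (Inv_op M x) u :=
    congrArg (fun f : Module.End ℂ V => f u) (Inv_act hZ x)
  have e3 : ψ (opT t (Inv_op M x) u) v = ψ (Z (opT t x u)) v - ψ (opT t x (Z u)) v := by
    rw [← e2, map_sub, LinearMap.sub_apply]
  rw [Inv_skew hM, hβ, hβ, hβ, e3] at h1
  linear_combination h1 + e1

end ops

section two

variable {W : Type} [AddCommGroup W] [Module ℂ W]

/-- a bilinear form as a multilinear form -/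
noncomputable def Inv_two (ψ : W →ₗ[ℂ] W →ₗ[ℂ] ℂ) : MultilinearMap ℂ (fun _ : Fin 2 => W) ℂ where
  toFun v := ψ (v 0) (v 1)
  map_update_add' := by
    intro _ v r x y
    fin_cases r
    · simp
    · simp
  map_update_smul' := by
    intro _ v r c x
    fin_cases r
    · simp
    · simp

lemma Inv_two_apply (ψ : W →ₗ[ℂ] W →ₗ[ℂ] ℂ) (v : Fin 2 → W) : Inv_two ψ v = ψ (v 0) (v 1) := rfl

end two

section multi

variable {W T : Type} [AddCommGroup W] [Module ℂ W] [AddCommGroup T] [Module ℂ T] {d : ℕ}

lemma Inv_upd0 [DecidableEq (Fin (2 * d))] (e : Fin 2 × Fin d ≃ Fin (2 * d))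
    (β : W →ₗ[ℂ] W →ₗ[ℂ] T) (w : Fin (2 * d) → W) (r₀ : Fin d) (x : W) :
    (fun r => β (Function.update w (e (0, r₀)) x (e (0, r)))
      (Function.update w (e (0, r₀)) x (e (1, r)))) =
    Function.update (fun r => β (w (e (0, r))) (w (e (1, r)))) r₀ (β x (w (e (1, r₀)))) := by
  funext r
  by_cases hr : r = r₀
  · subst hr
    rw [Function.update_self, Function.update_self, Function.update_of_ne
      (e.injective.ne (fun h => one_ne_zero (Prod.ext_iff.mp h).1))]
  · rw [Function.update_of_ne hr, Function.update_of_ne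
      (e.injective.ne (fun h => hr (Prod.ext_iff.mp h).2)), Function.update_of_ne
      (e.injective.ne (fun h => hr (Prod.ext_iff.mp h).2))]

lemma Inv_upd1 [DecidableEq (Fin (2 * d))] (e : Fin 2 × Fin d ≃ Fin (2 * d))
    (β : W →ₗ[ℂ] W →ₗ[ℂ] T) (w : Fin (2 * d) → W) (r₀ : Fin d) (x : W) :
    (fun r => β (Function.update w (e (1, r₀)) x (e (0, r)))
      (Function.update w (e (1, r₀)) x (e (1, r)))) =
    Function.update (fun r => β (w (e (0, r))) (w (e (1, r)))) r₀ (β (w (e (0, r₀))) x) := by
  funext r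
  by_cases hr : r = r₀
  · subst hr
    rw [Function.update_self, Function.update_self, Function.update_of_ne
      (e.injective.ne (fun h => zero_ne_one (Prod.ext_iff.mp h).1))]
  · rw [Function.update_of_ne hr, Function.update_of_ne
      (e.injective.ne (fun h => hr (Prod.ext_iff.mp h).2)), Function.update_of_ne
      (e.injective.ne (fun h => hr (Prod.ext_iff.mp h).2))]

/-- the form in `2 * d` variables -/
noncomputable def Inv_al (e : Fin 2 × Fin d ≃ Fin (2 * d)) (β : W →ₗ[ℂ] W →ₗ[ℂ] T)
    (F : MultilinearMap ℂ (fun _ : Fin d => T) ℂ) :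
    MultilinearMap ℂ (fun _ : Fin (2 * d) => W) ℂ where
  toFun w := F fun r => β (w (e (0, r))) (w (e (1, r)))
  map_update_add' := by
    intro _ w s x y
    obtain ⟨⟨a, r₀⟩, rfl⟩ := e.surjective s
    fin_cases a
    · have h1 := Inv_upd0 e β w r₀
      show F (fun r => β (Function.update w (e (0, r₀)) (x + y) (e (0, r)))
        (Function.update w (e (0, r₀)) (x + y) (e (1, r)))) =
        F (fun r => β (Function.update w (e (0, r₀)) x (e (0, r)))
        (Function.update w (e (0, r₀)) x (e (1, r)))) +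
        F (fun r => β (Function.update w (e (0, r₀)) y (e (0, r)))
        (Function.update w (e (0, r₀)) y (e (1, r))))
      rw [h1, h1, h1, map_add, LinearMap.add_apply, MultilinearMap.map_update_add]
    · have h1 := Inv_upd1 e β w r₀
      show F (fun r => β (Function.update w (e (1, r₀)) (x + y) (e (0, r)))
        (Function.update w (e (1, r₀)) (x + y) (e (1, r)))) =
        F (fun r => β (Function.update w (e (1, r₀)) x (e (0, r)))
        (Function.update w (e (1, r₀)) x (e (1, r)))) +
        F (fun r => β (Function.update w (e (1, r₀)) y (e (0, r)))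
        (Function.update w (e (1, r₀)) y (e (1, r))))
      rw [h1, h1, h1, map_add, MultilinearMap.map_update_add]
  map_update_smul' := by
    intro _ w s c x
    obtain ⟨⟨a, r₀⟩, rfl⟩ := e.surjective s
    fin_cases a
    · have h1 := Inv_upd0 e β w r₀
      show F (fun r => β (Function.update w (e (0, r₀)) (c • x) (e (0, r)))
        (Function.update w (e (0, r₀)) (c • x) (e (1, r)))) =
        c • F (fun r => β (Function.update w (e (0, r₀)) x (e (0, r)))
        (Function.update w (e (0, r₀)) x (e (1, r))))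
      rw [h1, h1, map_smul, LinearMap.smul_apply, MultilinearMap.map_update_smul]
    · have h1 := Inv_upd1 e β w r₀
      show F (fun r => β (Function.update w (e (1, r₀)) (c • x) (e (0, r)))
        (Function.update w (e (1, r₀)) (c • x) (e (1, r)))) =
        c • F (fun r => β (Function.update w (e (1, r₀)) x (e (0, r)))
        (Function.update w (e (1, r₀)) x (e (1, r))))
      rw [h1, h1, map_smul, MultilinearMap.map_update_smul]

lemma Inv_al_apply (e : Fin 2 × Fin d ≃ Fin (2 * d)) (β : W →ₗ[ℂ] W →ₗ[ℂ] T)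
    (F : MultilinearMap ℂ (fun _ : Fin d => T) ℂ) (w : Fin (2 * d) → W) :
    Inv_al e β F w = F fun r => β (w (e (0, r))) (w (e (1, r))) := rfl

/-- the infinitesimal action on the form in `2 * d` variables -/
lemma Inv_act_al (e : Fin 2 × Fin d ≃ Fin (2 * d)) (β : W →ₗ[ℂ] W →ₗ[ℂ] T)
    (F : MultilinearMap ℂ (fun _ : Fin d => T) ℂ) (Z : Module.End ℂ W) (L : Module.End ℂ T)
    (hL : ∀ u v, β (Z u) v + β u (Z v) = L (β u v)) (w : Fin (2 * d) → W) :
    actForm Z (Inv_al e β F) w = actForm L F fun r => β (w (e (0, r))) (w (e (1, r))) := by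
  rw [actForm_apply, actForm_apply, ← Equiv.sum_comp e, Fintype.sum_prod_type, Fin.sum_univ_two,
    ← Finset.sum_add_distrib]
  refine Finset.sum_congr rfl fun r _ => ?_
  rw [Inv_al_apply, Inv_al_apply, Inv_upd0, Inv_upd1, ← MultilinearMap.map_update_add, hL]

/-- a multilinear form which vanishes on a spanning set is zero -/
lemma Inv_span (G : MultilinearMap ℂ (fun _ : Fin d => T) ℂ) (S : Set T)
    (hS : Submodule.span ℂ S = ⊤) (hG : ∀ v : Fin d → T, (∀ r, v r ∈ S) → G v = 0) : G = 0 := by
  classical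
  suffices H : ∀ s : Finset (Fin d), ∀ v : Fin d → T, (∀ r, r ∉ s → v r ∈ S) → G v = 0 by
    ext v
    exact H Finset.univ v fun r hr => absurd (Finset.mem_univ r) hr
  intro s
  induction s using Finset.induction_on with
  | empty =>
    intro v hv
    exact hG v fun r => hv r (Finset.notMem_empty r)
  | insert a s ha ih =>
    intro v hv
    have h1 : ∀ x ∈ Submodule.span ℂ S, G (Function.update v a x) = 0 := by
      intro x hx
      induction hx using Submodule.span_induction with
      | mem x hx =>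
        apply ih
        intro r hr
        by_cases hra : r = a
        · subst hra
          rwa [Function.update_self]
        · rw [Function.update_of_ne hra]
          exact hv r fun h => (Finset.mem_insert.mp h).elim hra hr
      | zero => exact MultilinearMap.map_update_zero G v a
      | add x y _ _ hx hy => rw [MultilinearMap.map_update_add, hx, hy, add_zero]
      | smul c x _ hx => rw [MultilinearMap.map_update_smul, hx, smul_zero]
    have h2 := h1 (v a) (by rw [hS]; exact Submodule.mem_top)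
    rwa [Function.update_eq_self] at h2

end multi

theorem thm_Inv (hB : St_Bet) : St_Inv := by
  intro κ _ _ _ ϖ P K _ _ c m h t hϖ S hK d F hQ hA M hM v
  obtain ⟨β, hβ, hβQ, hβA, hβS⟩ := hB κ ϖ P K c m h t hϖ S
  obtain ⟨Z, hZ, hZM⟩ := exists_bvE S.conj S.herm S.nd S.cliff M hM
  -- the form `ψ`
  have hψ : ∀ u v, P.ψ (Z u) v + P.ψ u (Z v) = 0 := by
    intro u v
    have h1 := hK 1 (Inv_two P.ψ) ?_ ?_ Z hZ
    · have h2 := congrArg (fun G => G (![u, v] : Fin 2 → κ → ℂ)) h1
      have h3 : actForm Z (Inv_two P.ψ) (![u, v] : Fin 2 → κ → ℂ) = 0 := h2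
      rw [actForm_apply, Fin.sum_univ_two, Inv_two_apply, Inv_two_apply] at h3
      simpa using h3
    · intro w hw
      obtain ⟨q, hq⟩ := P.hψQ _ (hw 0) _ (hw 1)
      exact ⟨q, by rw [pow_one]; exact hq⟩
    · intro w hw
      exact psi_alg P.ψ P.hψalg _ _ (hw 0) (hw 1)
  have hL := Inv_beta hZM hM S.nd P.ψ β hβ hψ
  -- the form in `2 * d` variables
  have h1 := hK d (Inv_al finProdFinEquiv β F) ?_ ?_ Z hZ
  · have h2 : actForm (Inv_op M) F = 0 := by
      refine Inv_span _ _ hβS ?_
      intro v hv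
      choose u u' hu using hv
      have h3 := Inv_act_al finProdFinEquiv β F Z (Inv_op M) hL
        (fun s => if (finProdFinEquiv.symm s).1 = 0 then u (finProdFinEquiv.symm s).2
          else u' (finProdFinEquiv.symm s).2)
      rw [h1] at h3
      have h4 : v = fun r => β (u r) (u' r) := funext hu
      rw [h4]
      simp only [Equiv.symm_apply_apply, if_pos, one_ne_zero, if_false] at h3
      exact h3.symm
    have h3 := congrArg (fun G => G v) h2
    have h4 : actForm (Inv_op M) F v = 0 := h3
    rw [actForm_apply] at h4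
    exact h4
  · intro w hw
    choose y hy using fun r => hβQ _ (hw (finProdFinEquiv (0, r))) _ (hw (finProdFinEquiv (1, r)))
    obtain ⟨p, hp⟩ := hQ y
    refine ⟨p, ?_⟩
    rw [Inv_al_apply]
    have e1 : (fun r => β (w (finProdFinEquiv (0, r))) (w (finProdFinEquiv (1, r)))) =
        fun r => ϖ • emb (y r) := funext hy
    rw [e1, MultilinearMap.map_smul_univ F (fun _ => ϖ) fun r => emb (y r), hp, Finset.prod_const,
      Finset.card_univ, Fintype.card_fin, smul_eq_mul]
  · intro w hw
    exact hA _ fun r => hβA _ _ (hw _) (hw _)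

end Pool.Agent.K3P
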