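import Pool.Agent.K3P.StD

/-!
# K3P.Ker: the kernel of `TT` consists of products of determinants
-/

set_option autoImplicit false

namespace Pool.Agent.K3P

open Finset

section

variable {Pl : Type} [DecidableEq Pl] {m d : ℕ}

/-- the number of slots with a given value -/
def Ker_N (s : Pl) (a : Fin m) (i : Fin d → Pl × Fin m) : ℕ :=
  (univ.filter fun r => i r = (s, a)).card

theorem Ker_diag (s : Pl) (a : Fin m) (c : (Fin d → Pl × Fin m) → ℂ) (i : Fin d → Pl × Fin m) :
    DE s a a c i = (Ker_N s a i : ℂ) * c i := by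
  have h1 : ∀ r, (if i r = (s, a) then c (Function.update i r (s, a)) else 0) =
      if i r = (s, a) then c i else 0 := by
    intro r
    split_ifs with h
    · rw [← h, Function.update_eq_self]
    · rfl
  unfold DE Ker_N
  rw [Finset.sum_congr rfl fun r _ => h1 r, Finset.sum_ite, Finset.sum_const_zero, add_zero,
    Finset.sum_const, nsmul_eq_mul]

theorem Ker_zero (s : Pl) (a b : Fin m) :
    DE s a b (0 : (Fin d → Pl × Fin m) → ℂ) = 0 := by
  funext i
  simp [DE]

theorem Ker_sumN [Fintype Pl] (i : Fin d → Pl × Fin m) : ∑ s, ∑ a, Ker_N s a i = d := by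
  have h := Finset.card_eq_sum_card_fiberwise (f := i) (s := (univ : Finset (Fin d)))
    (t := (univ : Finset (Pl × Fin m))) (fun _ _ => by simp)
  rw [Finset.card_univ, Fintype.card_fin, Fintype.sum_prod_type] at h
  exact h.symm

theorem Ker_sq [Fintype Pl] (h : St_Cas) {c : (Fin d → Pl × Fin m) → ℂ} (hT : TT c = 0)
    (hE : ∀ (s : Pl) (a b : Fin m), a ≠ b → DE s a b c = 0) {i : Fin d → Pl × Fin m}
    (hi : c i ≠ 0) : ∑ s, ∑ a, (Ker_N s a i) ^ 2 = d := by
  have h1 := (h Pl m d c i).1
  have h2 : SP c i + ((d : ℂ) * ((m : ℂ) - 1)) * c i = 0 := congrFun hT i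
  have h3 : ∑ s, ∑ a, ∑ b, DE s a b (DE s b a c) i = ∑ s, ∑ a, ((Ker_N s a i : ℂ) ^ 2 * c i) := by
    refine Finset.sum_congr rfl fun s _ => Finset.sum_congr rfl fun a _ => ?_
    rw [Finset.sum_eq_single a]
    · rw [Ker_diag, Ker_diag]
      ring
    · intro b _ hb
      rw [hE s b a hb, Ker_zero]
      rfl
    · intro ha
      exact absurd (Finset.mem_univ a) ha
  rw [h3] at h1
  have h4 : (∑ s, ∑ a, (Ker_N s a i : ℂ) ^ 2) * c i = (d : ℂ) * c i := by
    rw [Finset.sum_mul]
    simp_rw [Finset.sum_mul]
    rw [h1]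
    linear_combination h2
  have h5 := mul_right_cancel₀ hi h4
  exact_mod_cast h5

theorem Ker_le [Fintype Pl] (h : St_Cas) {c : (Fin d → Pl × Fin m) → ℂ} (hT : TT c = 0)
    (hE : ∀ (s : Pl) (a b : Fin m), a ≠ b → DE s a b c = 0) {i : Fin d → Pl × Fin m}
    (hi : c i ≠ 0) (s : Pl) (a : Fin m) : Ker_N s a i ≤ 1 := by
  by_contra hcon
  have h1 : ∀ n : ℕ, n ≤ n ^ 2 := fun n => Nat.le_self_pow (by norm_num) n
  have h2 : ∑ s, ∑ a, Ker_N s a i < ∑ s, ∑ a, (Ker_N s a i) ^ 2 := by
    refine Finset.sum_lt_sum (fun s _ => Finset.sum_le_sum fun a _ => h1 _)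
      ⟨s, Finset.mem_univ s, Finset.sum_lt_sum (fun a _ => h1 _) ⟨a, Finset.mem_univ a, ?_⟩⟩
    nlinarith
  rw [Ker_sumN, Ker_sq h hT hE hi] at h2
  exact lt_irrefl _ h2

theorem Ker_inj [Fintype Pl] (h : St_Cas) {c : (Fin d → Pl × Fin m) → ℂ} (hT : TT c = 0)
    (hE : ∀ (s : Pl) (a b : Fin m), a ≠ b → DE s a b c = 0) {i : Fin d → Pl × Fin m}
    (hi : c i ≠ 0) : Function.Injective i := by
  intro r r' hr
  by_contra hne
  have h1 := Ker_le h hT hE hi (i r).1 (i r).2
  have h2 : 1 < Ker_N (i r).1 (i r).2 i := by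
    unfold Ker_N
    rw [Finset.one_lt_card]
    exact ⟨r, by simp, r', by simp [hr], hne⟩
  omega

theorem Ker_full {c : (Fin d → Pl × Fin m) → ℂ}
    (hE : ∀ (s : Pl) (a b : Fin m), a ≠ b → DE s a b c = 0) {i : Fin d → Pl × Fin m}
    (hi : c i ≠ 0) (r : Fin d) (b : Fin m) : ∃ r', i r' = ((i r).1, b) := by
  by_contra hcon
  push Not at hcon
  have hb : b ≠ (i r).2 := fun hb => hcon r (by rw [hb])
  have h1 : DE (i r).1 b (i r).2 c (Function.update i r ((i r).1, b)) = 0 := by
    rw [hE _ _ _ hb]
    rfl
  unfold DE at h1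
  rw [Finset.sum_eq_single r] at h1
  · simp only [Function.update_self, if_true, Function.update_idem] at h1
    rw [show ((i r).1, (i r).2) = i r from rfl, Function.update_eq_self] at h1
    exact hi h1
  · intro r' _ hr'
    rw [Function.update_of_ne hr', if_neg (hcon r')]
  · intro hr
    exact absurd (Finset.mem_univ r) hr

theorem Ker_swap [Fintype Pl] (h : St_Cas) {c : (Fin d → Pl × Fin m) → ℂ} (hT : TT c = 0)
    (hE : ∀ (s : Pl) (a b : Fin m), a ≠ b → DE s a b c = 0) (i : Fin d → Pl × Fin m)
    {r r' : Fin d} (hr : r ≠ r') (hp : (i r).1 = (i r').1) :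
    c (i ∘ Equiv.swap r r') = -c i := by
  by_cases hi : Function.Injective i
  · have hne : i r ≠ i r' := fun he => hr (hi he)
    have hab : (i r).2 ≠ (i r').2 := fun he => hne (Prod.ext hp he)
    have h1 : DE (i r).1 (i r).2 (i r').2 c (Function.update i r' (i r)) = 0 := by
      rw [hE _ _ _ hab]
      rfl
    unfold DE at h1
    have h2 : ∀ q, q ∉ ({r, r'} : Finset (Fin d)) →
        (if Function.update i r' (i r) q = ((i r).1, (i r).2) then
          c (Function.update (Function.update i r' (i r)) q ((i r).1, (i r').2)) else 0) = 0 := by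
      intro q hq
      simp only [Finset.mem_insert, Finset.mem_singleton, not_or] at hq
      rw [Function.update_of_ne hq.2, if_neg]
      intro he
      exact hq.1 (hi he)
    rw [← Finset.sum_subset (Finset.subset_univ ({r, r'} : Finset (Fin d)))
      (fun q _ hq => h2 q hq), Finset.sum_pair hr] at h1
    rw [Function.update_of_ne hr, if_pos rfl, Function.update_self, if_pos rfl,
      Function.update_idem] at h1
    have h3 : Function.update i r' ((i r).1, (i r').2) = i := by
      rw [hp]
      exact Function.update_eq_self r' i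
    have h4 : Function.update (Function.update i r' (i r)) r ((i r).1, (i r').2) =
        i ∘ Equiv.swap r r' := by
      rw [hp]
      funext q
      simp only [Function.comp]
      by_cases hq : q = r
      · subst hq
        rw [Function.update_self, Equiv.swap_apply_left]
      · rw [Function.update_of_ne hq]
        by_cases hq' : q = r'
        · subst hq'
          rw [Function.update_self, Equiv.swap_apply_right]
        · rw [Function.update_of_ne hq', Equiv.swap_apply_of_ne_of_ne hq hq']
    rw [h3, h4] at h1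
    exact eq_neg_of_add_eq_zero_left h1
  · have h1 : c i = 0 := by
      by_contra hc
      exact hi (Ker_inj h hT hE hc)
    have h2 : c (i ∘ Equiv.swap r r') = 0 := by
      by_contra hc
      have h3 := Ker_inj h hT hE hc
      apply hi
      have h4 := h3.comp (Equiv.swap r r').injective
      have h5 : (i ∘ Equiv.swap r r') ∘ Equiv.swap r r' = i := by
        funext q
        simp [Function.comp]
      rwa [h5] at h4
    rw [h1, h2, neg_zero]

/-- the tuple with places `s₁` and indices `σ` -/
def Ker_t {l₁ : ℕ} (e : Fin l₁ × Fin m ≃ Fin d) (s₁ : Fin l₁ → Pl)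
    (σ : Fin l₁ → Fin m → Fin m) : Fin d → Pl × Fin m :=
  fun r => (s₁ (e.symm r).1, σ (e.symm r).1 (e.symm r).2)

theorem Ker_one [Fintype Pl] (h : St_Cas) {c : (Fin d → Pl × Fin m) → ℂ} (hT : TT c = 0)
    (hE : ∀ (s : Pl) (a b : Fin m), a ≠ b → DE s a b c = 0) {l₁ : ℕ}
    (e : Fin l₁ × Fin m ≃ Fin d) (s₁ : Fin l₁ → Pl) (σ : Fin l₁ → Fin m → Fin m) (b : Fin l₁)
    (ρ : Equiv.Perm (Fin m)) :
    c (Ker_t e s₁ (Function.update σ b ρ)) =
      ((Equiv.Perm.sign ρ : ℤ) : ℂ) * c (Ker_t e s₁ (Function.update σ b id)) := by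
  induction ρ using Equiv.Perm.swap_induction_on' with
  | one => simp
  | mul_swap f x y hxy ih =>
    have h1 : Ker_t e s₁ (Function.update σ b (f * Equiv.swap x y : Equiv.Perm (Fin m))) =
        Ker_t e s₁ (Function.update σ b f) ∘ Equiv.swap (e (b, x)) (e (b, y)) := by
      funext r
      obtain ⟨⟨b', j⟩, rfl⟩ := e.surjective r
      have h2 : Equiv.swap (e (b, x)) (e (b, y)) (e (b', j)) =
          e (Equiv.swap (b, x) (b, y) (b', j)) := e.injective.swap_apply _ _ _
      simp only [Function.comp, Ker_t]
      rw [h2]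
      simp only [Equiv.symm_apply_apply]
      by_cases hb : b' = b
      · subst hb
        have h3 : Equiv.swap (b', x) (b', y) (b', j) = (b', Equiv.swap x y j) := by
          rw [Equiv.swap_apply_def, Equiv.swap_apply_def]
          simp only [Prod.mk.injEq, true_and]
          split_ifs <;> rfl
        rw [h3]
        simp
      · have h3 : Equiv.swap (b, x) (b, y) (b', j) = (b', j) :=
          Equiv.swap_apply_of_ne_of_ne (fun he => hb (congrArg Prod.fst he))
            (fun he => hb (congrArg Prod.fst he))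
        rw [h3]
        simp [Function.update_of_ne hb]
    rw [h1, Ker_swap h hT hE _ (fun he => hxy (by simpa using e.injective he)) (by simp [Ker_t]),
      ih, Equiv.Perm.sign_mul, Equiv.Perm.sign_swap hxy]
    push_cast
    ring

theorem Ker_all [Fintype Pl] (h : St_Cas) {c : (Fin d → Pl × Fin m) → ℂ} (hT : TT c = 0)
    (hE : ∀ (s : Pl) (a b : Fin m), a ≠ b → DE s a b c = 0) {l₁ : ℕ}
    (e : Fin l₁ × Fin m ≃ Fin d) (s₁ : Fin l₁ → Pl) (ρ : Fin l₁ → Equiv.Perm (Fin m))
    (S : Finset (Fin l₁)) :
    c (Ker_t e s₁ fun b => if b ∈ S then ρ b else id) =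
      (∏ b ∈ S, ((Equiv.Perm.sign (ρ b) : ℤ) : ℂ)) * c (Ker_t e s₁ fun _ => id) := by
  induction S using Finset.induction_on with
  | empty => simp
  | insert b S hb ih =>
    have h1 : (fun b' => if b' ∈ insert b S then (ρ b' : Fin m → Fin m) else id) =
        Function.update (fun b' => if b' ∈ S then (ρ b' : Fin m → Fin m) else id) b (ρ b) := by
      funext b'
      by_cases hb' : b' = b
      · subst hb'
        simp
      · rw [Function.update_of_ne hb']
        simp [hb']
    have h2 : Function.update (fun b' => if b' ∈ S then (ρ b' : Fin m → Fin m) else id) b id =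
        fun b' => if b' ∈ S then (ρ b' : Fin m → Fin m) else id := by
      funext b'
      by_cases hb' : b' = b
      · subst hb'
        simp [hb]
      · rw [Function.update_of_ne hb']
    rw [h1, Ker_one h hT hE, h2, ih, Finset.prod_insert hb]
    ring

theorem Ker_det (g : Fin m → Fin m) :
    (Matrix.of fun j k : Fin m => if g j = k then (1 : ℂ) else 0).det =
      if hg : Function.Bijective g then ((Equiv.Perm.sign (Equiv.ofBijective g hg) : ℤ) : ℂ)
      else 0 := by
  split_ifs with hg
  · have h1 : (Matrix.of fun j k : Fin m => if g j = k then (1 : ℂ) else 0) =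
        (Equiv.toPEquiv (Equiv.ofBijective g hg)).toMatrix := by
      ext j k
      simp [PEquiv.toMatrix_apply, eq_comm]
    rw [h1, Matrix.det_permutation]
  · have hg' : ¬ Function.Injective g := fun h => hg (Finite.injective_iff_bijective.1 h)
    rw [Function.Injective] at hg'
    push Not at hg'
    obtain ⟨j, j', hj, hne⟩ := hg'
    refine Matrix.det_zero_of_row_eq hne ?_
    funext k
    simp [hj]

end

theorem thm_Ker (h : St_Cas) : St_Ker := by
  intro Pl _ _ m d c hT hE
  have hsum : c = ∑ p : Fin d → Pl, fun i => if (fun r => (i r).1) = p then c i else 0 := by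
    funext i
    rw [Finset.sum_apply, Finset.sum_ite_eq]
    simp
  rw [hsum]
  refine Submodule.sum_mem _ fun p _ => ?_
  by_cases hp : ∀ i : Fin d → Pl × Fin m, (fun r => (i r).1) = p → c i = 0
  · have h0 : (fun i : Fin d → Pl × Fin m => if (fun r => (i r).1) = p then c i else 0) = 0 := by
      funext i
      by_cases hi : (fun r => (i r).1) = p
      · simp [hi, hp i hi]
      · simp [hi]
    rw [h0]
    exact Submodule.zero_mem _
  push Not at hp
  obtain ⟨i₀, hi₀, hc₀⟩ := hp
  have hinj := Ker_inj h hT hE hc₀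
  -- the set of places
  set U : Finset Pl := Finset.univ.image p with hU
  have hUe : Nonempty (Fin U.card ≃ U) := ⟨(Fintype.equivFinOfCardEq (by simp)).symm⟩
  obtain ⟨u⟩ := hUe
  have hex : ∀ x : Fin U.card × Fin m, ∃ r, i₀ r = ((u x.1 : Pl), x.2) := by
    rintro ⟨b, j⟩
    obtain ⟨r, _, hr⟩ := Finset.mem_image.1
      (show (u b : Pl) ∈ Finset.univ.image p from (u b).2)
    have h1 : (i₀ r).1 = p r := congrFun hi₀ r
    obtain ⟨r', hr'⟩ := Ker_full hE hc₀ r j
    exact ⟨r', by rw [hr', h1, hr]⟩
  choose f hf using hex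
  have hfb : Function.Bijective f := by
    constructor
    · intro x y hxy
      have h1 := hf x
      rw [hxy, hf y] at h1
      have h2 := congrArg Prod.fst h1
      have h3 := congrArg Prod.snd h1
      simp only at h2 h3
      exact Prod.ext (u.injective (Subtype.ext h2.symm)) h3.symm
    · intro r
      have hm : p r ∈ U := by
        rw [hU]
        exact Finset.mem_image_of_mem _ (Finset.mem_univ r)
      refine ⟨(u.symm ⟨p r, hm⟩, (i₀ r).2), hinj ?_⟩
      rw [hf]
      simp only [Equiv.apply_symm_apply]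
      exact Prod.ext (congrFun hi₀ r).symm rfl
  set e : Fin U.card × Fin m ≃ Fin d := Equiv.ofBijective f hfb with he
  have hfe : ∀ x, i₀ (e x) = ((u x.1 : Pl), x.2) := hf
  have hpe : ∀ x, p (e x) = (u x.1 : Pl) := fun x => by
    rw [← hi₀]
    simp only [hfe]
  let E : (Fin 0 × Fin 2) ⊕ (Fin U.card × Fin m) ≃ Fin d :=
    (Equiv.emptySum _ _).trans e
  have hkey : (fun i : Fin d → Pl × Fin m => if (fun r => (i r).1) = p then c i else 0) =
      c i₀ • dd E (Fin.elim0) (fun b => (u b : Pl)) := by
    funext i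
    have hdd : dd E (Fin.elim0) (fun b => (u b : Pl)) i =
        ∏ b, (Matrix.of fun j k : Fin m => if i (e (b, j)) = ((u b : Pl), k) then (1 : ℂ)
          else 0).det := by
      unfold dd
      rw [Finset.univ_eq_empty, Finset.prod_empty, one_mul]
      rfl
    rw [Pi.smul_apply, hdd, smul_eq_mul]
    split_ifs with hi
    · have hi1 : ∀ b j, i (e (b, j)) = ((u b : Pl), (i (e (b, j))).2) := fun b j =>
        Prod.ext (by rw [← hpe (b, j), ← hi]) rfl
      have h1 : ∀ b, (Matrix.of fun j k : Fin m => if i (e (b, j)) = ((u b : Pl), k) then (1 : ℂ)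
          else 0) = Matrix.of fun j k : Fin m => if (i (e (b, j))).2 = k then (1 : ℂ) else 0 := by
        intro b
        ext j k
        simp only [Matrix.of_apply]
        rw [hi1 b j]
        simp
      simp_rw [h1, Ker_det]
      by_cases hb : ∀ b, Function.Bijective fun j => (i (e (b, j))).2
      · have h2 := Ker_all h hT hE e (fun b => (u b : Pl))
          (fun b => Equiv.ofBijective _ (hb b)) Finset.univ
        have h3 : (Ker_t e (fun b => (u b : Pl)) fun b => if b ∈ Finset.univ then
            ((fun b => Equiv.ofBijective _ (hb b)) b : Fin m → Fin m) else id) = i := by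
          funext r
          obtain ⟨⟨b, j⟩, rfl⟩ := e.surjective r
          rw [hi1 b j]
          simp [Ker_t]
        have h4 : (Ker_t e (fun b => (u b : Pl)) fun _ => id) = i₀ := by
          funext r
          obtain ⟨⟨b, j⟩, rfl⟩ := e.surjective r
          rw [hfe]
          simp [Ker_t]
        rw [h3, h4] at h2
        rw [h2, mul_comm]
        congr 1
        refine Finset.prod_congr rfl fun b _ => ?_
        rw [dif_pos (hb b)]
      · push Not at hb
        obtain ⟨b, hb⟩ := hb
        rw [Finset.prod_eq_zero (Finset.mem_univ b) (by rw [dif_neg hb]), mul_zero]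
        by_contra hc
        apply hb
        refine Finite.injective_iff_bijective.1 ?_
        intro j j' hj
        have h2 := Ker_inj h hT hE hc
        have h3 : i (e (b, j)) = i (e (b, j')) := by
          rw [hi1 b j, hi1 b j']
          exact Prod.ext rfl hj
        simpa using e.injective (h2 h3)
    · have hx : ∃ r, (i r).1 ≠ p r := by
        by_contra hcon
        push Not at hcon
        exact hi (funext hcon)
      obtain ⟨r, hr⟩ := hx
      obtain ⟨⟨b, j⟩, rfl⟩ := e.surjective r
      rw [Finset.prod_eq_zero (Finset.mem_univ b), mul_zero]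
      refine Matrix.det_eq_zero_of_row_eq_zero j fun k => ?_
      simp only [Matrix.of_apply]
      rw [if_neg]
      intro he2
      apply hr
      rw [he2, hpe]
  rw [hkey]
  exact Submodule.smul_mem _ _ (Submodule.subset_span ⟨0, U.card, E, _, _, rfl⟩)

end Pool.Agent.K3P
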