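import Pool.Agent.K3P.StD

/-!
# K3P [Mxd]: from the tensor powers of `T` to the cohomology of `X^n`
-/

set_option autoImplicit false
set_option linter.unusedSectionVars false

namespace Pool.Agent.K3P

open Module Matrix NumberField Pool.Agent.Helper7 Pool.Agent.KS Pool.Agent.Ball Pool.Agent.KSE
open Pool.Agent.GPC (AbVar TC IsRatT qf df HX IsGrK3 IsBasicPow IsGenPow)

/-- Enumerations of the slots with `none` and of the others. -/
theorem Mxd_enum {n r : ℕ} (f : Fin n → Option (Fin r)) :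
    ∃ (d l : ℕ) (ε : Fin d ⊕ Fin l ≃ Fin n) (i : Fin l → Fin r),
      (∀ a, f (ε (.inl a)) = none) ∧ ∀ b, f (ε (.inr b)) = some (i b) := by
  classical
  obtain ⟨e1⟩ : Nonempty (Fin (Fintype.card {s // f s = none}) ≃ {s // f s = none}) :=
    ⟨(Fintype.equivFin _).symm⟩
  obtain ⟨e2⟩ : Nonempty (Fin (Fintype.card {s // ¬ f s = none}) ≃ {s // ¬ f s = none}) :=
    ⟨(Fintype.equivFin _).symm⟩
  obtain ⟨ε, hε⟩ : ∃ ε, ε = (e1.sumCongr e2).trans (Equiv.sumCompl fun s => f s = none) :=
    ⟨_, rfl⟩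
  have h1 : ∀ a, f (ε (.inl a)) = none := by
    intro a
    rw [hε]
    exact (e1 a).2
  have h2 : ∀ b, ∃ i, f (ε (.inr b)) = some i := by
    intro b
    rw [hε]
    exact Option.ne_none_iff_exists'.1 (e2 b).2
  choose i hi using h2
  exact ⟨_, _, ε, i, h1, hi⟩

section

variable {K : Type} [Field K] [NumberField K] {m r n d l : ℕ}

/-- The vectors `(0, y_a)` and `(e_i, 0)`. -/
noncomputable def Mxd_W (ε : Fin d ⊕ Fin l ≃ Fin n) (i : Fin l → Fin r) (y : Fin d → TC K m) :
    Fin n → HX r K m :=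
  fun s => Sum.elim (fun a => ((0 : Fin r → ℂ), y a)) (fun b => (Pi.single (i b) 1, 0)) (ε.symm s)

theorem Mxd_W_inl (ε : Fin d ⊕ Fin l ≃ Fin n) (i : Fin l → Fin r) (y : Fin d → TC K m)
    (a : Fin d) : Mxd_W ε i y (ε (.inl a)) = (0, y a) := by
  unfold Mxd_W
  rw [Equiv.symm_apply_apply]
  rfl

theorem Mxd_W_inr (ε : Fin d ⊕ Fin l ≃ Fin n) (i : Fin l → Fin r) (y : Fin d → TC K m)
    (b : Fin l) : Mxd_W ε i y (ε (.inr b)) = (Pi.single (i b) 1, 0) := by
  unfold Mxd_W
  rw [Equiv.symm_apply_apply]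
  rfl

theorem Mxd_W_update (ε : Fin d ⊕ Fin l ≃ Fin n) (i : Fin l → Fin r) (y : Fin d → TC K m)
    (a : Fin d) (u : TC K m) [DecidableEq (Fin d)] [DecidableEq (Fin n)] :
    Mxd_W ε i (Function.update y a u) = Function.update (Mxd_W ε i y) (ε (.inl a)) (0, u) := by
  funext s
  obtain ⟨t, rfl⟩ := ε.surjective s
  rcases t with b | b
  · rw [Mxd_W_inl]
    by_cases hab : b = a
    · subst hab
      rw [Function.update_self, Function.update_self]
    · rw [Function.update_of_ne hab, Function.update_of_ne, Mxd_W_inl]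
      intro h
      exact hab (Sum.inl_injective (ε.injective h))
  · rw [Mxd_W_inr, Function.update_of_ne, Mxd_W_inr]
    intro h
    exact Sum.inr_ne_inl (ε.injective h)

/-- The form on the slots with `none`. -/
noncomputable def Mxd_G (ε : Fin d ⊕ Fin l ≃ Fin n) (i : Fin l → Fin r)
    (F : MultilinearMap ℂ (fun _ : Fin n => HX r K m) ℂ) :
    MultilinearMap ℂ (fun _ : Fin d => TC K m) ℂ where
  toFun y := F (Mxd_W ε i y)
  map_update_add' y a u u' := by
    rw [Mxd_W_update, Mxd_W_update, Mxd_W_update]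
    have h : ((0, u + u') : HX r K m) = (0, u) + (0, u') := by
      rw [Prod.mk_add_mk, add_zero]
    rw [h, F.map_update_add]
  map_update_smul' y a c u := by
    rw [Mxd_W_update, Mxd_W_update]
    have h : ((0, c • u) : HX r K m) = c • ((0, u) : HX r K m) := by
      rw [Prod.smul_mk, smul_zero]
    rw [h, F.map_update_smul]

theorem Mxd_G_apply (ε : Fin d ⊕ Fin l ≃ Fin n) (i : Fin l → Fin r)
    (F : MultilinearMap ℂ (fun _ : Fin n => HX r K m) ℂ) (y : Fin d → TC K m) :
    Mxd_G ε i F y = F (Mxd_W ε i y) := rfl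

/-- The component of a vector. -/
noncomputable def Mxd_c (o : Option (Fin r)) (x : HX r K m) : HX r K m :=
  match o with
  | none => (0, x.2)
  | some i => x.1 i • ((Pi.single i 1, 0) : HX r K m)

theorem Mxd_sum (x : HX r K m) : x = ∑ o : Option (Fin r), Mxd_c o x := by
  rw [Fintype.sum_option]
  have h1 : ∑ i : Fin r, Mxd_c (some i) x = (x.1, 0) := by
    refine Prod.ext ?_ ?_
    · rw [Prod.fst_sum]
      funext j
      rw [Finset.sum_apply, Finset.sum_eq_single j]
      · simp [Mxd_c]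
      · intro b _ hb
        simp [Mxd_c, Pi.single_eq_of_ne hb.symm]
      · intro h
        exact absurd (Finset.mem_univ _) h
    · rw [Prod.snd_sum]
      refine Finset.sum_eq_zero fun j _ => ?_
      simp [Mxd_c]
  rw [h1]
  simp [Mxd_c]

theorem Mxd_term (ε : Fin d ⊕ Fin l ≃ Fin n) (i : Fin l → Fin r)
    (F : MultilinearMap ℂ (fun _ : Fin n => HX r K m) ℂ) (f : Fin n → Option (Fin r))
    (h1 : ∀ a, f (ε (.inl a)) = none) (h2 : ∀ b, f (ε (.inr b)) = some (i b))
    (v : Fin n → HX r K m) :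
    F (fun s => Mxd_c (f s) (v s)) =
      Mxd_G ε i F (fun a => (v (ε (.inl a))).2) * ∏ b, (v (ε (.inr b))).1 (i b) := by
  obtain ⟨c, hc⟩ : ∃ c : Fin n → ℂ, c = fun s => Sum.elim (fun _ : Fin d => (1 : ℂ))
    (fun b => (v (ε (.inr b))).1 (i b)) (ε.symm s) := ⟨_, rfl⟩
  have hcl : ∀ a, c (ε (.inl a)) = 1 := by
    intro a
    rw [hc]
    simp
  have hcr : ∀ b, c (ε (.inr b)) = (v (ε (.inr b))).1 (i b) := by
    intro b
    rw [hc]
    simp
  have h3 : (fun s => Mxd_c (f s) (v s)) =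
      fun s => c s • Mxd_W ε i (fun a => (v (ε (.inl a))).2) s := by
    funext s
    obtain ⟨t, rfl⟩ := ε.surjective s
    rcases t with b | b
    · rw [h1, Mxd_W_inl, hcl, one_smul]
      rfl
    · rw [h2, Mxd_W_inr, hcr]
      rfl
  rw [h3, F.map_smul_univ, Mxd_G_apply, smul_eq_mul, mul_comm]
  congr 1
  rw [← Equiv.prod_comp ε, Fintype.prod_sum_type]
  rw [Finset.prod_congr rfl fun a _ => hcl a, Finset.prod_congr rfl fun b _ => hcr b,
    Finset.prod_const_one, one_mul]

/-- Combinations of products, for functions. -/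
def Mxd_Gen (c : K →+* K) (h : Matrix (Fin m) (Fin m) K) (r n : ℕ)
    (F : (Fin n → HX r K m) → ℂ) : Prop :=
  ∃ (N : ℕ) (p : Fin N → ℚ) (ω : Fin N → (Fin n → HX r K m) → ℂ),
    (∀ j, IsBasicPow c h r n (ω j)) ∧ ∀ v, F v = ∑ j, (p j : ℂ) * ω j v

theorem Mxd_Gen_zero (c : K →+* K) (h : Matrix (Fin m) (Fin m) K) (r n : ℕ) :
    Mxd_Gen c h r n fun _ => 0 :=
  ⟨0, Fin.elim0, Fin.elim0, fun j => j.elim0, fun _ => by simp⟩

theorem Mxd_Gen_add {c : K →+* K} {h : Matrix (Fin m) (Fin m) K} {r n : ℕ}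
    {F F' : (Fin n → HX r K m) → ℂ} (hF : Mxd_Gen c h r n F) (hF' : Mxd_Gen c h r n F') :
    Mxd_Gen c h r n fun v => F v + F' v := by
  obtain ⟨N, p, ω, h1, h2⟩ := hF
  obtain ⟨N', p', ω', h1', h2'⟩ := hF'
  refine ⟨N + N', Fin.append p p', Fin.append ω ω', ?_, ?_⟩
  · intro j
    induction j using Fin.addCases with
    | left j => rw [Fin.append_left]; exact h1 j
    | right j => rw [Fin.append_right]; exact h1' j
  · intro v
    rw [Fin.sum_univ_add]
    simp only [Fin.append_left, Fin.append_right]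
    rw [h2, h2']

theorem Mxd_Gen_sum {c : K →+* K} {h : Matrix (Fin m) (Fin m) K} {r n : ℕ} {ι : Type}
    (s : Finset ι) (F : ι → (Fin n → HX r K m) → ℂ) (hF : ∀ i ∈ s, Mxd_Gen c h r n (F i)) :
    Mxd_Gen c h r n fun v => ∑ i ∈ s, F i v := by
  classical
  induction s using Finset.induction_on with
  | empty => simpa using Mxd_Gen_zero c h r n
  | insert a s ha ih =>
    simp only [Finset.sum_insert ha]
    exact Mxd_Gen_add (hF a (Finset.mem_insert_self _ _))
      (ih fun i hi => hF i (Finset.mem_insert_of_mem hi))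

theorem Mxd_qz (h : Matrix (Fin m) (Fin m) K) (z : K) (x y : TC K m) :
    qz h z x y = qf h z x y := by
  unfold qz qf pr
  refine Finset.sum_congr rfl fun σ _ => ?_
  congr 1
  rw [dotProduct]
  refine Finset.sum_congr rfl fun a _ => ?_
  rw [mulVec, dotProduct, Finset.mul_sum]
  refine Finset.sum_congr rfl fun b _ => ?_
  rw [Matrix.map_apply, mul_assoc]

end

theorem thm_Mxd : St_Mxd := by
  intro K _ _ c m h D n hG r F hD hrat halg
  have hF : ∀ v, F v = ∑ f : Fin n → Option (Fin r), F (fun s => Mxd_c (f s) (v s)) := by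
    intro v
    have h1 := F.map_sum (fun s o => Mxd_c o (v s))
    rw [← h1]
    congr 1
    funext s
    exact Mxd_sum (v s)
  have key : ∀ f : Fin n → Option (Fin r),
      Mxd_Gen c h r n fun v => F (fun s => Mxd_c (f s) (v s)) := by
    intro f
    obtain ⟨d, l, ε, i, h1, h2⟩ := Mxd_enum f
    have hd : d ≤ n := by
      have := Fintype.card_congr ε
      simp only [Fintype.card_sum, Fintype.card_fin] at this
      omega
    have hs : ∀ b : Fin l, ∀ j, (Pi.single (i b) 1 : Fin r → ℂ) j = 0 ∨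
        (Pi.single (i b) 1 : Fin r → ℂ) j = 1 := by
      intro b j
      by_cases hj : j = i b
      · subst hj
        exact Or.inr (Pi.single_eq_same _ _)
      · exact Or.inl (Pi.single_eq_of_ne hj _)
    obtain ⟨N, p, ω, hω, hsum⟩ := hG d (Mxd_G ε i F) hd (by
      intro y
      rw [Mxd_G_apply]
      refine hrat _ fun s => ?_
      obtain ⟨t, rfl⟩ := ε.surjective s
      rcases t with a | b
      · rw [Mxd_W_inl]
        exact ⟨fun j => ⟨0, by simp⟩, y a, fun σ k => rfl⟩
      · rw [Mxd_W_inr]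
        refine ⟨fun j => ?_, 0, fun σ k => by simp⟩
        rcases hs b j with h3 | h3
        · exact ⟨0, h3.trans (by simp)⟩
        · exact ⟨1, h3.trans (by simp)⟩) (by
      intro v hv
      rw [Mxd_G_apply]
      refine halg _ fun s => ?_
      obtain ⟨t, rfl⟩ := ε.surjective s
      rcases t with a | b
      · rw [Mxd_W_inl]
        exact ⟨fun j => isAlgebraic_zero, hv a⟩
      · rw [Mxd_W_inr]
        refine ⟨fun j => ?_, hD⟩
        rcases hs b j with h3 | h3
        · show IsAlgebraic ℚ ((Pi.single (i b) 1 : Fin r → ℂ) j)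
          rw [h3]
          exact isAlgebraic_zero
        · show IsAlgebraic ℚ ((Pi.single (i b) 1 : Fin r → ℂ) j)
          rw [h3]
          exact isAlgebraic_one)
    refine ⟨N, p, fun j v => ω j (fun a => (v (ε (.inl a))).2) *
      ∏ b, (v (ε (.inr b))).1 (i b), ?_, ?_⟩
    · intro j
      obtain ⟨l₀, l₁, e, z, z₁, h3, h4⟩ := hω j
      refine ⟨l₀, l₁, l, (Equiv.sumCongr e (Equiv.refl (Fin l))).trans ε, z, z₁, i, h3, ?_⟩
      intro v
      simp only [h4, Mxd_qz]
      rfl
    · intro v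
      show F (fun s => Mxd_c (f s) (v s)) = _
      rw [Mxd_term ε i F f h1 h2, hsum, Finset.sum_mul]
      exact Finset.sum_congr rfl fun j _ => by ring
  obtain ⟨N, p, ω, h1, h2⟩ := Mxd_Gen_sum Finset.univ _ fun f _ => key f
  exact ⟨N, p, ω, h1, fun v => by rw [hF v]; exact h2 v⟩

end Pool.Agent.K3P
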