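import Pool.Agent.K3P.StD

/-!
# K3P: positivity of the operator `TT`
-/

set_option autoImplicit false
set_option linter.unusedSectionVars false

namespace Pool.Agent.K3P

open Finset
open scoped ComplexConjugate

section psd

variable {Pl : Type} [Fintype Pl] [DecidableEq Pl] {m d : ℕ}

/-- the Hermitian form -/
noncomputable def Psd_ip (x y : (Fin d → Pl × Fin m) → ℂ) : ℂ := ∑ i, conj (x i) * y i

theorem Psd_ip_add (x y z : (Fin d → Pl × Fin m) → ℂ) :
    Psd_ip x (y + z) = Psd_ip x y + Psd_ip x z := by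
  unfold Psd_ip
  rw [← Finset.sum_add_distrib]
  exact Finset.sum_congr rfl fun i _ => by rw [Pi.add_apply, mul_add]

theorem Psd_ip_sub (x y z : (Fin d → Pl × Fin m) → ℂ) :
    Psd_ip x (y - z) = Psd_ip x y - Psd_ip x z := by
  unfold Psd_ip
  rw [← Finset.sum_sub_distrib]
  exact Finset.sum_congr rfl fun i _ => by rw [Pi.sub_apply, mul_sub]

theorem Psd_sub_ip (x y z : (Fin d → Pl × Fin m) → ℂ) :
    Psd_ip (x - y) z = Psd_ip x z - Psd_ip y z := by
  unfold Psd_ip
  rw [← Finset.sum_sub_distrib]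
  exact Finset.sum_congr rfl fun i _ => by rw [Pi.sub_apply, map_sub, sub_mul]

theorem Psd_ip_self (x : (Fin d → Pl × Fin m) → ℂ) :
    Psd_ip x x = ((∑ i, Complex.normSq (x i) : ℝ) : ℂ) := by
  unfold Psd_ip
  rw [Complex.ofReal_sum]
  exact Finset.sum_congr rfl fun i _ => by rw [mul_comm, Complex.mul_conj]

theorem Psd_ip_re_nonneg (x : (Fin d → Pl × Fin m) → ℂ) : 0 ≤ (Psd_ip x x).re := by
  rw [Psd_ip_self, Complex.ofReal_re]
  exact Finset.sum_nonneg fun i _ => Complex.normSq_nonneg _

theorem Psd_ip_eq_zero {x : (Fin d → Pl × Fin m) → ℂ} (h : (Psd_ip x x).re ≤ 0) : x = 0 := by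
  rw [Psd_ip_self, Complex.ofReal_re] at h
  have h1 : ∑ i, Complex.normSq (x i) = 0 :=
    le_antisymm h (Finset.sum_nonneg fun i _ => Complex.normSq_nonneg _)
  rw [Finset.sum_eq_zero_iff_of_nonneg fun i _ => Complex.normSq_nonneg _] at h1
  funext i
  exact Complex.normSq_eq_zero.1 (h1 i (Finset.mem_univ _))

/-- `DE s b a` is the adjoint of `DE s a b` -/
theorem Psd_DE (s : Pl) (a b : Fin m) (x y : (Fin d → Pl × Fin m) → ℂ) :
    Psd_ip x (DE s a b y) = Psd_ip (DE s b a x) y := by
  unfold Psd_ip DE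
  have h1 : ∀ i : Fin d → Pl × Fin m,
      conj (x i) * (∑ r, if i r = (s, a) then y (Function.update i r (s, b)) else 0) =
      ∑ r, if i r = (s, a) then conj (x i) * y (Function.update i r (s, b)) else 0 := by
    intro i
    rw [Finset.mul_sum]
    refine Finset.sum_congr rfl fun r _ => ?_
    split_ifs
    · rfl
    · rw [mul_zero]
  have h2 : ∀ i : Fin d → Pl × Fin m,
      conj (∑ r, if i r = (s, b) then x (Function.update i r (s, a)) else 0) * y i =
      ∑ r, if i r = (s, b) then conj (x (Function.update i r (s, a))) * y i else 0 := by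
    intro i
    rw [map_sum, Finset.sum_mul]
    refine Finset.sum_congr rfl fun r _ => ?_
    split_ifs
    · rfl
    · rw [map_zero, zero_mul]
  rw [Finset.sum_congr rfl fun i _ => h1 i, Finset.sum_congr rfl fun i _ => h2 i,
    Finset.sum_comm, Finset.sum_comm (s := (univ : Finset (Fin d → Pl × Fin m)))]
  refine Finset.sum_congr rfl fun r _ => ?_
  rw [← Finset.sum_filter, ← Finset.sum_filter]
  refine Finset.sum_nbij' (fun i => Function.update i r (s, b))
    (fun i => Function.update i r (s, a)) ?_ ?_ ?_ ?_ ?_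
  · intro i _
    rw [Finset.mem_filter]
    exact ⟨Finset.mem_univ _, by rw [Function.update_self]⟩
  · intro i _
    rw [Finset.mem_filter]
    exact ⟨Finset.mem_univ _, by rw [Function.update_self]⟩
  · intro i hi
    rw [Finset.mem_filter] at hi
    rw [Function.update_idem, ← hi.2, Function.update_eq_self]
  · intro i hi
    rw [Finset.mem_filter] at hi
    rw [Function.update_idem, ← hi.2, Function.update_eq_self]
  · intro i hi
    rw [Finset.mem_filter] at hi
    rw [Function.update_idem, ← hi.2, Function.update_eq_self]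

theorem Psd_SP (x y : (Fin d → Pl × Fin m) → ℂ) :
    Psd_ip x (SP y) = Psd_ip (SP x) y := by
  unfold Psd_ip SP
  have h1 : ∀ i : Fin d → Pl × Fin m,
      conj (x i) * (∑ r, ∑ r' ∈ univ.erase r,
        if (i r).1 = (i r').1 then y (i ∘ Equiv.swap r r') else 0) =
      ∑ r, ∑ r' ∈ univ.erase r,
        if (i r).1 = (i r').1 then conj (x i) * y (i ∘ Equiv.swap r r') else 0 := by
    intro i
    rw [Finset.mul_sum]
    refine Finset.sum_congr rfl fun r _ => ?_
    rw [Finset.mul_sum]
    refine Finset.sum_congr rfl fun r' _ => ?_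
    split_ifs
    · rfl
    · rw [mul_zero]
  have h2 : ∀ i : Fin d → Pl × Fin m,
      conj (∑ r, ∑ r' ∈ univ.erase r,
        if (i r).1 = (i r').1 then x (i ∘ Equiv.swap r r') else 0) * y i =
      ∑ r, ∑ r' ∈ univ.erase r,
        if (i r).1 = (i r').1 then conj (x (i ∘ Equiv.swap r r')) * y i else 0 := by
    intro i
    rw [map_sum, Finset.sum_mul]
    refine Finset.sum_congr rfl fun r _ => ?_
    rw [map_sum, Finset.sum_mul]
    refine Finset.sum_congr rfl fun r' _ => ?_
    split_ifs
    · rfl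
    · rw [map_zero, zero_mul]
  rw [Finset.sum_congr rfl fun i _ => h1 i, Finset.sum_congr rfl fun i _ => h2 i,
    Finset.sum_comm, Finset.sum_comm (s := (univ : Finset (Fin d → Pl × Fin m)))]
  refine Finset.sum_congr rfl fun r _ => ?_
  rw [Finset.sum_comm, Finset.sum_comm (s := (univ : Finset (Fin d → Pl × Fin m)))]
  refine Finset.sum_congr rfl fun r' _ => ?_
  refine Fintype.sum_equiv (Equiv.arrowCongr (Equiv.swap r r') (Equiv.refl (Pl × Fin m))) _ _
    fun i => ?_
  have h3 : (Equiv.arrowCongr (Equiv.swap r r') (Equiv.refl (Pl × Fin m))) i =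
      i ∘ Equiv.swap r r' := by
    funext k
    simp [Equiv.arrowCongr]
  rw [h3]
  have h4 : (i ∘ Equiv.swap r r') ∘ Equiv.swap r r' = i := by
    funext k
    simp
  rw [h4]
  simp only [Function.comp, Equiv.swap_apply_left, Equiv.swap_apply_right]
  by_cases h : (i r).1 = (i r').1
  · rw [if_pos h, if_pos h.symm]
  · rw [if_neg h, if_neg fun e => h e.symm]

theorem Psd_TT_eq (c : (Fin d → Pl × Fin m) → ℂ) :
    TT c = SP c + (((d : ℂ) * ((m : ℂ) - 1)) • c) := by
  funext i
  rfl

theorem Psd_ip_smul (a : ℂ) (x y : (Fin d → Pl × Fin m) → ℂ) :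
    Psd_ip x (a • y) = a * Psd_ip x y := by
  unfold Psd_ip
  rw [Finset.mul_sum]
  exact Finset.sum_congr rfl fun i _ => by
    rw [Pi.smul_apply, smul_eq_mul]
    ring

theorem Psd_smul_ip (a : ℂ) (ha : conj a = a) (x y : (Fin d → Pl × Fin m) → ℂ) :
    Psd_ip (a • x) y = a * Psd_ip x y := by
  unfold Psd_ip
  rw [Finset.mul_sum]
  exact Finset.sum_congr rfl fun i _ => by
    rw [Pi.smul_apply, smul_eq_mul, map_mul, ha]
    ring

theorem Psd_add_ip (x y z : (Fin d → Pl × Fin m) → ℂ) :
    Psd_ip (x + y) z = Psd_ip x z + Psd_ip y z := by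
  unfold Psd_ip
  rw [← Finset.sum_add_distrib]
  exact Finset.sum_congr rfl fun i _ => by rw [Pi.add_apply, map_add, add_mul]

theorem Psd_TT (x y : (Fin d → Pl × Fin m) → ℂ) :
    Psd_ip x (TT y) = Psd_ip (TT x) y := by
  have ha : conj ((d : ℂ) * ((m : ℂ) - 1)) = (d : ℂ) * ((m : ℂ) - 1) := by
    rw [map_mul, map_sub, map_one, map_natCast, map_natCast]
  rw [Psd_TT_eq, Psd_TT_eq, Psd_ip_add, Psd_add_ip, Psd_SP, Psd_ip_smul, Psd_smul_ip _ ha]

/-- the tuple with `(s, b)` at `r` and `r'` -/
def Psd_u (r r' : Fin d) (i : Fin d → Pl × Fin m) (b : Fin m) : Fin d → Pl × Fin m :=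
  Function.update (Function.update i r ((i r).1, b)) r' ((i r).1, b)

theorem Psd_u_l {r r' : Fin d} (hr : r ≠ r') (i : Fin d → Pl × Fin m) (b : Fin m) :
    Psd_u r r' i b r = ((i r).1, b) := by
  unfold Psd_u
  rw [Function.update_of_ne hr, Function.update_self]

theorem Psd_u_r {r r' : Fin d} (i : Fin d → Pl × Fin m) (b : Fin m) :
    Psd_u r r' i b r' = ((i r).1, b) := by
  unfold Psd_u
  rw [Function.update_self]

theorem Psd_u_u {r r' : Fin d} (hr : r ≠ r') (i : Fin d → Pl × Fin m) (b b' : Fin m) :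
    Psd_u r r' (Psd_u r r' i b) b' = Psd_u r r' i b' := by
  funext k
  by_cases h1 : k = r'
  · rw [h1, Psd_u_r, Psd_u_r, Psd_u_l hr]
  · by_cases h2 : k = r
    · rw [h2, Psd_u_l hr, Psd_u_l hr, Psd_u_l hr]
    · unfold Psd_u
      rw [Function.update_of_ne h1, Function.update_of_ne h2, Function.update_of_ne h1,
        Function.update_of_ne h2, Function.update_of_ne h1, Function.update_of_ne h2]

theorem Psd_u_self {r r' : Fin d} (i : Fin d → Pl × Fin m) (h : i r = i r') :
    Psd_u r r' i (i r).2 = i := by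
  unfold Psd_u
  have h1 : ((i r).1, (i r).2) = i r := rfl
  rw [h1, Function.update_eq_self, h, Function.update_eq_self]

/-- one pair of slots -/
theorem Psd_pair {r r' : Fin d} (hr : r ≠ r') (c : (Fin d → Pl × Fin m) → ℂ) :
    0 ≤ (∑ i : Fin d → Pl × Fin m, if i r = i r' then
      conj (c i) * ∑ b, c (Psd_u r r' i b) else 0).re := by
  rcases Nat.eq_zero_or_pos m with hm | hm
  · subst hm
    have : IsEmpty (Fin d → Pl × Fin 0) := ⟨fun i => (i r).2.elim0⟩
    rw [Fintype.sum_empty]
    exact le_refl _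
  · set G : (Fin d → Pl × Fin m) → ℂ := fun i => ∑ b, c (Psd_u r r' i b) with hG
    have hGu : ∀ i b, G (Psd_u r r' i b) = G i := by
      intro i b
      rw [hG]
      exact Finset.sum_congr rfl fun b' _ => by rw [Psd_u_u hr]
    set Q : Finset ((Fin d → Pl × Fin m) × Fin m) := univ.filter fun q => q.1 r = q.1 r' with hQ
    have h1 : ∑ q ∈ Q, conj (c q.1) * G q.1 =
        (m : ℂ) * ∑ i : Fin d → Pl × Fin m, if i r = i r' then conj (c i) * G i else 0 := by
      rw [hQ, Finset.sum_filter, Fintype.sum_prod_type, Finset.mul_sum]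
      refine Finset.sum_congr rfl fun i _ => ?_
      simp only
      rw [Finset.sum_const, Finset.card_univ, Fintype.card_fin, nsmul_eq_mul]
    have h2 : ∑ q ∈ Q, conj (c q.1) * G q.1 =
        ∑ q ∈ Q, conj (c (Psd_u r r' q.1 q.2)) * G q.1 := by
      refine Finset.sum_nbij' (fun q => (Psd_u r r' q.1 q.2, (q.1 r).2))
        (fun q => (Psd_u r r' q.1 q.2, (q.1 r).2)) ?_ ?_ ?_ ?_ ?_
      · intro q _
        rw [hQ, Finset.mem_filter]
        exact ⟨Finset.mem_univ _, by
          simp only
          rw [Psd_u_l hr, Psd_u_r]⟩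
      · intro q _
        rw [hQ, Finset.mem_filter]
        exact ⟨Finset.mem_univ _, by
          simp only
          rw [Psd_u_l hr, Psd_u_r]⟩
      · intro q hq
        rw [hQ, Finset.mem_filter] at hq
        refine Prod.ext ?_ ?_
        · simp only
          rw [Psd_u_u hr, Psd_u_self q.1 hq.2]
        · simp only
          rw [Psd_u_l hr]
      · intro q hq
        rw [hQ, Finset.mem_filter] at hq
        refine Prod.ext ?_ ?_
        · simp only
          rw [Psd_u_u hr, Psd_u_self q.1 hq.2]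
        · simp only
          rw [Psd_u_l hr]
      · intro q hq
        rw [hQ, Finset.mem_filter] at hq
        simp only
        rw [Psd_u_u hr, Psd_u_self q.1 hq.2, hGu]
    have h3 : ∑ q ∈ Q, conj (c (Psd_u r r' q.1 q.2)) * G q.1 =
        ((∑ i : Fin d → Pl × Fin m, if i r = i r' then Complex.normSq (G i) else 0 : ℝ) : ℂ) := by
      rw [hQ, Finset.sum_filter, Fintype.sum_prod_type, Complex.ofReal_sum]
      refine Finset.sum_congr rfl fun i _ => ?_
      simp only
      by_cases h : i r = i r'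
      · rw [if_pos h]
        simp only [if_pos h]
        rw [← Finset.sum_mul, ← map_sum]
        have h9 : ∑ x, c (Psd_u r r' i x) = G i := rfl
        rw [h9, mul_comm, ← Complex.mul_conj]
      · simp only [if_neg h]
        rw [Finset.sum_const_zero, Complex.ofReal_zero]
    have h4 : (m : ℂ) * (∑ i : Fin d → Pl × Fin m, if i r = i r' then conj (c i) * G i else 0) =
        ((∑ i : Fin d → Pl × Fin m, if i r = i r' then Complex.normSq (G i) else 0 : ℝ) : ℂ) := by
      rw [← h1, h2, h3]
    have h5 := congrArg Complex.re h4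
    rw [Complex.ofReal_re, ← Complex.ofReal_natCast, Complex.re_ofReal_mul] at h5
    have h6 : 0 ≤ ∑ i : Fin d → Pl × Fin m, if i r = i r' then Complex.normSq (G i) else 0 := by
      refine Finset.sum_nonneg fun i _ => ?_
      split_ifs
      · exact Complex.normSq_nonneg _
      · exact le_refl _
    rw [← h5] at h6
    have hm' : (0 : ℝ) < m := Nat.cast_pos.2 hm
    exact nonneg_of_mul_nonneg_right h6 hm'

theorem Psd_KP (c : (Fin d → Pl × Fin m) → ℂ) : 0 ≤ (Psd_ip c (KP c)).re := by
  have h1 : Psd_ip c (KP c) = ∑ r : Fin d, ∑ r' ∈ univ.erase r,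
      ∑ i : Fin d → Pl × Fin m, if i r = i r' then
        conj (c i) * ∑ b, c (Psd_u r r' i b) else 0 := by
    unfold Psd_ip KP
    have h2 : ∀ i : Fin d → Pl × Fin m,
        conj (c i) * (∑ r, ∑ r' ∈ univ.erase r, if i r = i r' then
          ∑ b, c (Function.update (Function.update i r ((i r).1, b)) r' ((i r).1, b)) else 0) =
        ∑ r, ∑ r' ∈ univ.erase r, if i r = i r' then
          conj (c i) * ∑ b, c (Psd_u r r' i b) else 0 := by
      intro i
      rw [Finset.mul_sum]
      refine Finset.sum_congr rfl fun r _ => ?_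
      rw [Finset.mul_sum]
      refine Finset.sum_congr rfl fun r' _ => ?_
      split_ifs
      · rfl
      · rw [mul_zero]
    rw [Finset.sum_congr rfl fun i _ => h2 i, Finset.sum_comm]
    refine Finset.sum_congr rfl fun r _ => ?_
    rw [Finset.sum_comm]
  rw [h1, Complex.re_sum]
  refine Finset.sum_nonneg fun r _ => ?_
  rw [Complex.re_sum]
  refine Finset.sum_nonneg fun r' hr' => ?_
  exact Psd_pair (Finset.ne_of_mem_erase hr').symm c

theorem Psd_sum_ip {ι : Type} (t : Finset ι) (x : (Fin d → Pl × Fin m) → ℂ)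
    (y : ι → (Fin d → Pl × Fin m) → ℂ) :
    Psd_ip x (fun i => ∑ k ∈ t, y k i) = ∑ k ∈ t, Psd_ip x (y k) := by
  unfold Psd_ip
  rw [Finset.sum_comm]
  exact Finset.sum_congr rfl fun i _ => Finset.mul_sum _ _ _

end psd

theorem thm_Psd (h : St_Cas) : St_Psd := by
  intro Pl _ _ m d c
  constructor
  · intro h0
    have e1 : ∑ s : Pl, ∑ a : Fin m, ∑ b : Fin m, Psd_ip c (DE s a b (DE s b a c)) =
        ((m : ℂ) * d) * Psd_ip c c + Psd_ip c (SP c) := by
      have h1 : (fun i => ∑ s : Pl, ∑ a : Fin m, ∑ b : Fin m, DE s a b (DE s b a c) i) =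
          ((m : ℂ) * d) • c + SP c := by
        funext i
        exact (h Pl m d c i).1
      have h2 := congrArg (Psd_ip c) h1
      rw [Psd_ip_add, Psd_ip_smul] at h2
      rw [← h2, Psd_sum_ip univ c fun s i => ∑ a : Fin m, ∑ b : Fin m, DE s a b (DE s b a c) i]
      refine Finset.sum_congr rfl fun s _ => ?_
      rw [Psd_sum_ip univ c fun a i => ∑ b : Fin m, DE s a b (DE s b a c) i]
      refine Finset.sum_congr rfl fun a _ => ?_
      rw [Psd_sum_ip univ c fun b i => DE s a b (DE s b a c) i]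
    have e2 : ∑ s : Pl, ∑ a : Fin m, ∑ b : Fin m, Psd_ip c (DE s a b (DE s a b c)) =
        (d : ℂ) * Psd_ip c c + Psd_ip c (KP c) := by
      have h1 : (fun i => ∑ s : Pl, ∑ a : Fin m, ∑ b : Fin m, DE s a b (DE s a b c) i) =
          (d : ℂ) • c + KP c := by
        funext i
        exact (h Pl m d c i).2
      have h2 := congrArg (Psd_ip c) h1
      rw [Psd_ip_add, Psd_ip_smul] at h2
      rw [← h2, Psd_sum_ip univ c fun s i => ∑ a : Fin m, ∑ b : Fin m, DE s a b (DE s a b c) i]
      refine Finset.sum_congr rfl fun s _ => ?_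
      rw [Psd_sum_ip univ c fun a i => ∑ b : Fin m, DE s a b (DE s a b c) i]
      refine Finset.sum_congr rfl fun a _ => ?_
      rw [Psd_sum_ip univ c fun b i => DE s a b (DE s a b c) i]
    have e3 : ∑ s : Pl, ∑ a : Fin m, ∑ b : Fin m, Psd_ip c (DE s b a (DE s a b c)) =
        ((m : ℂ) * d) * Psd_ip c c + Psd_ip c (SP c) := by
      rw [← e1]
      refine Finset.sum_congr rfl fun s _ => ?_
      rw [Finset.sum_comm]
    have e4 : ∑ s : Pl, ∑ a : Fin m, ∑ b : Fin m, Psd_ip c (DE s b a (DE s b a c)) =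
        (d : ℂ) * Psd_ip c c + Psd_ip c (KP c) := by
      rw [← e2]
      refine Finset.sum_congr rfl fun s _ => ?_
      rw [Finset.sum_comm]
    have e5 : ∀ (s : Pl) (a b : Fin m),
        Psd_ip (DE s a b c - DE s b a c) (DE s a b c - DE s b a c) =
        Psd_ip c (DE s b a (DE s a b c)) - Psd_ip c (DE s b a (DE s b a c)) -
          Psd_ip c (DE s a b (DE s a b c)) + Psd_ip c (DE s a b (DE s b a c)) := by
      intro s a b
      rw [Psd_ip_sub, Psd_sub_ip, Psd_sub_ip, Psd_DE s b a c (DE s a b c),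
        Psd_DE s b a c (DE s b a c), Psd_DE s a b c (DE s a b c), Psd_DE s a b c (DE s b a c)]
      ring
    have e6 : ∑ s : Pl, ∑ a : Fin m, ∑ b : Fin m,
        Psd_ip (DE s a b c - DE s b a c) (DE s a b c - DE s b a c) =
        2 * Psd_ip c (TT c) - 2 * Psd_ip c (KP c) := by
      rw [Psd_TT_eq, Psd_ip_add, Psd_ip_smul]
      have : ∑ s : Pl, ∑ a : Fin m, ∑ b : Fin m,
          Psd_ip (DE s a b c - DE s b a c) (DE s a b c - DE s b a c) =
          ((∑ s : Pl, ∑ a : Fin m, ∑ b : Fin m, Psd_ip c (DE s b a (DE s a b c))) -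
          (∑ s : Pl, ∑ a : Fin m, ∑ b : Fin m, Psd_ip c (DE s b a (DE s b a c))) -
          ∑ s : Pl, ∑ a : Fin m, ∑ b : Fin m, Psd_ip c (DE s a b (DE s a b c))) +
          ∑ s : Pl, ∑ a : Fin m, ∑ b : Fin m, Psd_ip c (DE s a b (DE s b a c)) := by
        simp only [← Finset.sum_sub_distrib, ← Finset.sum_add_distrib]
        exact Finset.sum_congr rfl fun s _ => Finset.sum_congr rfl fun a _ =>
          Finset.sum_congr rfl fun b _ => e5 s a b
      rw [this, e1, e2, e3, e4]
      ring
    have e7 : Psd_ip c (TT c) = 0 := by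
      rw [h0]
      unfold Psd_ip
      exact Finset.sum_eq_zero fun i _ => by rw [Pi.zero_apply, mul_zero]
    rw [e7, mul_zero, zero_sub] at e6
    have e8 := congrArg Complex.re e6
    rw [Complex.re_sum, Complex.neg_re, Complex.mul_re] at e8
    have e9 := Psd_KP c
    have e10 : ∑ s : Pl, (∑ a : Fin m, ∑ b : Fin m,
        Psd_ip (DE s a b c - DE s b a c) (DE s a b c - DE s b a c)).re ≤ 0 := by
      rw [e8]
      simp only [Complex.re_ofNat, Complex.im_ofNat, zero_mul, sub_zero]
      linarith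
    have e11 : ∀ (s : Pl) (a b : Fin m), DE s a b c - DE s b a c = 0 := by
      intro s a b
      refine Psd_ip_eq_zero ?_
      refine le_trans ?_ e10
      refine le_trans ?_ (Finset.single_le_sum (f := fun s => (∑ a : Fin m, ∑ b : Fin m,
        Psd_ip (DE s a b c - DE s b a c) (DE s a b c - DE s b a c)).re) (fun s' _ => ?_)
        (Finset.mem_univ s))
      · rw [Complex.re_sum]
        refine le_trans ?_ (Finset.single_le_sum (f := fun a => (∑ b : Fin m,
          Psd_ip (DE s a b c - DE s b a c) (DE s a b c - DE s b a c)).re) (fun a' _ => ?_)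
          (Finset.mem_univ a))
        · rw [Complex.re_sum]
          exact Finset.single_le_sum (f := fun b =>
            (Psd_ip (DE s a b c - DE s b a c) (DE s a b c - DE s b a c)).re)
            (fun b' _ => Psd_ip_re_nonneg _) (Finset.mem_univ b)
        · rw [Complex.re_sum]
          exact Finset.sum_nonneg fun b' _ => Psd_ip_re_nonneg _
      · rw [Complex.re_sum]
        refine Finset.sum_nonneg fun a' _ => ?_
        rw [Complex.re_sum]
        exact Finset.sum_nonneg fun b' _ => Psd_ip_re_nonneg _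
    intro i s a b hab
    have e12 := congrFun (e11 s a b) i
    rw [Pi.sub_apply, Pi.zero_apply] at e12
    refine Eq.trans ?_ e12
    unfold DE
    rw [← Finset.sum_sub_distrib]
    refine Finset.sum_congr rfl fun r _ => ?_
    by_cases h1 : i r = (s, a)
    · have h2 : i r ≠ (s, b) := by
        rw [h1]
        intro e
        exact hab (Prod.mk.inj e).2
      rw [if_pos h1, if_pos h1, if_neg h2, sub_zero]
    · rw [if_neg h1, if_neg h1, zero_sub]
      by_cases h2 : i r = (s, b)
      · rw [if_pos h2, if_pos h2]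
      · rw [if_neg h2, if_neg h2, neg_zero]
  · intro h0
    refine Psd_ip_eq_zero ?_
    rw [← Psd_TT c (TT c), h0]
    unfold Psd_ip
    rw [Finset.sum_eq_zero fun i _ => by rw [Pi.zero_apply, mul_zero]]
    exact le_of_eq Complex.zero_re

end Pool.Agent.K3P
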