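import Pool.Agent.K3P.St

/-!
K3P: the forms `q(z x, y)` are rational on the Betti structure and algebraic on the de Rham structure.
-/

set_option autoImplicit false

namespace Pool.Agent.K3P

open Module Matrix NumberField Pool.Agent.Helper7 Pool.Agent.KS Pool.Agent.Ball Pool.Agent.KSE
open Pool.Agent.GPC (TC)

section

variable {K : Type} [Field K] [NumberField K] {m : ℕ}

/-- rational values -/
lemma Rev_rat (c : K →+* K) (h : Matrix (Fin m) (Fin m) K)
    (hc : ∀ (σ : K →+* ℂ) (x : K), cj σ x = σ (c x)) (z : K) (x y : Fin m → K) :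
    qz h z (emb x) (emb y) = ((Algebra.trace ℚ K (z * ∑ a, ∑ b, x a * (h a b * c (y b))) : ℚ) : ℂ) := by
  rw [← sum_emb]
  simp only [qz, pr, emb, dotProduct, mulVec, Matrix.map_apply, map_mul, map_sum]
  refine Finset.sum_congr rfl fun σ _ => ?_
  congr 1
  refine Finset.sum_congr rfl fun a _ => ?_
  rw [Finset.mul_sum]
  refine Finset.sum_congr rfl fun b _ => ?_
  rw [hc]

/-- sums of algebraic numbers -/
lemma Rev_sum {ι : Type*} (s : Finset ι) (f : ι → ℂ) (h : ∀ i ∈ s, IsAlgebraic ℚ (f i)) :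
    IsAlgebraic ℚ (∑ i ∈ s, f i) := by
  classical
  induction s using Finset.induction_on with
  | empty => rw [Finset.sum_empty]; exact isAlgebraic_zero
  | insert a s ha ih =>
    rw [Finset.sum_insert ha]
    exact (h a (Finset.mem_insert_self a s)).add
      (ih fun i hi => h i (Finset.mem_insert_of_mem hi))

/-- the images of the elements of `K` are algebraic -/
lemma Rev_emb (σ : K →+* ℂ) (z : K) : IsAlgebraic ℚ (σ z) := by
  have h1 : IsIntegral ℚ z := Algebra.IsIntegral.isIntegral z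
  have h2 : IsIntegral ℚ (σ.toRatAlgHom z) := h1.map σ.toRatAlgHom
  exact h2.isAlgebraic

omit [NumberField K] in
/-- the pairing of two linear combinations -/
lemma Rev_pr (h : Matrix (Fin m) (Fin m) K) (σ : K →+* ℂ) {ι ι' : Type*} (s : Finset ι)
    (s' : Finset ι') (u : ι → ℂ) (w : ι' → ℂ) (f : ι → Fin m → ℂ) (f' : ι' → Fin m → ℂ) :
    pr h σ (∑ b ∈ s, u b • f b) (∑ b' ∈ s', w b' • f' b') =
      ∑ b ∈ s, ∑ b' ∈ s', u b * (w b' * pr h σ (f b) (f' b')) := by
  rw [pr, sum_dotProduct]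
  refine Finset.sum_congr rfl fun b _ => ?_
  rw [Matrix.mulVec_sum, dotProduct_sum]
  refine Finset.sum_congr rfl fun b' _ => ?_
  rw [pr, Matrix.mulVec_smul, smul_dotProduct, dotProduct_smul, smul_eq_mul, smul_eq_mul]

end

/-- the generators are Grothendieck classes -/
theorem thm_Rev (hD : St_Drb) : St_Rev := by
  intro κ _ _ _ ϖ P K _ _ c m h t S
  refine ⟨fun z x y => ⟨_, Rev_rat c h S.conj z x y⟩, ?_⟩
  intro z x y hx hy
  obtain ⟨g, h1, h2, -⟩ := hD κ ϖ P K c m h t S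
  obtain ⟨u, hu, hxu⟩ := (h1 x).1 hx
  obtain ⟨w, hw, hyw⟩ := (h1 y).1 hy
  rw [qz]
  refine Rev_sum _ _ fun σ _ => (Rev_emb σ z).mul ?_
  rw [hxu σ, hyw (cj σ), Rev_pr]
  exact Rev_sum _ _ fun b _ => Rev_sum _ _ fun b' _ =>
    (hu σ b).mul ((hw (cj σ) b').mul (h2 σ b b'))

end Pool.Agent.K3P
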