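import Pool.Agent.K3P.St

set_option autoImplicit false

namespace Pool.Agent.K3P

open Module Matrix NumberField Pool.Agent.Helper7 Pool.Agent.KS Pool.Agent.Ball Pool.Agent.KSE
open Pool.Agent.GPC (AbVar TC IsRatT qf HX IsGrK3 IsBasicK3 IsGenK3)

theorem Rtb_cc {K : Type} [Field K] [NumberField K] (c : K →+* K)
    (hc : ∀ (σ : K →+* ℂ) (x : K), cj σ x = σ (c x)) (x : K) : c (c x) = x := by
  obtain ⟨σ⟩ : Nonempty (K →+* ℂ) := inferInstance
  apply σ.injective
  rw [← hc σ (c x)]
  have h1 : cj σ (c x) = starRingEnd ℂ (σ (c x)) := rfl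
  rw [h1, ← hc σ x]
  have h2 : cj σ x = starRingEnd ℂ (σ x) := rfl
  rw [h2, Complex.conj_conj]

/-- a vector with rational traces against `K` comes from `K` -/
theorem Rtb_dual {K : Type} [Field K] [NumberField K] (W : (K →+* ℂ) → ℂ)
    (hW : ∀ z : K, ∃ p : ℚ, ∑ σ : K →+* ℂ, W σ * σ z = p) : ∃ g : K, ∀ σ, W σ = σ g := by
  classical
  choose q hq using hW
  refine ⟨∑ j, q (bas K j) • dbas K j, fun τ => ?_⟩
  rw [map_sum]
  have h1 : ∀ j, τ (q (bas K j) • dbas K j) = τ (dbas K j) * (q (bas K j) : ℂ) := by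
    intro j
    rw [Algebra.smul_def, map_mul, mul_comm]
    congr 1
    simp
  simp only [h1, ← hq]
  simp only [Finset.mul_sum]
  rw [Finset.sum_comm]
  have h2 : ∀ σ : K →+* ℂ, ∑ j, τ (dbas K j) * (W σ * σ (bas K j)) =
      W σ * if τ = σ then 1 else 0 := by
    intro σ
    rw [← sum_dbas_bas τ σ, Finset.mul_sum]
    exact Finset.sum_congr rfl fun j _ => by ring
  simp only [h2]
  simp

theorem thm_Rtb : St_Rtb := by
  intro K _ _ c m h hc hherm hdet
  classical
  have hcc := Rtb_cc c hc
  have hq : ∀ (w : TC K m) (y : Fin m → K), qT h w (emb y) =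
      ∑ b, ∑ σ : K →+* ℂ, (∑ a, w σ a * σ (h a b)) * σ (c (y b)) := by
    intro w y
    unfold qT pr
    rw [Finset.sum_comm]
    refine Finset.sum_congr rfl fun σ _ => ?_
    simp only [Finset.sum_mul, dotProduct, mulVec, Finset.mul_sum, Matrix.map_apply]
    rw [Finset.sum_comm]
    refine Finset.sum_congr rfl fun b _ => Finset.sum_congr rfl fun a _ => ?_
    have h1 : emb y (cj σ) b = σ (c (y b)) := hc σ (y b)
    rw [h1]
    ring
  refine ⟨?_, ?_, ?_⟩
  · intro x y
    refine ⟨∑ b, Algebra.trace ℚ K ((∑ a, x a * h a b) * c (y b)), ?_⟩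
    rw [hq, Rat.cast_sum]
    refine Finset.sum_congr rfl fun b _ => ?_
    rw [← sum_emb]
    refine Finset.sum_congr rfl fun σ _ => ?_
    simp [emb, map_sum, map_mul]
  · rw [eq_top_iff]
    intro w _
    have h1 : w = ∑ σ : K →+* ℂ, ∑ a, w σ a • ∑ b, σ (dbas K b) •
        (emb (Pi.single a (bas K b)) : TC K m) := by
      funext τ a'
      simp only [Finset.sum_apply, Pi.smul_apply, smul_eq_mul]
      have h2 : ∀ (σ : K →+* ℂ) (a : Fin m), ∑ b, σ (dbas K b) *
          (emb (Pi.single a (bas K b)) : TC K m) τ a' =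
          if σ = τ then (if a = a' then 1 else 0) else 0 := by
        intro σ a
        by_cases ha : a = a'
        · subst ha
          have h3 : ∀ b, (emb (Pi.single a (bas K b)) : TC K m) τ a = τ (bas K b) := by
            intro b
            simp [emb]
          simp only [h3, sum_dbas_bas, if_true]
        · have h3 : ∀ b, (emb (Pi.single a (bas K b)) : TC K m) τ a' = 0 := by
            intro b
            have : (Pi.single a (bas K b) : Fin m → K) a' = 0 :=
              Pi.single_eq_of_ne (fun h => ha h.symm) _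
            simp [emb, this]
          simp [h3, ha]
      simp only [h2]
      simp
    rw [h1]
    refine Submodule.sum_mem _ fun σ _ => Submodule.sum_mem _ fun a _ =>
      Submodule.smul_mem _ _ (Submodule.sum_mem _ fun b _ => Submodule.smul_mem _ _ ?_)
    exact Submodule.subset_span ⟨_, rfl⟩
  · intro w hw
    have h1 : ∀ b : Fin m, ∃ g : K, ∀ σ : K →+* ℂ, ∑ a, w σ a * σ (h a b) = σ g := by
      intro b
      refine Rtb_dual _ fun z => ?_
      obtain ⟨p, hp⟩ := hw (Pi.single b (c z))
      refine ⟨p, ?_⟩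
      rw [← hp, hq]
      rw [Finset.sum_eq_single b]
      · simp [hcc]
      · intro b' _ hb
        have : (Pi.single b (c z) : Fin m → K) b' = 0 := Pi.single_eq_of_ne hb _
        simp [this]
      · intro hb; exact absurd (Finset.mem_univ b) hb
    choose g hg using h1
    refine ⟨fun a => ∑ b, g b * h⁻¹ b a, ?_⟩
    funext σ a
    have h2 : h * h⁻¹ = 1 := Matrix.mul_nonsing_inv h (isUnit_iff_ne_zero.2 hdet)
    unfold emb
    rw [map_sum]
    have h3 : ∀ b, σ (g b * h⁻¹ b a) = ∑ a', w σ a' * (σ (h a' b) * σ (h⁻¹ b a)) := by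
      intro b
      rw [map_mul, ← hg b σ, Finset.sum_mul]
      exact Finset.sum_congr rfl fun a' _ => by ring
    simp only [h3]
    rw [Finset.sum_comm]
    have h4 : ∀ a', ∑ b, w σ a' * (σ (h a' b) * σ (h⁻¹ b a)) =
        w σ a' * if a' = a then 1 else 0 := by
      intro a'
      rw [← Finset.mul_sum]
      congr 1
      have h5 := congrFun (congrFun h2 a') a
      rw [Matrix.mul_apply, Matrix.one_apply] at h5
      have h6 := congrArg σ h5
      rw [map_sum] at h6
      simp only [map_mul] at h6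
      rw [h6]
      split_ifs <;> simp
    simp only [h4]
    simp

end Pool.Agent.K3P
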