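import Pool.Agent.K3P.StD

/-!
# K3P, RVD: determinants are Grothendieck classes
-/

set_option autoImplicit false

namespace Pool.Agent.K3P

open Module Matrix NumberField Pool.Agent.Helper7 Pool.Agent.KS Pool.Agent.Ball Pool.Agent.KSE
open Pool.Agent.GPC (TC df)

lemma Rvd_sum {ι : Type*} (s : Finset ι) (f : ι → ℂ) (h : ∀ i ∈ s, IsAlgebraic ℚ (f i)) :
    IsAlgebraic ℚ (∑ i ∈ s, f i) := by
  have h1 : ∑ i ∈ s, f i ∈ algebraicClosure ℚ ℂ :=
    sum_mem fun i hi => mem_algebraicClosure_iff.mpr (h i hi)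
  exact mem_algebraicClosure_iff.mp h1

lemma Rvd_det {m : ℕ} (G : Matrix (Fin m) (Fin m) ℂ) (hG : ∀ a b, IsAlgebraic ℚ (G a b)) :
    IsAlgebraic ℚ G.det := by
  let G0 : Matrix (Fin m) (Fin m) (algebraicClosure ℚ ℂ) :=
    fun a b => ⟨G a b, mem_algebraicClosure_iff.mpr (hG a b)⟩
  have hG0 : G = G0.map (algebraMap (algebraicClosure ℚ ℂ) ℂ) := rfl
  have h1 : G.det = algebraMap (algebraicClosure ℚ ℂ) ℂ G0.det := by
    rw [hG0, ← RingHom.mapMatrix_apply, ← RingHom.map_det]
  rw [h1]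
  exact mem_algebraicClosure_iff.mp G0.det.2

theorem thm_Rvd (h : St_Drb) : St_Rvd := by
  intro κ _ _ _ ϖ P K _ _ c m h' t S
  obtain ⟨g, hg1, hg2, -⟩ := h κ ϖ P K c m h' t S
  constructor
  · intro z x
    refine ⟨Algebra.trace ℚ K (z * (Matrix.of fun j k => x j k).det), ?_⟩
    rw [df, ← sum_emb]
    refine Finset.sum_congr rfl fun σ _ => ?_
    rw [map_mul, RingHom.map_det]
    rfl
  · intro hc z x hx
    rw [df]
    choose y hy1 hy2 using fun j => (hg1 (x j)).mp (hx j)
    refine Rvd_sum _ _ fun σ _ => ?_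
    have hσ : cj σ = σ := by
      ext w
      rw [S.conj, hc]
      rfl
    have hz : ∀ w : K, IsAlgebraic ℚ (σ w) := fun w =>
      IsAlgebraic.algHom σ.toRatAlgHom (Algebra.IsAlgebraic.isAlgebraic (R := ℚ) w)
    refine (hz z).mul ?_
    have e1 : (Matrix.of fun j k => x j σ k) =
        (Matrix.of fun j b => y j σ b) * (Matrix.of fun b k => g σ b k) := by
      ext j k
      rw [Matrix.mul_apply, Matrix.of_apply, hy2 j σ, Finset.sum_apply]
      rfl
    rw [e1, Matrix.det_mul]
    refine (Rvd_det _ fun j b => hy1 j σ b).mul ?_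
    have e2 : (Matrix.of fun b b' => pr h' σ (g σ b) (g σ b')) =
        (Matrix.of fun b k => g σ b k) * (h'.map σ) * (Matrix.of fun b k => g σ b k)ᵀ := by
      ext b b'
      rw [Matrix.mul_assoc, Matrix.mul_apply, Matrix.of_apply, pr, dotProduct]
      refine Finset.sum_congr rfl fun k _ => ?_
      rw [Matrix.mul_apply, Matrix.mulVec, dotProduct]
      rfl
    have e3 : IsAlgebraic ℚ ((Matrix.of fun b b' => pr h' σ (g σ b) (g σ b')).det) := by
      refine Rvd_det _ fun b b' => ?_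
      have h3 := hg2 σ b b'
      rw [hσ] at h3
      exact h3
    rw [e2, Matrix.det_mul, Matrix.det_mul, Matrix.det_transpose] at e3
    have e4 : (h'.map σ).det = σ h'.det := (RingHom.map_det σ h').symm
    have e5 : σ h'.det ≠ 0 := (map_ne_zero σ).mpr S.nd
    rw [e4] at e3
    have e6 := e3.mul (hz h'.det⁻¹)
    have e7 : (Matrix.of fun b k => g σ b k).det * σ h'.det * (Matrix.of fun b k => g σ b k).det *
        σ h'.det⁻¹ = (Matrix.of fun b k => g σ b k).det ^ 2 := by
      rw [map_inv₀]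
      field_simp
    rw [e7] at e6
    exact e6.of_pow (by norm_num)

end Pool.Agent.K3P
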