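import Pool.Agent.K3P.Ffd

/-!
# K3P, STB: the span of the explicit tensors is stable
-/

set_option autoImplicit false

namespace Pool.Agent.K3P

section

variable {Pl : Type} [DecidableEq Pl] {m d : ℕ}

/-- the places of the slots -/
def Stb_p {l l₁ : ℕ} (e : (Fin l × Fin 2) ⊕ (Fin l₁ × Fin m) ≃ Fin d) (s : Fin l → Pl)
    (s₁ : Fin l₁ → Pl) (r : Fin d) : Pl :=
  Sum.elim (fun x => s x.1) (fun x => s₁ x.1) (e.symm r)

lemma Stb_places {l l₁ : ℕ} (e : (Fin l × Fin 2) ⊕ (Fin l₁ × Fin m) ≃ Fin d) (s : Fin l → Pl)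
    (s₁ : Fin l₁ → Pl) (j : Fin d → Pl × Fin m) (hj : dd e s s₁ j ≠ 0) (r : Fin d) :
    (j r).1 = Stb_p e s s₁ r := by
  rw [dd] at hj
  have h1 := left_ne_zero_of_mul hj
  have h2 := right_ne_zero_of_mul hj
  rw [Finset.prod_ne_zero_iff] at h1 h2
  rw [Stb_p]
  obtain ⟨x, rfl⟩ := e.surjective r
  rw [Equiv.symm_apply_apply]
  rcases x with ⟨a, k⟩ | ⟨b, k⟩
  · have h3 := h1 a (Finset.mem_univ a)
    have h4 : j (e (.inl (a, 0))) = j (e (.inl (a, 1))) ∧ (j (e (.inl (a, 0)))).1 = s a := by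
      by_contra h
      exact h3 (if_neg h)
    show (j (e (.inl (a, k)))).1 = s a
    rcases Fin.exists_fin_two.mp ⟨k, rfl⟩ with h5 | h5
    · rw [h5, h4.2]
    · rw [h5, ← h4.1, h4.2]
  · have h3 := h2 b (Finset.mem_univ b)
    show (j (e (.inr (b, k)))).1 = s₁ b
    by_contra h
    apply h3
    apply Matrix.det_eq_zero_of_row_eq_zero k
    intro k'
    rw [Matrix.of_apply, if_neg]
    intro h4
    exact h (by rw [h4])

lemma Stb_term {l l₁ : ℕ} (e : (Fin l × Fin 2) ⊕ (Fin l₁ × Fin m) ≃ Fin d) (s : Fin l → Pl)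
    (s₁ : Fin l₁ → Pl) (i : Fin d → Pl × Fin m) (r r' : Fin d) :
    (if (i r).1 = (i r').1 then dd e s s₁ (i ∘ Equiv.swap r r') else 0) =
      if Stb_p e s s₁ r = Stb_p e s s₁ r' then dd (e.trans (Equiv.swap r r')) s s₁ i else 0 := by
  have h1 : dd (e.trans (Equiv.swap r r')) s s₁ i = dd e s s₁ (i ∘ Equiv.swap r r') := rfl
  rw [h1]
  by_cases h2 : dd e s s₁ (i ∘ Equiv.swap r r') = 0
  · rw [h2, ite_self, ite_self]
  · have h3 := Stb_places e s s₁ _ h2 r
    have h4 := Stb_places e s s₁ _ h2 r'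
    rw [Function.comp_apply, Equiv.swap_apply_left] at h3
    rw [Function.comp_apply, Equiv.swap_apply_right] at h4
    rw [← h3, ← h4]
    by_cases h5 : (i r).1 = (i r').1
    · rw [if_pos h5, if_pos h5.symm]
    · rw [if_neg h5, if_neg fun h => h5 h.symm]

end

theorem thm_Stb : St_Stb := by
  intro Pl _ _ m d c hc
  induction hc using Submodule.span_induction with
  | mem x hx =>
    obtain ⟨l, l₁, e, s, s₁, rfl⟩ := hx
    have h1 : TT (dd e s s₁) = (∑ r, ∑ r' ∈ Finset.univ.erase r,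
        (if Stb_p e s s₁ r = Stb_p e s s₁ r' then dd (e.trans (Equiv.swap r r')) s s₁ else 0)) +
        ((d : ℂ) * ((m : ℂ) - 1)) • dd e s s₁ := by
      funext i
      rw [Pi.add_apply, Finset.sum_apply]
      show SP (dd e s s₁) i + _ = _ + ((d : ℂ) * ((m : ℂ) - 1)) * dd e s s₁ i
      congr 1
      rw [SP]
      refine Finset.sum_congr rfl fun r _ => ?_
      rw [Finset.sum_apply]
      refine Finset.sum_congr rfl fun r' _ => ?_
      rw [Stb_term]
      split_ifs
      · rfl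
      · rfl
    rw [h1]
    refine Submodule.add_mem _ (Submodule.sum_mem _ fun r _ => Submodule.sum_mem _ fun r' _ => ?_)
      (Submodule.smul_mem _ _ (Submodule.subset_span ⟨l, l₁, e, s, s₁, rfl⟩))
    split_ifs
    · exact Submodule.subset_span ⟨l, l₁, _, s, s₁, rfl⟩
    · exact Submodule.zero_mem _
  | zero =>
    have h0 : TT (0 : (Fin d → Pl × Fin m) → ℂ) = 0 := by
      have h1 := Ffd_smul (0 : ℂ) (0 : (Fin d → Pl × Fin m) → ℂ)
      rwa [zero_smul, zero_smul] at h1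
    rw [h0]
    exact Submodule.zero_mem _
  | add x y _ _ hx hy =>
    rw [Ffd_add]
    exact Submodule.add_mem _ hx hy
  | smul z x _ hx =>
    rw [Ffd_smul]
    exact Submodule.smul_mem _ _ hx

end Pool.Agent.K3P
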