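import Pool.Agent.K3P.Asm
import Pool.Agent.K3P.Drb
import Pool.Agent.K3P.Rtb
import Pool.Agent.K3P.Bet
import Pool.Agent.K3P.Inv
import Pool.Agent.K3P.Cas
import Pool.Agent.K3P.Psd
import Pool.Agent.K3P.Glk
import Pool.Agent.K3P.Ker
import Pool.Agent.K3P.Cof
import Pool.Agent.K3P.Stb
import Pool.Agent.K3P.Ffd
import Pool.Agent.K3P.Ord
import Pool.Agent.K3P.Dsd
import Pool.Agent.K3P.Mxd
import Pool.Agent.K3P.Rev
import Pool.Agent.K3P.Rvd

/-!
# K3P: Grothendieck classes on all powers of a K3 surface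
-/

set_option autoImplicit false

namespace Pool.Agent.K3P

open Pool.Agent.GPC (AbVar HX IsGrK3 IsGenPow)

theorem Ffd_ : St_Ffd :=
  thm_Ffd thm_Cas (thm_Psd thm_Cas) (thm_Glk (thm_Psd thm_Cas)) (thm_Ker thm_Cas) thm_Cof thm_Stb

theorem main {A : AbVar} {K : Type} [Field K] [NumberField K] {c : K →+* K} {m : ℕ}
    (S : A.KugaSatakeMul K c m) (hg : A.g ≠ 0) (hK : Adm S) (r n : ℕ)
    (F : MultilinearMap ℂ (fun _ : Fin n => HX r K m) ℂ) :
    IsGrK3 S r n F ↔ IsGenPow c S.h r n F :=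
  asm (thm_Inv (thm_Bet thm_Drb thm_Rtb)) (thm_Ord Ffd_) thm_Dsd thm_Mxd (thm_Rev thm_Drb)
    (thm_Rvd thm_Drb) S hg hK r n F

end Pool.Agent.K3P
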