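import Pool.Agent.K3P.Types
import Pool.Agent.KSE.Ts

/-!
# K3P: Grothendieck classes on powers of K3 surfaces. Definitions and frozen statements

Every module `Pool/Agent/K3P/<X>.lean` imports this file and proves `theorem thm_<X> : St_<X>` (with the
hypotheses named in the docstring), namespace `Pool.Agent.K3P`, own lemmas with names starting with
the name of the module. The docstrings contain the proofs.
-/

set_option autoImplicit false

namespace Pool.Agent.K3P

open Module Matrix NumberField Pool.Agent.Helper7 Pool.Agent.KS Pool.Agent.Ball Pool.Agent.KSE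
open Pool.Agent.GPC (AbVar TC IsRatT qf HX IsGrK3 IsBasicK3 IsGenK3)

section defs

variable {K : Type} [Field K] [NumberField K] {m : ℕ}

/-- an element of `T = K^m` in `T ⊗ ℂ` -/
def emb (x : Fin m → K) : TC K m := fun σ a => σ (x a)

/-- the operator of a vector of `T ⊗ ℂ` -/
noncomputable def opT {V : Type} [AddCommGroup V] [Module ℂ V] (t : Fin m → K → Module.End ℂ V)
    (x : TC K m) : Module.End ℂ V := ∑ σ : K →+* ℂ, tau (ts t σ) (x σ)

/-- the form on `T ⊗ ℂ` -/
noncomputable def qT (h : Matrix (Fin m) (Fin m) K) (x y : TC K m) : ℂ :=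
  ∑ σ : K →+* ℂ, pr h σ (x σ) (y (cj σ))

/-- the form `q(z x, y)` -/
noncomputable def qz (h : Matrix (Fin m) (Fin m) K) (z : K) (x y : TC K m) : ℂ :=
  ∑ σ : K →+* ℂ, σ z * pr h σ (x σ) (y (cj σ))

/-- de Rham vectors -/
def DR {κ : Type} [Fintype κ] [DecidableEq κ] (t : Fin m → K → Module.End ℂ (κ → ℂ))
    (x : TC K m) : Prop := ∀ i j, IsAlgebraic ℚ (opT t x (Pi.single i 1) j)

/-- the Lie algebra of the structure kills all Grothendieck forms on `H_1` -/
def Kill {κ : Type} [Fintype κ] [DecidableEq κ] {ϖ : ℂ} (P : PData κ ϖ)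
    (t : Fin m → K → Module.End ℂ (κ → ℂ)) : Prop :=
  ∀ (k : ℕ) (α : MultilinearMap ℂ (fun _ : Fin (2 * k) => κ → ℂ) ℂ),
    (∀ v : Fin (2 * k) → κ → ℂ, (∀ r, v r ∈ P.Q) → ∃ p : ℚ, α v = ϖ ^ k * p) →
    (∀ v : Fin (2 * k) → κ → ℂ, (∀ r j, IsAlgebraic ℚ (v r j)) → IsAlgebraic ℚ (α v)) →
    ∀ Z ∈ bvS t, actForm Z α = 0

/-- products of pairings at places -/
def PP (h : Matrix (Fin m) (Fin m) K) (d : ℕ) :
    Set (MultilinearMap ℂ (fun _ : Fin d => TC K m) ℂ) :=
  {ω | ∃ (l : ℕ) (e : Fin l × Fin 2 ≃ Fin d) (s : Fin l → (K →+* ℂ)), ∀ v, ω v =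
    ∏ a, pr h (s a) (v (e (a, 0)) (s a)) (v (e (a, 1)) (cj (s a)))}

/-- rational combinations of products of forms `q(z x, y)` -/
def GenT (h : Matrix (Fin m) (Fin m) K) (d : ℕ)
    (F : MultilinearMap ℂ (fun _ : Fin d => TC K m) ℂ) : Prop :=
  ∃ (N l : ℕ) (p : Fin N → ℚ) (e : Fin N → (Fin l × Fin 2 ≃ Fin d)) (z : Fin N → Fin l → K),
    ∀ v, F v = ∑ j, (p j : ℂ) * ∏ a, qz h (z j a) (v (e j (a, 0))) (v (e j (a, 1)))

end defs

/-- **DRB.**  The de Rham structure of `T`.  PROOF.  Take `g σ b = fun a => g a b` for the matrix `g` of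
`S.alg σ`; these are bases of `ℂ^m` (`IsUnit`), and `opT t (Pi.single σ (g σ b))` is the operator in `S.alg`
(so its entries are algebraic).  (2) `opT t (Pi.single σ x) * opT t (Pi.single (cj σ) y) + (the other
order) = (2 * pr h σ x y) • 1` (`tau_pair`); compare an entry on the diagonal (`Nonempty κ`).
(3) If `pr h σ (x σ) (g (cj σ) b)` is algebraic for all `σ, b`: write `x σ = ∑ b', y σ b' • g σ b'`; the
matrix `pr h σ (g σ b') (g (cj σ) b)` has algebraic entries and is invertible (`pr_nd S.nd`), so its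
inverse has algebraic entries (adjugate / determinant), and the `y σ b'` are algebraic.
(1) `←`: `opT t` is linear.  `→`: `(opT t x * opT t (Pi.single (cj σ) g) + ...) = (2 * pr h σ (x σ) g) • 1`
(`tau_pair`, `tau_anti`) has algebraic entries, then (3). -/
def St_Drb : Prop := ∀ (κ : Type) [Fintype κ] [DecidableEq κ] [Nonempty κ] (ϖ : ℂ)
  (P : PData κ ϖ) (K : Type) [Field K] [NumberField K] (c : K →+* K) (m : ℕ)
  (h : Matrix (Fin m) (Fin m) K) (t : Fin m → K → Module.End ℂ (κ → ℂ)), MD P c h t →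
  ∃ g : (K →+* ℂ) → Fin m → Fin m → ℂ,
    (∀ x : TC K m, DR t x ↔ ∃ y : (K →+* ℂ) → Fin m → ℂ, (∀ σ b, IsAlgebraic ℚ (y σ b)) ∧
      ∀ σ, x σ = ∑ b, y σ b • g σ b) ∧
    (∀ σ b b', IsAlgebraic ℚ (pr h σ (g σ b) (g (cj σ) b'))) ∧
    ∀ x : TC K m, (∀ σ b, IsAlgebraic ℚ (pr h σ (x σ) (g (cj σ) b))) → DR t x

/-- **RTB.**  The rational structure of `T`.  PROOF.  (1) `qT h (emb x) (emb y) = Tr (∑ x_a h_ab c(y_b))`
(`sum_emb`, `hconj`).  (2) Let `w` be given.  The vectors `emb (Pi.single a (bas K b))`, `(a, b)` in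
`Fin m × Fin (finrank ℚ K)`, span `TC K m` over `ℂ` (`sum_dbas_bas`: the vector with the entry 1 at
`(σ, a)` is `∑ b, σ (dbas K b) • emb (Pi.single a (bas K b))`), and there are `dim TC K m` of them
(`NumberField.Embeddings.card`), so they are a basis; `w = ∑ w_i • emb y_i`.  The Gram matrix
`qT h (emb y_i) (emb y_j)` is rational and invertible (`pr_nd hnd`), so its inverse is rational, and the
`w_i` are rational.  (Or: the rational functional `y ↦ qT h w (emb y)` on `K^m` is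
`y ↦ Tr (∑ x_a h_ab c(y_b))` for some `x`, because the trace form is perfect and `h` invertible; then
`w - emb x` is orthogonal to the spanning set of all `emb y`.) -/
def St_Rtb : Prop := ∀ (K : Type) [Field K] [NumberField K] (c : K →+* K) (m : ℕ)
  (h : Matrix (Fin m) (Fin m) K), (∀ (σ : K →+* ℂ) (x : K), cj σ x = σ (c x)) →
  (∀ a b, c (h a b) = h b a) → h.det ≠ 0 →
  (∀ x y : Fin m → K, ∃ p : ℚ, qT h (emb x) (emb y) = p) ∧
  (Submodule.span ℂ {w : TC K m | ∃ x : Fin m → K, w = emb x} = ⊤) ∧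
  ∀ w : TC K m, (∀ y : Fin m → K, ∃ p : ℚ, qT h w (emb y) = p) → ∃ x : Fin m → K, w = emb x

/-- **BET** (from `St_Drb`, `St_Rtb`).  The vector of two elements of `H_1`.  PROOF.  `opT t` is linear
(linear maps `tau`) and the form `qT h` is bilinear and symmetric (`pr_symm S.conj S.herm`, reindex by
the involution `cj`), not degenerate (`pr_nd S.nd`; take `x` with one component).  The map
`w ↦ qT h w` from `TC K m` to its dual is therefore bijective (finite dimension), and `β u v` is the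
preimage of `x ↦ P.ψ (opT t x u) v`; it is bilinear in `u, v`.
(2) For `x = emb y`, `opT t x = ∑ a, t a (y a)` (`ts`, `sum_dbas_bas`, `t_eq_sum`), which respects `P.Q`
(`S.rat`), so `P.ψ (opT t x u) v = ϖ * rational` (`P.hψQ`) and `St_Rtb` applies to `ϖ⁻¹ • β u v`.
(3) With `g` of `St_Drb`: `pr h σ (β u v σ) (g (cj σ) b) = qT h (β u v) (Pi.single (cj σ) (g (cj σ) b)) =
P.ψ (opT t (Pi.single (cj σ) (g (cj σ) b)) u) v` is algebraic (`P.hψalg`), last part of `St_Drb`.
(4) If `x` is orthogonal to all `β u v`, then `P.ψ (opT t x u) v = 0`, `opT t x = 0` (`P.hψnd`), and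
`(2 * qT h x y) • 1 = opT t x * opT t y + opT t y * opT t x = 0` for all `y`, so `x = 0`; so the span is
everything (nondegenerate form). -/
def St_Bet : Prop := ∀ (κ : Type) [Fintype κ] [DecidableEq κ] [Nonempty κ] (ϖ : ℂ)
  (P : PData κ ϖ) (K : Type) [Field K] [NumberField K] (c : K →+* K) (m : ℕ)
  (h : Matrix (Fin m) (Fin m) K) (t : Fin m → K → Module.End ℂ (κ → ℂ)), ϖ ≠ 0 → MD P c h t →
  ∃ β : (κ → ℂ) →ₗ[ℂ] (κ → ℂ) →ₗ[ℂ] TC K m,
    (∀ u v x, qT h (β u v) x = P.ψ (opT t x u) v) ∧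
    (∀ u ∈ P.Q, ∀ v ∈ P.Q, ∃ y : Fin m → K, β u v = ϖ • emb y) ∧
    (∀ u v : κ → ℂ, (∀ j, IsAlgebraic ℚ (u j)) → (∀ j, IsAlgebraic ℚ (v j)) → DR t (β u v)) ∧
    Submodule.span ℂ {w | ∃ u v, w = β u v} = ⊤

/-- **INV** (from `St_Bet`).  PROOF.  (1) `P.ψ` as a form in `2 * 1` variables has rational values times
`ϖ` and algebraic values, so by `Kill` `P.ψ (Z u) v + P.ψ u (Z v) = 0` for `Z ∈ bvS t`.
(2) `α w = F (fun r => β (w (2 r)) (w (2 r + 1)))` is a multilinear form in `2 * d` variables, with values in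
`ϖ ^ d * ℚ` on `P.Q` (multilinearity in the `ϖ •`), and algebraic on algebraic vectors.  So
`actForm Z α = 0` for `Z ∈ bvS t`.
(3) Let `M` be skew, `Z ∈ bvS t` with `ActM t Z M` (`exists_bvE`).  Then
`β (Z u) v + β u (Z v) = M (β u v)` (componentwise `M σ *ᵥ`): by (1), for all `x`,
`qT h (β (Z u) v + β u (Z v)) x = ψ (opT t x (Z u)) v + ψ (opT t x u) (Z v) =
ψ ((opT t x * Z - Z * opT t x) u) v = -ψ (opT t (M x) u) v = -qT h (β u v) (M x) =
qT h (M (β u v)) x` (`ActM`, `skewM_iff`), and the form is not degenerate.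
(4) So the sum in the conclusion vanishes if all `v r` are of the form `β u_r u'_r` (group the
`2 d` terms of `actForm Z α` in pairs), hence for all `v` (span, multilinearity: the sum is a
multilinear form in `v`; e.g. induction on the number of slots which are not of this form,
`Submodule.span_induction` in one slot). -/
def St_Inv : Prop := ∀ (κ : Type) [Fintype κ] [DecidableEq κ] [Nonempty κ] (ϖ : ℂ)
  (P : PData κ ϖ) (K : Type) [Field K] [NumberField K] (c : K →+* K) (m : ℕ)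
  (h : Matrix (Fin m) (Fin m) K) (t : Fin m → K → Module.End ℂ (κ → ℂ)), ϖ ≠ 0 → MD P c h t →
  Kill P t → ∀ (d : ℕ) (F : MultilinearMap ℂ (fun _ : Fin d => TC K m) ℂ),
  (∀ y : Fin d → Fin m → K, ∃ p : ℚ, F (fun r => emb (y r)) = p) →
  (∀ v : Fin d → TC K m, (∀ r, DR t (v r)) → IsAlgebraic ℚ (F v)) →
  ∀ M : (K →+* ℂ) → Matrix (Fin m) (Fin m) ℂ, SkewM h M → ∀ v : Fin d → TC K m,
    ∑ r, F (Function.update v r fun σ => M σ *ᵥ v r σ) = 0

/-- the infinitesimal rotations kill the coefficients -/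
def Rot {Pl : Type} [DecidableEq Pl] {m d : ℕ} (c : (Fin d → Pl × Fin m) → ℂ) : Prop :=
  ∀ (i : Fin d → Pl × Fin m) (s : Pl) (a b : Fin m), a ≠ b →
    ∑ r, (if i r = (s, a) then c (Function.update i r (s, b)) else
      if i r = (s, b) then -c (Function.update i r (s, a)) else 0) = 0

/-- the coefficients of a product of pairings -/
def dl {Pl : Type} [DecidableEq Pl] {m d l : ℕ} (e : Fin l × Fin 2 ≃ Fin d) (s : Fin l → Pl)
    (i : Fin d → Pl × Fin m) : ℂ :=
  ∏ a, if i (e (a, 0)) = i (e (a, 1)) ∧ (i (e (a, 0))).1 = s a then 1 else 0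

/-- the tuple with the value `(s a, f a)` at `e (a, 0)` and `e (a, 1)` -/
def tup {Pl : Type} {m d l : ℕ} (e : Fin l × Fin 2 ≃ Fin d) (s : Fin l → Pl) (f : Fin l → Fin m) :
    Fin d → Pl × Fin m := fun r => (s (e.symm r).1, f (e.symm r).1)

/-- **EXC.**  PROOF.  `Rot c` at the tuple `j = Function.update i r₀ ((i r₀).1, b)` with the two indices
`(i r₀).2` and `b` (different because `((i r₀).1, b)` is no value of `i`): the slots `r` with
`j r = i r₀` are those in the sum, the only slot with the value `((i r₀).1, b)` is `r₀`, and it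
contributes `-c i`. -/
def St_Exc : Prop := ∀ (Pl : Type) [DecidableEq Pl] (m d : ℕ) (c : (Fin d → Pl × Fin m) → ℂ),
  Rot c → ∀ (i : Fin d → Pl × Fin m) (r₀ : Fin d) (b : Fin m), (∀ r, i r ≠ ((i r₀).1, b)) →
    c i = ∑ r ∈ Finset.univ.filter (fun r => r ≠ r₀ ∧ i r = i r₀),
      c (Function.update (Function.update i r₀ ((i r₀).1, b)) r ((i r₀).1, b))

/-- **VAN** (from `St_Exc`).  PROOF.  Induction on `d - #(values of i)` (`Finset.univ.image i`): `c i = 0`.
If all values of `i` are taken exactly twice, then `i` is a `tup e s f` (enumerate the values by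
`Fin l`, and the two slots of each value).  Otherwise let the value `i r₀` be taken `n ≠ 2` times and let
`((i r₀).1, b)` be no value of `i` (it exists because `d < m`).  If `n = 1` the sum of `St_Exc` is
empty.  If `n ≥ 3`, all terms of the sum have one value more (the value `i r₀` is still taken). -/
def St_Van : Prop := ∀ (Pl : Type) [DecidableEq Pl] (m d : ℕ), d < m →
  ∀ c : (Fin d → Pl × Fin m) → ℂ, Rot c →
    (∀ (l : ℕ) (e : Fin l × Fin 2 ≃ Fin d) (s : Fin l → Pl) (f : Fin l → Fin m),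
      Function.Injective (fun a => (s a, f a)) → c (tup e s f) = 0) → c = 0

/-- **MOV** (from `St_Exc`).  PROOF.  (1) If `(s a₀, b)` is not among the `(s a, f a)`, then
`c (tup e s (Function.update f a₀ b)) = c (tup e s f)`: `St_Exc` at `r₀ = e (a₀, 0)`, the sum has
exactly one term, `r = e (a₀, 1)`.  (2) Induction on `#{a | f a ≠ f' a}`: take `a₀` with
`f a₀ ≠ f' a₀`.  If `(s a₀, f' a₀)` is not among the `(s a, f a)`, change `f a₀` to `f' a₀`.  Otherwise
`(s a₀, f' a₀) = (s a₁, f a₁)` with `a₁ ≠ a₀`, and `f a₁ ≠ f' a₁` (`f'` is injective with `s`); first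
change `f a₁` to an index `b` with `(s a₁, b)` unused (`l ≤ d < m`), then `f a₀` to `f' a₀`.  All
intermediate pairs `(s, f)` are injective. -/
def St_Mov : Prop := ∀ (Pl : Type) [DecidableEq Pl] (m d : ℕ), d < m →
  ∀ c : (Fin d → Pl × Fin m) → ℂ, Rot c →
    ∀ (l : ℕ) (e : Fin l × Fin 2 ≃ Fin d) (s : Fin l → Pl) (f f' : Fin l → Fin m),
      Function.Injective (fun a => (s a, f a)) → Function.Injective (fun a => (s a, f' a)) →
      c (tup e s f) = c (tup e s f')

/-- **CMB** (from `St_Van`, `St_Mov`).  The first fundamental theorem for orthogonal groups in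
coordinates, `d < m`.  PROOF.  (1) `dl e s` satisfies `Rot`: write the sum over the slots as a sum over
`a` of the terms of `e (a, 0)` and `e (a, 1)`: the factors of the other pairs are common and the two
terms cancel.  `Rot` is linear in `c`.
(2) `dl e₀ s₀ (tup e s f)` is 0 or 1; if it is 1, then `tup e s f = tup e₀ s₀ f₀` for some `f₀`, and if
`(s, f)` is injective, so is `(s₀, f₀)` (all values are taken exactly twice).
(3) If `d` is odd there is no `e` and `c = 0` by `St_Van`.  Let `d = 2 l`, and `ι : Fin l → Fin m` the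
inclusion.  Induction on the number of pairs `(e, s)` (a finite type) with `c (tup e s ι) ≠ 0`: if there
are none, `c = 0` by `St_Van` and `St_Mov`.  Otherwise subtract `c (tup e₁ s₁ ι) • dl e₁ s₁` for one of
them; `c' = c - ...` satisfies `Rot`.  For any `(e, s)`: if `dl e₁ s₁ (tup e s ι) = 0`, then
`c' (tup e s ι) = c (tup e s ι)`; if it is 1, then `tup e s ι = tup e₁ s₁ f₀`, so
`c (tup e s ι) = c (tup e₁ s₁ ι)` by `St_Mov` and `c' (tup e s ι) = 0`; in particular
`c' (tup e₁ s₁ ι) = 0`. -/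
def St_Cmb : Prop := ∀ (Pl : Type) [Fintype Pl] [DecidableEq Pl] (m d : ℕ), d < m →
  ∀ c : (Fin d → Pl × Fin m) → ℂ, Rot c →
    c ∈ Submodule.span ℂ {f | ∃ (l : ℕ) (e : Fin l × Fin 2 ≃ Fin d) (s : Fin l → Pl), f = dl e s}

/-- **ORT** (from `St_Cmb`).  PROOF.  For every `σ` the matrix `h.map σ` is symmetric (`cj σ = σ`) and
invertible, so there is a basis `f σ a` of `ℂ^m` with `pr h σ (f σ a) (f σ b) = if a = b then 1 else 0`
(`QuadraticForm.equivalent_sum_squares`, or Mathlib's orthogonal bases and square roots).  Put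
`E (σ, a) = Pi.single σ (f σ a) ∈ TC K m` and `c i = F (fun r => E (i r))`.  The family `M` with
`M σ = f σ b (f σ a)^* - f σ a (f σ b)^*` at one place (`(f σ a)^* y = pr h σ (f σ a) y`) is skew and gives
`Rot c`.  By `St_Cmb` `c` is in the span of the `dl e s`; apply the linear map
`c ↦ (v ↦ ∑ i, c i * ∏ r, pr h (i r).1 (f (i r).1 (i r).2) (v r (i r).1))`, which maps the `c` of `F` to `F`
(multilinearity and `y = ∑ a, pr h σ (f σ a) y • f σ a`) and `dl e s` to the product of pairings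
(the sum over `i` is a product over the pairs `a` of sums over `(i (e (a, 0)), i (e (a, 1)))`). -/
def St_Ort : Prop := ∀ (K : Type) [Field K] [NumberField K] (m d : ℕ)
  (h : Matrix (Fin m) (Fin m) K), d < m → (∀ σ : K →+* ℂ, cj σ = σ) → hᵀ = h → h.det ≠ 0 →
  ∀ F : MultilinearMap ℂ (fun _ : Fin d => TC K m) ℂ,
  (∀ M : (K →+* ℂ) → Matrix (Fin m) (Fin m) ℂ, SkewM h M → ∀ v : Fin d → TC K m,
    ∑ r, F (Function.update v r fun σ => M σ *ᵥ v r σ) = 0) → F ∈ Submodule.span ℂ (PP h d)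

/-- **DSC.**  PROOF.  `pr h σ (x σ) (y (cj σ)) = ∑ b, σ (dbas K b) * qz h (bas K b) x y` (`sum_dbas_bas`, used as
in `KSE.AVE`), so (expanding products) `F v = ∑ j, c_j * ∏ a, qz h (z j a) (v (e j (a, 0))) (v (e j (a, 1)))`,
a finite sum with `c_j ∈ ℂ`, and `2 l = d` fixes `l`.  Let `φ : ℂ →ₗ[ℚ] ℚ` with `φ 1 = 1` (a complement of
`ℚ` in `ℂ`) and `F' v` the same sum with `φ c_j` for `c_j`.  `qz h z (emb x) (emb y) ∈ ℚ` (it is
`Tr (z ∑ h_ab x_a c(y_b))`, `sum_emb`, `cj σ y = σ (c y)`), so on vectors `emb` the values of `F` and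
`F'` agree: apply `φ` to `F v ∈ ℚ`.  Both are multilinear and the vectors `emb y` span `TC K m` over `ℂ`
(they contain a basis, `sum_dbas_bas`), so `F = F'`. -/
def St_Dsc : Prop := ∀ (K : Type) [Field K] [NumberField K] (c : K →+* K) (m d : ℕ)
  (h : Matrix (Fin m) (Fin m) K), (∀ (σ : K →+* ℂ) (x : K), cj σ x = σ (c x)) →
  ∀ F : MultilinearMap ℂ (fun _ : Fin d => TC K m) ℂ, F ∈ Submodule.span ℂ (PP h d) →
  (∀ y : Fin d → Fin m → K, ∃ p : ℚ, F (fun r => emb (y r)) = p) → GenT h d F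

/-- **MIX.**  `D` is any predicate on `TC K m`.  PROOF.  `v s = (x_s, y_s) = ∑ i, x_s i • (e_i, 0) + (0, y_s)`.
Multilinearity: `F v = ∑ f : Fin n → Option (Fin r), (∏_{f s = some i} x_s i) * F (w f)` with
`w f s = (e_i, 0)` if `f s = some i` and `(0, y_s)` if `f s = none`.  For fixed `f` choose
`ε : Fin d ⊕ Fin l' ≃ Fin n` with `f (ε (inl _)) = none` and `f (ε (inr b)) = some (i b)`, so `d ≤ n`.
`G y = F (w f)` as a function of `(y_(ε (inl a)))_a` is a multilinear form on `TC K m` which satisfies the two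
conditions, so it is `GenT`, and each term of it times `∏ b, x_(ε (inr b)) (i b)` is `IsBasicK3`
(`qz = qf` by the definition of `pr`; compose the equivalences). -/
def St_Mix : Prop := ∀ (K : Type) [Field K] [NumberField K] (m : ℕ) (h : Matrix (Fin m) (Fin m) K)
  (D : TC K m → Prop) (n : ℕ),
  (∀ (d : ℕ) (F : MultilinearMap ℂ (fun _ : Fin d => TC K m) ℂ), d ≤ n →
    (∀ y : Fin d → Fin m → K, ∃ p : ℚ, F (fun r => emb (y r)) = p) →
    (∀ v : Fin d → TC K m, (∀ r, D (v r)) → IsAlgebraic ℚ (F v)) → GenT h d F) →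
  ∀ (r : ℕ) (F : MultilinearMap ℂ (fun _ : Fin n => HX r K m) ℂ), D 0 →
    (∀ v : Fin n → HX r K m, (∀ s, (∀ i, ∃ p : ℚ, (v s).1 i = p) ∧ IsRatT (v s).2) →
      ∃ p : ℚ, F v = p) →
    (∀ v : Fin n → HX r K m, (∀ s, (∀ i, IsAlgebraic ℚ ((v s).1 i)) ∧ D (v s).2) →
      IsAlgebraic ℚ (F v)) → IsGenK3 h r n F

/-- **REV** (from `St_Drb`).  PROOF.  Rational: `Tr (z ∑ x_a h_ab c(y_b))` as in DSC.  Algebraic: by
`St_Drb` `x σ = ∑ b, u σ b • g σ b` and `y (cj σ) = ∑ b', w (cj σ) b' • g (cj σ) b'` with algebraic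
coefficients, and `pr h σ (g σ b) (g (cj σ) b')` and `σ z` are algebraic. -/
def St_Rev : Prop := ∀ (κ : Type) [Fintype κ] [DecidableEq κ] [Nonempty κ] (ϖ : ℂ)
  (P : PData κ ϖ) (K : Type) [Field K] [NumberField K] (c : K →+* K) (m : ℕ)
  (h : Matrix (Fin m) (Fin m) K) (t : Fin m → K → Module.End ℂ (κ → ℂ)), MD P c h t →
  (∀ (z : K) (x y : Fin m → K), ∃ p : ℚ, qz h z (emb x) (emb y) = p) ∧
  ∀ (z : K) (x y : TC K m), DR t x → DR t y → IsAlgebraic ℚ (qz h z x y)

end Pool.Agent.K3P
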