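import Pool.Agent.K3P.TypesD
import Pool.Agent.K3P.St

/-!
# K3P: all powers. Definitions and frozen statements

The first fundamental theorem for `SO_m` (all degrees, several places), and the steps with
determinants.  Every module `Pool/Agent/K3P/<X>.lean` imports this file and proves
`theorem thm_<X> : St_<X>` (with the hypotheses named in the docstring), own lemmas with names
starting with the name of the module.  The docstrings contain the proofs.
-/

set_option autoImplicit false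

namespace Pool.Agent.K3P

open Module Matrix NumberField Pool.Agent.Helper7 Pool.Agent.KS Pool.Agent.Ball Pool.Agent.KSE
open Pool.Agent.GPC (AbVar TC IsRatT qf df HX IsGrK3 IsBasicPow IsGenPow)

section comb

variable {Pl : Type} [DecidableEq Pl] {m d : ℕ}

/-- the action of the elementary matrix `(a, b)` at the place `s` -/
def DE (s : Pl) (a b : Fin m) (c : (Fin d → Pl × Fin m) → ℂ) : (Fin d → Pl × Fin m) → ℂ :=
  fun i => ∑ r, if i r = (s, a) then c (Function.update i r (s, b)) else 0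

/-- the sum of the transpositions of slots with the same place -/
def SP (c : (Fin d → Pl × Fin m) → ℂ) : (Fin d → Pl × Fin m) → ℂ :=
  fun i => ∑ r, ∑ r' ∈ Finset.univ.erase r,
    if (i r).1 = (i r').1 then c (i ∘ Equiv.swap r r') else 0

/-- the sum of the contractions, multiplied by the pairing -/
def KP (c : (Fin d → Pl × Fin m) → ℂ) : (Fin d → Pl × Fin m) → ℂ :=
  fun i => ∑ r, ∑ r' ∈ Finset.univ.erase r, if i r = i r' then
    ∑ b, c (Function.update (Function.update i r ((i r).1, b)) r' ((i r).1, b)) else 0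

/-- `SP + d (m - 1)` -/
def TT (c : (Fin d → Pl × Fin m) → ℂ) : (Fin d → Pl × Fin m) → ℂ :=
  fun i => SP c i + ((d : ℂ) * ((m : ℂ) - 1)) * c i

/-- the coefficients of a product of pairings and determinants -/
def dd {l l₁ : ℕ} (e : (Fin l × Fin 2) ⊕ (Fin l₁ × Fin m) ≃ Fin d) (s : Fin l → Pl)
    (s₁ : Fin l₁ → Pl) (i : Fin d → Pl × Fin m) : ℂ :=
  (∏ a, if i (e (.inl (a, 0))) = i (e (.inl (a, 1))) ∧ (i (e (.inl (a, 0)))).1 = s a then 1
    else 0) *
  ∏ b, (Matrix.of fun j k : Fin m => if i (e (.inr (b, j))) = (s₁ b, k) then (1 : ℂ) else 0).det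

variable (Pl m d) in
/-- the combinations of products of pairings and determinants -/
def SD : Submodule ℂ ((Fin d → Pl × Fin m) → ℂ) :=
  Submodule.span ℂ {f | ∃ (l l₁ : ℕ) (e : (Fin l × Fin 2) ⊕ (Fin l₁ × Fin m) ≃ Fin d)
    (s : Fin l → Pl) (s₁ : Fin l₁ → Pl), f = dd e s s₁}

end comb

section defs

variable {K : Type} [Field K] [NumberField K] {m : ℕ}

/-- products of pairings and (if `c = id`) determinants at places -/
def PPD (c : K →+* K) (h : Matrix (Fin m) (Fin m) K) (d : ℕ) :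
    Set (MultilinearMap ℂ (fun _ : Fin d => TC K m) ℂ) :=
  {ω | ∃ (l l₁ : ℕ) (e : (Fin l × Fin 2) ⊕ (Fin l₁ × Fin m) ≃ Fin d)
    (s : Fin l → (K →+* ℂ)) (s₁ : Fin l₁ → (K →+* ℂ)), (c ≠ RingHom.id K → l₁ = 0) ∧ ∀ v, ω v =
    (∏ a, pr h (s a) (v (e (.inl (a, 0))) (s a)) (v (e (.inl (a, 1))) (cj (s a)))) *
    ∏ b, (Matrix.of fun j k => v (e (.inr (b, j))) (s₁ b) k).det}

/-- rational combinations of products of forms `q(z x, y)` and (if `c = id`) `Tr (z det)` -/
def GenD (c : K →+* K) (h : Matrix (Fin m) (Fin m) K) (d : ℕ)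
    (F : MultilinearMap ℂ (fun _ : Fin d => TC K m) ℂ) : Prop :=
  ∃ (N : ℕ) (p : Fin N → ℚ) (ω : Fin N → (Fin d → TC K m) → ℂ),
    (∀ j, ∃ (l l₁ : ℕ) (e : (Fin l × Fin 2) ⊕ (Fin l₁ × Fin m) ≃ Fin d) (z : Fin l → K)
      (z₁ : Fin l₁ → K), (c ≠ RingHom.id K → l₁ = 0) ∧ ∀ v, ω j v =
      (∏ a, qz h (z a) (v (e (.inl (a, 0)))) (v (e (.inl (a, 1))))) *
      ∏ b, df (z₁ b) fun k => v (e (.inr (b, k)))) ∧
    ∀ v, F v = ∑ j, (p j : ℂ) * ω j v

end defs

/-- **CAS.**  The Casimir operators.  PROOF.  Write out: `DE s a b (DE s b a c) i` is the sum over the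
slots `r` with `i r = (s, a)` and the slots `r'` with `(update i r (s, b)) r' = (s, b)` of
`c (update (update i r (s, b)) r' (s, a))`.  The terms with `r' = r` are `c i`, their sum over `s, a, b` is
`m * d * c i`; for `r' ≠ r` it is `c (i ∘ swap r r')`.  Second equality: for `r' = r` the condition is
`a = b` and the term is `c i`; for `r' ≠ r` the condition is `i r' = (s, a)`. -/
def St_Cas : Prop := ∀ (Pl : Type) [Fintype Pl] [DecidableEq Pl] (m d : ℕ)
  (c : (Fin d → Pl × Fin m) → ℂ) (i : Fin d → Pl × Fin m),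
  (∑ s, ∑ a, ∑ b, DE s a b (DE s b a c) i = ((m : ℂ) * d) * c i + SP c i) ∧
  ∑ s, ∑ a, ∑ b, DE s a b (DE s a b c) i = (d : ℂ) * c i + KP c i

/-- **PSD** (from `St_Cas`).  PROOF.  Let `⟨x, y⟩ = ∑ i, conj (x i) * y i`.  Then
`⟨x, DE s a b y⟩ = ⟨DE s b a x, y⟩` (bijection `(i, r) ↦ (update i r (s, b), r)`) and
`⟨x, SP y⟩ = ⟨SP x, y⟩` (`i ↦ i ∘ swap r r'`), so `⟨x, TT y⟩ = ⟨TT x, y⟩`; this gives the second statement:
`⟨TT c, TT c⟩ = ⟨c, TT (TT c)⟩ = 0`.  By `St_Cas`, with `L = DE s a b - DE s b a` (`⟨L c, L c⟩ =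
⟨c, (DE s b a - DE s a b) (DE s a b - DE s b a) c⟩`), `∑ s a b, ⟨L c, L c⟩ = 2 * ⟨c, TT c⟩ - 2 * ⟨c, KP c⟩`.
And `⟨c, KP c⟩ ≥ 0`: for `r ≠ r'` the sum over `i` with `i r = i r'` of
`conj (c i) * ∑ b, c (update (update i r ((i r).1, b)) r' ((i r).1, b))` is, for fixed place `(i r).1` and
fixed other slots, `|∑ b, c (.. b .. b ..)| ^ 2`.  So `TT c = 0` gives `L c = 0` for all `s, a, b`, which is
`Rot c`. -/
def St_Psd : Prop := ∀ (Pl : Type) [Fintype Pl] [DecidableEq Pl] (m d : ℕ)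
  (c : (Fin d → Pl × Fin m) → ℂ), (TT c = 0 → Rot c) ∧ (TT (TT c) = 0 → TT c = 0)

/-- **GLK** (from `St_Psd`).  PROOF.  Let `N i` be the number of slots `r` with `i r = (s, a)` and
`x = N * c` (i.e. `DE s a a c`).  `N (i ∘ swap r r') = N i`, so `TT x = N * TT c = 0`, and `Rot x`, `Rot c` by
`St_Psd`: `DE s a b x = DE s b a x`, `DE s a b c = DE s b a c`.  But `DE s a b x i = (N i - 1) * DE s a b c i` and
`DE s b a x i = (N i + 1) * DE s b a c i` (`a ≠ b`), so `2 * DE s a b c i = 0`. -/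
def St_Glk : Prop := ∀ (Pl : Type) [Fintype Pl] [DecidableEq Pl] (m d : ℕ)
  (c : (Fin d → Pl × Fin m) → ℂ), TT c = 0 → ∀ (s : Pl) (a b : Fin m), a ≠ b → DE s a b c = 0

/-- **KER** (from `St_Cas`).  PROOF.  Let `N s a i` be the number of slots `r` with `i r = (s, a)`, and let
`c i ≠ 0`.  (1) `DE s a a (DE s a a c) i = (N s a i) ^ 2 * c i`, so by the first equality of `St_Cas` and
`TT c = 0`: `∑ s a, (N s a i) ^ 2 = m * d - d * (m - 1) = d = ∑ s a, N s a i`; so all `N s a i ≤ 1`: `i` is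
injective.  (2) `0 = DE s a b (DE s b a c) i - DE s b a (DE s a b c) i = (N s a i - N s b i) * c i` (the terms
with `r' ≠ r` cancel), so `N s a i = N s b i`: the image of `i` is `U × Fin m` for a finite set `U` of places.
(3) If `(i r).1 = (i r').1`, `r ≠ r'`, then `c (i ∘ swap r r') = - c i` for all `i`: for `c i ≠ 0` let
`i r = (s, a)`, `i r' = (s, b)`; `DE s a b c = 0` at `update i r' (s, a)`, where exactly the slots `r, r'` have
the value `(s, a)` (if `c i = 0`, apply this to `i ∘ swap r r'`).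
(4) `c` is the sum over the (finitely many) `p : Fin d → Pl` of its restrictions `c_p` to the tuples with
places `p`.  If `c_p ≠ 0` let `c i₀ ≠ 0` with places `p`.  By (1), (2) there are `l₁`, an injective
`s₁ : Fin l₁ → Pl` and `e : Fin l₁ × Fin m ≃ Fin d` with `i₀ (e (b, j)) = (s₁ b, j)`.  Then
`c_p = c i₀ • dd e .. s₁` (`l = 0`): both are 0 if the places of `i` are not `p`; otherwise
`i (e (b, j)) = (s₁ b, g b j)`; if some `g b` is not injective both are 0 ((1), and a determinant with two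
equal rows); otherwise both are `(∏ b, sign (g b)) * c i₀` ((3), induction with transpositions). -/
def St_Ker : Prop := ∀ (Pl : Type) [Fintype Pl] [DecidableEq Pl] (m d : ℕ)
  (c : (Fin d → Pl × Fin m) → ℂ), TT c = 0 → (∀ (s : Pl) (a b : Fin m), a ≠ b → DE s a b c = 0) →
    c ∈ SD Pl m d

/-- **COF.**  PROOF.  `KP c` is the sum over `r ≠ r'` and over the places `s` of the functions
`i ↦ if i r = i r' ∧ (i r).1 = s then c' (i ∘ ε) else 0`, where `ε : Fin d → Fin (d + 2)` is a bijection onto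
the complement of `{r, r'}` and `c' j = ∑ b, c (the tuple with j at ε and (s, b) at r, r')`.  `Rot c'`: in
the sum of `Rot` for `c` (at `(s, b)` in `r, r'`, summed over `b`) the terms of the slots `r, r'` cancel
(the terms of `r` and `r'` are `∑ b` over `b = a₁` and `b = a₂`, with opposite signs).  So `c' ∈ SD Pl m d` and
the function is in `SD Pl m (d + 2)` (span; `dd e s s₁` times the pairing of `r, r'` is a `dd`). -/
def St_Cof : Prop := ∀ (Pl : Type) [Fintype Pl] [DecidableEq Pl] (m d : ℕ),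
  (∀ c : (Fin d → Pl × Fin m) → ℂ, Rot c → c ∈ SD Pl m d) →
  ∀ c : (Fin (d + 2) → Pl × Fin m) → ℂ, Rot c → KP c ∈ SD Pl m (d + 2)

/-- **STB.**  PROOF.  `dd e s s₁ (i ∘ swap r r') = dd (e.trans (swap r r')) s s₁ i`, and if it is not 0, then
the places of `i ∘ swap r r'` are prescribed by `s, s₁`: the condition `(i r).1 = (i r').1` in `SP` is
`p r = p r'`, `p (e (.inl (a, _))) = s a`, `p (e (.inr (b, _))) = s₁ b` (does not depend on `i`). -/
def St_Stb : Prop := ∀ (Pl : Type) [Fintype Pl] [DecidableEq Pl] (m d : ℕ)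
  (c : (Fin d → Pl × Fin m) → ℂ), c ∈ SD Pl m d → TT c ∈ SD Pl m d

/-- **FFD** (from `St_Cas`, `St_Psd`, `St_Glk`, `St_Ker`, `St_Cof`, `St_Stb`).  The first fundamental theorem for
the special orthogonal groups.  PROOF.  Strong induction on `d`.  `Rot c` says `DE s a b c = DE s b a c`, so
the two sums in `St_Cas` agree and `TT c = KP c`.  `KP c ∈ SD` (`d < 2`: `KP c = 0`; otherwise `St_Cof` and
induction).  By `St_Glk` and `St_Ker`, `TT x = 0` implies `x ∈ SD`.  `TT` is linear and maps `SD` to `SD`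
(`St_Stb`); on the finite dimensional space `SD` kernel and image of `TT` are complementary (`St_Psd`), so
`TT c = k + TT y` with `k, y ∈ SD`, `TT k = 0`; `TT (TT (c - y)) = 0`, so `TT (c - y) = 0` and
`c - y ∈ SD`. -/
def St_Ffd : Prop := ∀ (Pl : Type) [Fintype Pl] [DecidableEq Pl] (m d : ℕ)
  (c : (Fin d → Pl × Fin m) → ℂ), Rot c → c ∈ SD Pl m d

/-- **ORD** (from `St_Ffd`).  PROOF.  For every `σ` the matrix `h.map σ` is symmetric (`cj σ = σ`) and
invertible, so there is a basis `f σ a` of `ℂ^m` with `pr h σ (f σ a) (f σ b) = if a = b then 1 else 0`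
(`QuadraticForm.equivalent_sum_squares`, or Mathlib's orthogonal bases and square roots).  Put
`E (σ, a) = Pi.single σ (f σ a) ∈ TC K m` and `c i = F (fun r => E (i r))`.  The family `M` with
`M σ = f σ b (f σ a)^* - f σ a (f σ b)^*` at one place (`(f σ a)^* y = pr h σ (f σ a) y`) is skew and gives
`Rot c`.  By `St_Ffd` `c` is in the span of the `dd e s s₁`; apply the linear map
`c ↦ (v ↦ ∑ i, c i * ∏ r, pr h (i r).1 (f (i r).1 (i r).2) (v r (i r).1))`, which maps the `c` of `F` to `F`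
(multilinearity and `y = ∑ a, pr h σ (f σ a) y • f σ a`) and `dd e s s₁` to the product of pairings and of the
determinants of the coordinates with respect to the bases `f (s₁ b)` (the sum over `i` is a product of
sums over the slots of every factor; Leibniz formula), i.e. a scalar multiple of the product with the
determinants of the vectors. -/
def St_Ord : Prop := ∀ (K : Type) [Field K] [NumberField K] (m d : ℕ)
  (h : Matrix (Fin m) (Fin m) K), (∀ σ : K →+* ℂ, cj σ = σ) → hᵀ = h → h.det ≠ 0 →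
  ∀ F : MultilinearMap ℂ (fun _ : Fin d => TC K m) ℂ,
  (∀ M : (K →+* ℂ) → Matrix (Fin m) (Fin m) ℂ, SkewM h M → ∀ v : Fin d → TC K m,
    ∑ r, F (Function.update v r fun σ => M σ *ᵥ v r σ) = 0) →
  F ∈ Submodule.span ℂ (PPD (RingHom.id K) h d)

/-- **DSD.**  PROOF.  `pr h σ (x σ) (y (cj σ)) = ∑ b, σ (dbas K b) * qz h (bas K b) x y` and
`det (x_1 σ, ..) = ∑ b, σ (dbas K b) * df (bas K b) x` (`sum_dbas_bas`, used as in `KSE.AVE`), so (expanding
products) `F v = ∑ j, c_j * ω_j v`, a finite sum with `c_j ∈ ℂ` and products `ω_j` as in `GenD`.  Let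
`φ : ℂ →ₗ[ℚ] ℚ` with `φ 1 = 1` (a complement of `ℚ` in `ℂ`) and `F' v` the same sum with `φ c_j` for `c_j`.
`qz h z (emb x) (emb y) ∈ ℚ` (it is `Tr (z ∑ h_ab x_a c(y_b))`, `sum_emb`, `cj σ y = σ (c y)`) and
`df z (emb x_1, ..) = Tr (z det (x_1, ..)) ∈ ℚ`, so on vectors `emb` the values of `F` and `F'` agree: apply
`φ` to `F v ∈ ℚ`.  Both are multilinear and the vectors `emb y` span `TC K m` over `ℂ` (they contain a basis,
`sum_dbas_bas`), so `F = F'`. -/
def St_Dsd : Prop := ∀ (K : Type) [Field K] [NumberField K] (c : K →+* K) (m d : ℕ)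
  (h : Matrix (Fin m) (Fin m) K), (∀ (σ : K →+* ℂ) (x : K), cj σ x = σ (c x)) →
  ∀ F : MultilinearMap ℂ (fun _ : Fin d => TC K m) ℂ, F ∈ Submodule.span ℂ (PPD c h d) →
  (∀ y : Fin d → Fin m → K, ∃ p : ℚ, F (fun r => emb (y r)) = p) → GenD c h d F

/-- **MXD.**  `D` is any predicate on `TC K m`.  PROOF.  As `St_Mix`: `v s = (x_s, y_s) =
∑ i, x_s i • (e_i, 0) + (0, y_s)`, multilinearity:
`F v = ∑ f : Fin n → Option (Fin r), (∏_{f s = some i} x_s i) * F (w f)` with `w f s = (e_i, 0)` if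
`f s = some i` and `(0, y_s)` if `f s = none`.  For fixed `f` choose `ε : Fin d ⊕ Fin l₂ ≃ Fin n` with
`f (ε (inl _)) = none` and `f (ε (inr b)) = some (i b)`, so `d ≤ n`.  `G y = F (w f)` as a function of
`(y_(ε (inl a)))_a` is a multilinear form on `TC K m` which satisfies the two conditions, so it is `GenD`,
and each term of it times `∏ b, x_(ε (inr b)) (i b)` is `IsBasicPow` (`qz = qf` by the definition of `pr`;
compose the equivalences). -/
def St_Mxd : Prop := ∀ (K : Type) [Field K] [NumberField K] (c : K →+* K) (m : ℕ)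
  (h : Matrix (Fin m) (Fin m) K) (D : TC K m → Prop) (n : ℕ),
  (∀ (d : ℕ) (F : MultilinearMap ℂ (fun _ : Fin d => TC K m) ℂ), d ≤ n →
    (∀ y : Fin d → Fin m → K, ∃ p : ℚ, F (fun r => emb (y r)) = p) →
    (∀ v : Fin d → TC K m, (∀ r, D (v r)) → IsAlgebraic ℚ (F v)) → GenD c h d F) →
  ∀ (r : ℕ) (F : MultilinearMap ℂ (fun _ : Fin n => HX r K m) ℂ), D 0 →
    (∀ v : Fin n → HX r K m, (∀ s, (∀ i, ∃ p : ℚ, (v s).1 i = p) ∧ IsRatT (v s).2) →
      ∃ p : ℚ, F v = p) →
    (∀ v : Fin n → HX r K m, (∀ s, (∀ i, IsAlgebraic ℚ ((v s).1 i)) ∧ D (v s).2) →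
      IsAlgebraic ℚ (F v)) → IsGenPow c h r n F

/-- **RVD** (from `St_Drb`).  PROOF.  `hc : c = id` gives `cj σ = σ`.  Rational: `df z (emb x_1, ..) =
Tr (z det (x_1, ..))` (`sum_emb`, `RingHom.map_det`).  Algebraic: by `St_Drb` `x_j σ = ∑ b, u j σ b • g σ b`
with algebraic coefficients, so `det (x_1 σ, ..) = det (u σ) * det (g σ)`; the matrix of the
`pr h σ (g σ b) (g σ b')`, with algebraic entries, is `g σ * h.map σ * (g σ)ᵀ`, so
`(det (g σ)) ^ 2 * σ (det h)` is algebraic, and `σ (det h) ≠ 0` is algebraic. -/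
def St_Rvd : Prop := ∀ (κ : Type) [Fintype κ] [DecidableEq κ] [Nonempty κ] (ϖ : ℂ)
  (P : PData κ ϖ) (K : Type) [Field K] [NumberField K] (c : K →+* K) (m : ℕ)
  (h : Matrix (Fin m) (Fin m) K) (t : Fin m → K → Module.End ℂ (κ → ℂ)), MD P c h t →
  (∀ (z : K) (x : Fin m → Fin m → K), ∃ p : ℚ, df z (fun j => emb (x j)) = p) ∧
  (c = RingHom.id K → ∀ (z : K) (x : Fin m → TC K m), (∀ j, DR t (x j)) → IsAlgebraic ℚ (df z x))

end Pool.Agent.K3P
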