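import Pool.Agent.K3P.Kil
import Pool.Agent.K3P.StD
import Pool.Agent.KSE.FftB

/-!
# K3P: Grothendieck classes on all powers of a K3 surface, assembly
-/

set_option autoImplicit false

namespace Pool.Agent.K3P

open Module Matrix NumberField Pool.Agent.Helper7 Pool.Agent.KS Pool.Agent.Ball Pool.Agent.KSE
  Pool.Agent.Helper28.GPC
open Pool.Agent.GPC (AbVar TC IsRatT qf df HX IsGrK3 IsBasicPow IsGenPow)

section

variable {A : AbVar} {K : Type} [Field K] [NumberField K] {c : K →+* K} {m : ℕ}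

lemma asm_op (S : A.KugaSatakeMul K c m) (v : TC K m) (u : A.H1) :
    opT (lt A S) v u = ∑ σ : K →+* ℂ, ∑ a, v σ a • S.e σ a u := by
  rw [opT, LinearMap.sum_apply]
  refine Finset.sum_congr rfl fun σ _ => ?_
  rw [tau_apply, LinearMap.sum_apply]
  refine Finset.sum_congr rfl fun a _ => ?_
  rw [LinearMap.smul_apply, ts_lt]
  rfl

lemma asm_alg_sum {ι : Type} (s : Finset ι) (f : ι → ℂ) (h : ∀ i ∈ s, IsAlgebraic ℚ (f i)) :
    IsAlgebraic ℚ (∑ i ∈ s, f i) := by
  classical
  induction s using Finset.cons_induction with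
  | empty => rw [Finset.sum_empty]; exact isAlgebraic_zero
  | cons a s ha ih =>
    rw [Finset.sum_cons]
    exact (h a (Finset.mem_cons_self a s)).add (ih fun i hi => h i (Finset.mem_cons_of_mem hi))

lemma asm_alg_prod {ι : Type} (s : Finset ι) (f : ι → ℂ) (h : ∀ i ∈ s, IsAlgebraic ℚ (f i)) :
    IsAlgebraic ℚ (∏ i ∈ s, f i) := by
  classical
  induction s using Finset.cons_induction with
  | empty => rw [Finset.prod_empty]; exact isAlgebraic_one
  | cons a s ha ih =>
    rw [Finset.prod_cons]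
    exact (h a (Finset.mem_cons_self a s)).mul (ih fun i hi => h i (Finset.mem_cons_of_mem hi))

lemma asm_rat_sum {ι : Type} (s : Finset ι) (f : ι → ℂ) (h : ∀ i ∈ s, ∃ p : ℚ, f i = p) :
    ∃ p : ℚ, ∑ i ∈ s, f i = p := by
  classical
  induction s using Finset.cons_induction with
  | empty => exact ⟨0, by simp⟩
  | cons a s ha ih =>
    obtain ⟨p, hp⟩ := h a (Finset.mem_cons_self a s)
    obtain ⟨q, hq⟩ := ih fun i hi => h i (Finset.mem_cons_of_mem hi)
    refine ⟨p + q, ?_⟩
    rw [Finset.sum_cons, hp, hq]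
    push_cast
    rfl

lemma asm_rat_prod {ι : Type} (s : Finset ι) (f : ι → ℂ) (h : ∀ i ∈ s, ∃ p : ℚ, f i = p) :
    ∃ p : ℚ, ∏ i ∈ s, f i = p := by
  classical
  induction s using Finset.cons_induction with
  | empty => exact ⟨1, by simp⟩
  | cons a s ha ih =>
    obtain ⟨p, hp⟩ := h a (Finset.mem_cons_self a s)
    obtain ⟨q, hq⟩ := ih fun i hi => h i (Finset.mem_cons_of_mem hi)
    refine ⟨p * q, ?_⟩
    rw [Finset.prod_cons, hp, hq]
    push_cast
    rfl

lemma asm_dr (S : A.KugaSatakeMul K c m) (v : TC K m) : S.IsDRT v ↔ DR (lt A S) v := by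
  constructor
  · intro h i j
    have h1 := h (Pi.single i 1) (single_deRham A i) j
    rw [asm_op]
    exact h1
  · intro h u hu j
    rw [← asm_op]
    have h1 : u = ∑ i, u i • (Pi.single i 1 : Fin A.g ⊕ Fin A.g → ℂ) := by
      funext k
      rw [Finset.sum_apply, Finset.sum_eq_single k]
      · rw [Pi.smul_apply, Pi.single_eq_same, smul_eq_mul, mul_one]
      · intro i _ hi
        rw [Pi.smul_apply, Pi.single_eq_of_ne (Ne.symm hi), smul_zero]
      · intro hk; exact absurd (Finset.mem_univ _) hk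
    have h2 : opT (lt A S) v u = ∑ i, u i • opT (lt A S) v (Pi.single i 1) := by
      conv_lhs => rw [h1]
      rw [map_sum]
      refine Finset.sum_congr rfl fun i _ => ?_
      rw [map_smul]
    rw [h2, Finset.sum_apply]
    refine asm_alg_sum _ _ fun i _ => ?_
    rw [Pi.smul_apply, smul_eq_mul]
    exact (hu i).mul (h i j)

lemma asm_qz (h : Matrix (Fin m) (Fin m) K) (z : K) (x y : TC K m) : qz h z x y = qf h z x y := by
  rw [qz, qf]
  refine Finset.sum_congr rfl fun σ _ => ?_
  congr 1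
  rw [pr, dotProduct]
  refine Finset.sum_congr rfl fun a _ => ?_
  rw [Matrix.mulVec, dotProduct, Finset.mul_sum]
  refine Finset.sum_congr rfl fun b _ => ?_
  rw [Matrix.map_apply]
  ring

lemma asm_rat (v : TC K m) (hv : IsRatT v) : ∃ x : Fin m → K, v = emb x := by
  obtain ⟨x, hx⟩ := hv
  exact ⟨x, funext fun σ => funext fun a => hx σ a⟩

lemma asm_pp (h : Matrix (Fin m) (Fin m) K) (d : ℕ) : PP h d ⊆ PPD c h d := by
  rintro ω ⟨l, e, s, hω⟩
  refine ⟨l, 0, (Equiv.sumEmpty _ _).trans e, s, Fin.elim0, fun _ => rfl, fun v => ?_⟩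
  rw [hω, Fin.prod_univ_zero, mul_one]
  rfl

theorem asm (hInv : St_Inv) (hOrd : St_Ord) (hDsd : St_Dsd) (hMxd : St_Mxd) (hRev : St_Rev)
    (hRvd : St_Rvd) (S : A.KugaSatakeMul K c m) (hg : A.g ≠ 0) (hK : Adm S) (r n : ℕ)
    (F : MultilinearMap ℂ (fun _ : Fin n => HX r K m) ℂ) :
    IsGrK3 S r n F ↔ IsGenPow c S.h r n F := by
  have hκ : Nonempty (Fin A.g ⊕ Fin A.g) := ⟨Sum.inl ⟨0, Nat.pos_of_ne_zero hg⟩⟩
  have hϖ := Complex.two_pi_I_ne_zero
  obtain ⟨σ₀, x, hx, -, -⟩ := S.hodge
  have hnd := k3_nd S.conjugation S.hermitian hx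
  have M := mde A S hnd
  constructor
  · rintro ⟨h1, h2⟩
    refine hMxd K c m S.h (DR (lt A S)) n ?_ r F ?_ h1
      (fun v hv => h2 v fun s => ⟨(hv s).1, (asm_dr S _).mpr (hv s).2⟩)
    · intro d F' _ hr ha
      have hinv := hInv _ _ (pData A) K c m S.h (lt A S) hϖ M (kil S hg hK) d F' hr ha
      refine hDsd K c m d S.h S.conjugation F' ?_ hr
      by_cases hc : c = RingHom.id K
      · subst hc
        refine hOrd K m d S.h (fun σ => ?_) ?_ hnd F' hinv
        · ext y
          rw [S.conjugation]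
          rfl
        · ext a b
          exact (S.hermitian a b).symm
      · have hcm : ∀ σ : K →+* ℂ, cj σ ≠ σ := by
          intro σ h1
          apply hc
          ext y
          have h2 := S.conjugation σ y
          have h3 : σ y = σ (c y) := by
            rw [← h2]
            exact (RingHom.congr_fun h1 y).symm
          exact (σ.injective h3).symm
        exact Submodule.span_mono (asm_pp S.h d)
          (fftC S.conjugation hcm S.hermitian hnd F' hinv)
    · intro i j
      have h3 : opT (lt A S) (0 : TC K m) = 0 := by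
        rw [opT]
        exact Finset.sum_eq_zero fun σ _ => map_zero _
      rw [h3]
      exact isAlgebraic_zero
  · rintro ⟨N, p, ω, hω, hF⟩
    obtain ⟨q1, q2⟩ := hRev _ _ (pData A) K c m S.h (lt A S) M
    obtain ⟨d1, d2⟩ := hRvd _ _ (pData A) K c m S.h (lt A S) M
    constructor
    · intro v hv
      rw [hF]
      refine asm_rat_sum _ _ fun j _ => ?_
      obtain ⟨l, l₁, l₂, e, z, z₁, i, -, hj⟩ := hω j
      rw [hj]
      choose y hy using fun s => asm_rat (v s).2 (hv s).2
      obtain ⟨a1, ha1⟩ := asm_rat_prod Finset.univ (fun a => qf S.h (z a)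
        (v (e (.inl (.inl (a, 0))))).2 (v (e (.inl (.inl (a, 1))))).2) (fun a _ => by
          rw [hy, hy, ← asm_qz]; exact q1 _ _ _)
      obtain ⟨a2, ha2⟩ := asm_rat_prod Finset.univ (fun b => df (z₁ b) fun j =>
        (v (e (.inl (.inr (b, j))))).2) (fun b _ => by
          simp only [hy]; exact d1 _ _)
      obtain ⟨a3, ha3⟩ := asm_rat_prod Finset.univ (fun b => (v (e (.inr b))).1 (i b))
        (fun b _ => (hv _).1 _)
      rw [ha1, ha2, ha3]
      exact ⟨p j * (a1 * a2 * a3), by push_cast; ring⟩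
    · intro v hv
      rw [hF]
      refine asm_alg_sum _ _ fun j _ => (isAlgebraic_algebraMap (p j)).mul ?_
      obtain ⟨l, l₁, l₂, e, z, z₁, i, hl, hj⟩ := hω j
      rw [hj]
      refine ((asm_alg_prod _ _ fun a _ => ?_).mul (asm_alg_prod _ _ fun b _ => ?_)).mul
        (asm_alg_prod _ _ fun b _ => (hv _).1 _)
      · rw [← asm_qz]
        exact q2 _ _ _ ((asm_dr S _).mp (hv _).2) ((asm_dr S _).mp (hv _).2)
      · by_cases hc : c = RingHom.id K
        · exact d2 hc _ _ fun j => (asm_dr S _).mp (hv _).2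
        · have h0 := hl hc
          subst h0
          exact b.elim0

end

end Pool.Agent.K3P
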