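import Pool.Agent.K3P.St

/-!
# K3P [Exc]: the exchange relation
-/

set_option autoImplicit false

namespace Pool.Agent.K3P

theorem thm_Exc : St_Exc := by
  intro Pl _ m d c hc i r₀ b hb
  have hab : (i r₀).2 ≠ b := fun h => hb r₀ (by rw [← h])
  have h := hc (Function.update i r₀ ((i r₀).1, b)) (i r₀).1 (i r₀).2 b hab
  have key : ∀ r : Fin d,
      (if Function.update i r₀ ((i r₀).1, b) r = ((i r₀).1, (i r₀).2) then
        c (Function.update (Function.update i r₀ ((i r₀).1, b)) r ((i r₀).1, b)) else
      if Function.update i r₀ ((i r₀).1, b) r = ((i r₀).1, b) then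
        -c (Function.update (Function.update i r₀ ((i r₀).1, b)) r ((i r₀).1, (i r₀).2)) else 0) =
      (if r = r₀ then -c i else 0) + (if r ≠ r₀ ∧ i r = i r₀ then
        c (Function.update (Function.update i r₀ ((i r₀).1, b)) r ((i r₀).1, b)) else 0) := by
    intro r
    rcases eq_or_ne r r₀ with rfl | hr
    · rw [Function.update_self, if_neg (fun h' => hab (Prod.ext_iff.1 h').2.symm), if_pos rfl,
        if_pos rfl, if_neg (fun h' => h'.1 rfl), add_zero, Function.update_idem, Prod.mk.eta,
        Function.update_eq_self]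
    · rw [Function.update_of_ne hr, Prod.mk.eta, if_neg (hb r), if_neg hr, zero_add]
      by_cases h1 : i r = i r₀
      · rw [if_pos h1, if_pos ⟨hr, h1⟩]
      · rw [if_neg h1, if_neg (fun h' => h1 h'.2)]
  rw [Finset.sum_congr rfl fun r _ => key r, Finset.sum_add_distrib, Finset.sum_ite_eq',
    if_pos (Finset.mem_univ _), ← Finset.sum_filter] at h
  exact (neg_add_eq_zero.1 h)

end Pool.Agent.K3P
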