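import Pool.Agent.K3P.St
import Pool.Agent.KSV.Result

/-!
# K3P, KIL: the Lie algebra of the Kuga-Satake structure kills all Grothendieck forms
-/

set_option autoImplicit false

open scoped ComplexConjugate

namespace Pool.Agent.K3P

open Module Matrix NumberField Pool.Agent.Helper7 Pool.Agent.KS Pool.Agent.Ball Pool.Agent.KSE
  Pool.Agent.Helper28.GPC Pool.Agent.KSR
open Pool.Agent.GPC (AbVar OddSparse oddSparse_abelian oddSparse_small)
open Pool.Agent.KSV (Ok)

/-- the condition on the endomorphism field and the dimension -/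
def Adm {A : AbVar} {K : Type} [Field K] [NumberField K] {c : K →+* K} {m : ℕ}
    (_ : A.KugaSatakeMul K c m) : Prop :=
  (c = RingHom.id K ∧ 3 ≤ m ∧
      (m ≠ 5 ∨ (finrank ℚ K = 1 ∧
        ∃ B : AbVar, B.IsGenericSurface ∧ ∃ f, B.IsMor A f ∧ ∃ v, f v ≠ 0))) ∨
    (c ≠ RingHom.id K ∧ (m = 1 ∨ Even m) ∧
      ((IsGalois ℚ K ∧ ∀ g g' : K ≃ₐ[ℚ] K, g * g' = g' * g) ∨ finrank ℚ K ≤ 6 ∨ OddSparse K))

section

variable {κ : Type} [Fintype κ] [DecidableEq κ] {ϖ : ℂ}

/-- the slot of the product with one factor -/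
def kil_ev (κ : Type) : HW (fun _ : Unit => κ) (fun _ => 1) →ₗ[ℂ] (κ → ℂ) where
  toFun w := w () 0
  map_add' _ _ := rfl
  map_smul' _ _ := rfl

lemma kil_conv (P : PData κ ϖ) (Z : Module.End ℂ (κ → ℂ)) {k : ℕ}
    (α : MultilinearMap ℂ (fun _ : Fin (2 * k) => κ → ℂ) ℂ)
    (hB : ∀ v : Fin (2 * k) → κ → ℂ, (∀ r, v r ∈ P.Q) → ∃ p : ℚ, α v = ϖ ^ k * p)
    (hA : ∀ v : Fin (2 * k) → κ → ℂ, (∀ r j, IsAlgebraic ℚ (v r j)) → IsAlgebraic ℚ (α v))
    (H : ∀ α' : MultilinearMap ℂ (fun _ : Fin (2 * k) => HW (fun _ : Unit => κ) (fun _ => 1)) ℂ,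
      (∀ v : Fin (2 * k) → HW (fun _ : Unit => κ) (fun _ => 1),
        (∀ r, IsRatP (fun _ => 1) (fun _ : Unit => P) (v r)) → ∃ q : ℚ, α' v = ϖ ^ k * q) →
      (∀ v : Fin (2 * k) → HW (fun _ : Unit => κ) (fun _ => 1),
        (∀ r i m j, IsAlgebraic ℚ (v r i m j)) → IsAlgebraic ℚ (α' v)) →
      actForm (lift (fun _ => 1) (fun _ : Unit => Z)) α' = 0) : actForm Z α = 0 := by
  apply MultilinearMap.ext
  intro v
  have h1 := H (α.compLinearMap fun _ => kil_ev κ)
    (fun w hw => hB _ fun r => hw r () 0) (fun w hw => hA _ fun r j => hw r () 0 j)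
  have h2 := congrArg (fun F => F (fun r => (fun _ _ => v r :
    HW (fun _ : Unit => κ) (fun _ => 1)))) h1
  simp only [actForm_apply] at h2
  rw [actForm_apply, MultilinearMap.zero_apply]
  rw [MultilinearMap.zero_apply] at h2
  rw [← h2]
  refine Finset.sum_congr rfl fun r _ => ?_
  rw [MultilinearMap.compLinearMap_apply]
  congr 1
  funext r'
  by_cases hr : r' = r
  · subst hr
    rw [Function.update_self, Function.update_self]
    rfl
  · rw [Function.update_of_ne hr, Function.update_of_ne hr]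
    rfl

end

section

variable {A : AbVar} {K : Type} [Field K] [NumberField K] {c : K →+* K} {m : ℕ}

lemma kil_real (S : A.KugaSatakeMul K c m) (hg : A.g ≠ 0) (hc : c = RingHom.id K) (hm : 3 ≤ m)
    (hOk : Ok (pData A) K m) : Kill (pData A) (lt A S) := by
  intro k α hB hA Z hZ
  refine kil_conv (pData A) Z α hB hA fun α' hB' hA' => ?_
  have h1 := Pool.Agent.KSV.kill_avB (fun _ : Unit => A) (fun _ => S) (fun _ => hc) (fun _ => hg)
    Pool.Agent.KSV.Hall5_ (fun _ => hm) (fun _ => hOk) (Or.inr inferInstance)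
    (fun i j hij => absurd (Subsingleton.elim i j) hij) (fun _ => 1) k α' hB' hA' () Z hZ
  have h2 : (Pi.single () Z : (i : Unit) → Module.End ℂ A.H1) = fun _ => Z := by
    funext i
    exact Pi.single_eq_same _ _
  rw [h2] at h1
  exact h1

lemma kil_cm (S : A.KugaSatakeMul K c m) (hc : c ≠ RingHom.id K) (hm : m = 1 ∨ Even m)
    (hodd : OddSparse K) : Kill (pData A) (lt A S) := by
  intro k α hB hA Z hZ
  refine kil_conv (pData A) Z α hB hA fun α' hB' hA' => ?_
  have hϖ := Complex.two_pi_I_ne_zero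
  obtain ⟨σ₀, x, hx, hx1, hx2⟩ := S.hodge
  have hnd := k3_nd S.conjugation S.hermitian hx
  have M := mde A S hnd
  have hx0 := k3_ne hx
  have hdef := fun σ => k3_def S.conjugation S.hermitian hx σ
  have hm0 : 0 < m := by
    rcases Nat.eq_zero_or_pos m with h0 | h0
    · exfalso
      subst h0
      apply hx0
      rw [pr, dotProduct]
      exact Finset.sum_eq_zero fun a _ => a.elim0
    · exact h0
  have hcm : ∀ σ : K →+* ℂ, cj σ ≠ σ := by
    intro σ h1
    apply hc
    ext y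
    have h2 := S.conjugation σ y
    have h3 : σ y = σ (c y) := by
      rw [← h2]
      exact (RingHom.congr_fun h1 y).symm
    exact (σ.injective h3).symm
  exact killC hϖ (pData A) (hnd_pData A) M α' hB' hA' hcm (hm.imp id fun h => ⟨hm0, h⟩) hodd σ₀
    (k3_lor S.conjugation S.hermitian hx (hcm σ₀)) hdef Z hZ

theorem kil (S : A.KugaSatakeMul K c m) (hg : A.g ≠ 0) (hK : Adm S) :
    Kill (pData A) (lt A S) := by
  rcases hK with ⟨hc, hm, h5⟩ | ⟨hc, hm, h3⟩
  · refine kil_real S hg hc hm ?_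
    rcases h5 with h1 | ⟨h1, B, hB, f, hf, hf0⟩
    · exact Or.inl h1
    · exact Or.inr ⟨h1, Pool.Agent.KSV.thm_Surf Pool.Agent.KT.thm_KT B A hB f hf hf0⟩
  · refine kil_cm S hc hm ?_
    rcases h3 with ⟨h4, h5⟩ | h | h
    · exact oddSparse_abelian K h5
    · exact oddSparse_small K c S.conjugation h
    · exact h

end

end Pool.Agent.K3P
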