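import Pool.Agent.K3P.St

/-!
# K3P: from tensor powers of `T` to the cohomology of the powers of `X`
-/

set_option autoImplicit false

namespace Pool.Agent.K3P

open Module Matrix NumberField Pool.Agent.Helper7 Pool.Agent.KS Pool.Agent.Ball Pool.Agent.KSE
open Pool.Agent.GPC (AbVar TC IsRatT qf HX IsGrK3 IsBasicK3 IsGenK3)

section mix

variable {K : Type} [Field K] [NumberField K] {m : ℕ}

lemma Mix_qz (h : Matrix (Fin m) (Fin m) K) (z : K) (x y : TC K m) :
    qz h z x y = qf h z x y := by
  unfold qz qf pr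
  refine Finset.sum_congr rfl fun σ _ => ?_
  congr 1
  simp only [dotProduct, Matrix.mulVec, Matrix.map_apply, Finset.mul_sum]
  refine Finset.sum_congr rfl fun a _ => Finset.sum_congr rfl fun b _ => ?_
  ring

/-- combinations of basic forms, with any finite index type -/
def Mix_G (h : Matrix (Fin m) (Fin m) K) (r n : ℕ) (φ : (Fin n → HX r K m) → ℂ) : Prop :=
  ∃ (ι : Type) (_ : Fintype ι) (p : ι → ℚ) (ω : ι → (Fin n → HX r K m) → ℂ),
    (∀ j, IsBasicK3 h r n (ω j)) ∧ ∀ v, φ v = ∑ j, (p j : ℂ) * ω j v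

lemma Mix_G_sum {h : Matrix (Fin m) (Fin m) K} {r n : ℕ} {α : Type} [Fintype α]
    (φ : α → (Fin n → HX r K m) → ℂ) (hφ : ∀ a, Mix_G h r n (φ a)) :
    Mix_G h r n (fun v => ∑ a, φ a v) := by
  choose ι fi p ω h1 h2 using hφ
  refine ⟨Σ a, ι a, inferInstance, fun j => p j.1 j.2, fun j => ω j.1 j.2,
    fun j => h1 j.1 j.2, fun v => ?_⟩
  rw [Fintype.sum_sigma]
  exact Finset.sum_congr rfl fun a _ => h2 a v

lemma Mix_G_gen {h : Matrix (Fin m) (Fin m) K} {r n : ℕ}
    (F : MultilinearMap ℂ (fun _ : Fin n => HX r K m) ℂ) (hF : Mix_G h r n F) :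
    IsGenK3 h r n F := by
  obtain ⟨ι, fi, p, ω, h1, h2⟩ := hF
  refine ⟨Fintype.card ι, fun j => p ((Fintype.equivFin ι).symm j),
    fun j => ω ((Fintype.equivFin ι).symm j), fun j => h1 _, fun v => ?_⟩
  rw [h2 v]
  exact (Equiv.sum_comp (Fintype.equivFin ι).symm (fun j => (p j : ℂ) * ω j v)).symm

/-- the component of a vector -/
noncomputable def Mix_part {r : ℕ} (o : Option (Fin r)) (w : HX r K m) : HX r K m :=
  o.elim (0, w.2) fun i => w.1 i • ((Pi.single i 1 : Fin r → ℂ), (0 : TC K m))

omit [NumberField K] in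
lemma Mix_part_sum {r : ℕ} (w : HX r K m) : ∑ o, Mix_part o w = w := by
  rw [Fintype.sum_option]
  have h1 : ∑ i : Fin r, Mix_part (some i) w = (w.1, (0 : TC K m)) := by
    have h2 : ∀ i : Fin r, Mix_part (some i) w =
        LinearMap.inl ℂ (Fin r → ℂ) (TC K m) (w.1 i • (Pi.single i 1 : Fin r → ℂ)) := by
      intro i
      rw [map_smul]
      rfl
    rw [Finset.sum_congr rfl fun i _ => h2 i, ← map_sum]
    have h3 : ∑ i : Fin r, w.1 i • (Pi.single i 1 : Fin r → ℂ) = w.1 := by
      funext j
      rw [Finset.sum_apply, Finset.sum_eq_single j]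
      · rw [Pi.smul_apply, Pi.single_eq_same, smul_eq_mul, mul_one]
      · intro i _ hij
        rw [Pi.smul_apply, Pi.single_eq_of_ne (Ne.symm hij), smul_zero]
      · intro hj
        exact absurd (Finset.mem_univ j) hj
    rw [h3]
    rfl
  rw [h1]
  change ((0 : Fin r → ℂ), w.2) + (w.1, (0 : TC K m)) = w
  rw [Prod.mk_add_mk, zero_add, add_zero]

end mix

theorem thm_Mix : St_Mix := by
  intro K _ _ m h D n H r F hD0 hQ hA
  classical
  apply Mix_G_gen
  have hF : ∀ v : Fin n → HX r K m, F v =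
      ∑ f : Fin n → Option (Fin r), F fun s => Mix_part (f s) (v s) := by
    intro v
    have h1 := F.map_sum (fun (s : Fin n) (o : Option (Fin r)) => Mix_part o (v s))
    rw [← h1]
    congr 1
    funext s
    exact (Mix_part_sum (v s)).symm
  have hF' : (⇑F : (Fin n → HX r K m) → ℂ) =
      fun v => ∑ f : Fin n → Option (Fin r), F fun s => Mix_part (f s) (v s) := funext hF
  rw [hF']
  refine Mix_G_sum (fun (f : Fin n → Option (Fin r)) v => F fun s => Mix_part (f s) (v s)) ?_
  intro f
  -- the slots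
  let P : Fin n → Prop := fun s => f s = none
  let d : ℕ := Fintype.card {s // P s}
  let l' : ℕ := Fintype.card {s // ¬ P s}
  let e0 : {s // P s} ≃ Fin d := Fintype.equivFin _
  let e1 : {s // ¬ P s} ≃ Fin l' := Fintype.equivFin _
  let ε : Fin d ⊕ Fin l' ≃ Fin n := (Equiv.sumCongr e0.symm e1.symm).trans (Equiv.sumCompl P)
  have hd : d ≤ n := by
    have := Fintype.card_subtype_le P
    rwa [Fintype.card_fin] at this
  let idx : {s // ¬ P s} → Fin r := fun s => Option.get (f s.1) (Option.isSome_iff_ne_none.mpr s.2)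
  have hidx : ∀ s : {s // ¬ P s}, f s.1 = some (idx s) := fun s => (Option.some_get _).symm
  let zz : (i : {s // ¬ P s}) → HX r K m := fun s => ((Pi.single (idx s) 1 : Fin r → ℂ), (0 : TC K m))
  let G : MultilinearMap ℂ (fun _ : Fin d => TC K m) ℂ :=
    ((F.domDomRestrict P zz).compLinearMap
      (fun _ => LinearMap.inr ℂ (Fin r → ℂ) (TC K m))).domDomCongr e0
  have hG : ∀ y : Fin d → TC K m, G y =
      F fun s => if hs : P s then ((0 : Fin r → ℂ), y (e0 ⟨s, hs⟩)) else zz ⟨s, hs⟩ := by
    intro y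
    rfl
  obtain ⟨N, l, p, e, z, hgen⟩ := H d G hd (by
      intro y
      rw [hG]
      apply hQ
      intro s
      by_cases hs : P s
      · rw [dif_pos hs]
        refine ⟨fun i => ⟨0, by simp⟩, ⟨y (e0 ⟨s, hs⟩), fun σ a => rfl⟩⟩
      · rw [dif_neg hs]
        refine ⟨fun i => ?_, ⟨0, fun σ a => by simp [zz]⟩⟩
        by_cases hi : i = idx ⟨s, hs⟩
        · refine ⟨1, ?_⟩
          simp [zz, hi]
        · refine ⟨0, ?_⟩
          simp [zz, Pi.single_eq_of_ne hi]) (by
      intro v hv
      rw [hG]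
      apply hA
      intro s
      by_cases hs : P s
      · rw [dif_pos hs]
        exact ⟨fun i => isAlgebraic_zero, hv _⟩
      · rw [dif_neg hs]
        refine ⟨fun i => ?_, hD0⟩
        by_cases hi : i = idx ⟨s, hs⟩
        · have : (zz ⟨s, hs⟩).1 i = 1 := by simp [zz, hi]
          rw [this]
          exact isAlgebraic_one
        · have : (zz ⟨s, hs⟩).1 i = 0 := by simp [zz, Pi.single_eq_of_ne hi]
          rw [this]
          exact isAlgebraic_zero)
  refine ⟨Fin N, inferInstance, p, fun j v =>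
    (∏ a, qf h (z j a) (v (ε (.inl (e j (a, 0))))).2 (v (ε (.inl (e j (a, 1))))).2) *
      ∏ b, (v (ε (.inr b))).1 (idx (e1.symm b)), fun j => ?_, fun v => ?_⟩
  · exact ⟨l, l', (Equiv.sumCongr (e j) (Equiv.refl _)).trans ε, z j, fun b => idx (e1.symm b),
      fun v => rfl⟩
  · let c : Fin n → ℂ := fun s => if hs : P s then 1 else (v s).1 (idx ⟨s, hs⟩)
    let w : Fin n → HX r K m := fun s =>
      if hs : P s then ((0 : Fin r → ℂ), (v s).2) else zz ⟨s, hs⟩
    have h1 : (fun s => Mix_part (f s) (v s)) = fun s => c s • w s := by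
      funext s
      by_cases hs : P s
      · have h2 : f s = none := hs
        simp only [c, w, dif_pos hs, h2, one_smul]
        rfl
      · have h2 : f s = some (idx ⟨s, hs⟩) := hidx ⟨s, hs⟩
        simp only [c, w, dif_neg hs]
        rw [h2]
        rfl
    have h2 : (F fun s => Mix_part (f s) (v s)) = (∏ s, c s) * F w := by
      rw [h1, F.map_smul_univ, smul_eq_mul]
    have h3 : ∏ s, c s = ∏ b, (v (ε (.inr b))).1 (idx (e1.symm b)) := by
      rw [← Equiv.prod_comp ε, Fintype.prod_sum_type]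
      have h4 : ∀ a : Fin d, c (ε (.inl a)) = 1 := by
        intro a
        have h5 : P (ε (.inl a)) := (e0.symm a).2
        simp only [c, dif_pos h5]
      have h6 : ∀ b : Fin l', c (ε (.inr b)) = (v (ε (.inr b))).1 (idx (e1.symm b)) := by
        intro b
        have h5 : ¬ P (ε (.inr b)) := (e1.symm b).2
        simp only [c, dif_neg h5]
        rfl
      rw [Finset.prod_congr rfl fun a _ => h4 a, Finset.prod_const_one, one_mul]
      exact Finset.prod_congr rfl fun b _ => h6 b
    have h7 : F w = G fun a => (v (ε (.inl a))).2 := by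
      rw [hG]
      congr 1
      funext s
      by_cases hs : P s
      · simp only [w, dif_pos hs]
        have h8 : ε (.inl (e0 ⟨s, hs⟩)) = s := by
          change ((e0.symm (e0 ⟨s, hs⟩)) : Fin n) = s
          rw [Equiv.symm_apply_apply]
        rw [h8]
      · simp only [w, dif_neg hs]
    change (F fun s => Mix_part (f s) (v s)) = _
    rw [h2, h3, h7, hgen, Finset.mul_sum]
    refine Finset.sum_congr rfl fun j _ => ?_
    simp only [Mix_qz]
    ring

end Pool.Agent.K3P
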