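import Pool.Agent.K3P.St

/-!
# K3P, MOV: renaming of indices
-/

set_option autoImplicit false

namespace Pool.Agent.K3P

private theorem Mov_step (h : St_Exc) {Pl : Type} [DecidableEq Pl] {m d l : ℕ}
    (c : (Fin d → Pl × Fin m) → ℂ) (hc : Rot c) (e : Fin l × Fin 2 ≃ Fin d) (s : Fin l → Pl)
    (f : Fin l → Fin m) (hf : Function.Injective (fun a => (s a, f a))) (a₀ : Fin l) (b : Fin m)
    (hb : ∀ a, (s a, f a) ≠ (s a₀, b)) :
    c (tup e s (Function.update f a₀ b)) = c (tup e s f) := by
  have h1 := h Pl m d c hc (tup e s f) (e (a₀, 0)) b (by
    intro r
    have h2 := hb (e.symm r).1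
    simpa [tup] using h2)
  have hfil : Finset.univ.filter (fun r => r ≠ e (a₀, 0) ∧ tup e s f r = tup e s f (e (a₀, 0))) =
      {e (a₀, 1)} := by
    ext r
    simp only [Finset.mem_filter, Finset.mem_univ, true_and, Finset.mem_singleton]
    constructor
    · rintro ⟨h2, h3⟩
      have h4 : (e.symm r).1 = a₀ := by
        apply hf
        simpa [tup] using h3
      have h5 : e.symm r = (a₀, (e.symm r).2) := by
        rw [← h4]
      have h6 : (e.symm r).2 = 1 := by
        rcases Fin.exists_fin_two.1 ⟨(e.symm r).2, rfl⟩ with h7 | h7
        · exfalso
          apply h2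
          rw [h7] at h5
          rw [← h5]
          simp
        · exact h7
      rw [h6] at h5
      rw [← h5]
      simp
    · rintro rfl
      refine ⟨?_, by simp [tup]⟩
      intro h2
      have h3 := e.injective h2
      simp at h3
  rw [hfil, Finset.sum_singleton] at h1
  rw [h1]
  congr 1
  funext r
  have h8 : (tup e s f (e (a₀, 0))).1 = s a₀ := by simp [tup]
  rw [h8]
  by_cases hr1 : r = e (a₀, 1)
  · subst hr1
    simp [tup]
  · rw [Function.update_of_ne hr1]
    by_cases hr0 : r = e (a₀, 0)
    · subst hr0
      simp [tup]
    · rw [Function.update_of_ne hr0]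
      have h9 : (e.symm r).1 ≠ a₀ := by
        intro h10
        have h11 : e.symm r = (a₀, (e.symm r).2) := by rw [← h10]
        rcases Fin.exists_fin_two.1 ⟨(e.symm r).2, rfl⟩ with h7 | h7
        · apply hr0
          rw [h7] at h11
          rw [← h11]
          simp
        · apply hr1
          rw [h7] at h11
          rw [← h11]
          simp
      simp [tup, Function.update_of_ne h9]

private theorem Mov_inj {Pl : Type} {m l : ℕ} (s : Fin l → Pl)
    (f : Fin l → Fin m) (hf : Function.Injective (fun a => (s a, f a))) (a₀ : Fin l) (b : Fin m)
    (hb : ∀ a, (s a, f a) ≠ (s a₀, b)) :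
    Function.Injective (fun a => (s a, Function.update f a₀ b a)) := by
  intro x y hxy
  by_cases hx : x = a₀
  · by_cases hy : y = a₀
    · rw [hx, hy]
    · exfalso
      subst hx
      simp only [Function.update_self, Function.update_of_ne hy] at hxy
      exact hb y hxy.symm
  · by_cases hy : y = a₀
    · exfalso
      subst hy
      simp only [Function.update_self, Function.update_of_ne hx] at hxy
      exact hb x hxy
    · simp only [Function.update_of_ne hx, Function.update_of_ne hy] at hxy
      exact hf hxy

private theorem Mov_main (h : St_Exc) {Pl : Type} [DecidableEq Pl] {m d l : ℕ} (hd : d < m)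
    (c : (Fin d → Pl × Fin m) → ℂ) (hc : Rot c) (e : Fin l × Fin 2 ≃ Fin d) (s : Fin l → Pl)
    (f' : Fin l → Fin m) (hf' : Function.Injective (fun a => (s a, f' a))) (n : ℕ) :
    ∀ f : Fin l → Fin m, Function.Injective (fun a => (s a, f a)) →
      (Finset.univ.filter (fun a => f a ≠ f' a)).card ≤ n →
      c (tup e s f) = c (tup e s f') := by
  have hlm : l < m := by
    have h1 := Fintype.card_congr e
    simp only [Fintype.card_prod, Fintype.card_fin] at h1
    omega
  induction n with
  | zero =>
    intro f hf hcard
    have h1 : Finset.univ.filter (fun a => f a ≠ f' a) = ∅ := by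
      rw [← Finset.card_eq_zero]
      omega
    have h2 : f = f' := by
      funext a
      by_contra h3
      have h4 : a ∈ Finset.univ.filter (fun a => f a ≠ f' a) := by simp [h3]
      rw [h1] at h4
      simp at h4
    rw [h2]
  | succ n ih =>
    intro f hf hcard
    by_cases hall : ∀ a, f a = f' a
    · rw [funext hall]
    · push Not at hall
      obtain ⟨a₀, ha₀⟩ := hall
      by_cases hused : ∃ a₁, (s a₁, f a₁) = (s a₀, f' a₀)
      · obtain ⟨a₁, ha₁⟩ := hused
        have hs : s a₁ = s a₀ := congrArg Prod.fst ha₁
        have hfa : f a₁ = f' a₀ := congrArg Prod.snd ha₁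
        have hne : a₁ ≠ a₀ := by
          rintro rfl
          exact ha₀ hfa
        have hd1 : f a₁ ≠ f' a₁ := by
          intro h1
          apply hne
          apply hf'
          change (s a₁, f' a₁) = (s a₀, f' a₀)
          rw [← h1, hfa, hs]
        obtain ⟨b, hb⟩ : ∃ b : Fin m, b ∉ Finset.univ.image f := by
          by_contra h1
          push Not at h1
          have h2 : (Finset.univ : Finset (Fin m)) ⊆ Finset.univ.image f := fun x _ => h1 x
          have h3 := Finset.card_le_card h2
          have h4 : (Finset.univ.image f).card ≤ l := by
            have := Finset.card_image_le (s := (Finset.univ : Finset (Fin l))) (f := f)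
            simpa using this
          simp only [Finset.card_univ, Fintype.card_fin] at h3
          omega
        have hb1 : ∀ a, f a ≠ b := by
          intro a h1
          apply hb
          rw [Finset.mem_image]
          exact ⟨a, Finset.mem_univ a, h1⟩
        have hb2 : ∀ a, (s a, f a) ≠ (s a₁, b) := fun a h1 => hb1 a (congrArg Prod.snd h1)
        set g := Function.update f a₁ b with hg
        have hg1 := Mov_step h c hc e s f hf a₁ b hb2
        have hginj := Mov_inj s f hf a₁ b hb2
        have hg2 : ∀ a, (s a, g a) ≠ (s a₀, f' a₀) := by
          intro a h1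
          by_cases ha : a = a₁
          · rw [ha, hg, Function.update_self] at h1
            exact hb1 a₁ (hfa.trans (congrArg Prod.snd h1).symm)
          · rw [hg, Function.update_of_ne ha, ← ha₁] at h1
            exact ha (hf h1)
        have hk1 := Mov_step h c hc e s g hginj a₀ (f' a₀) hg2
        have hkinj := Mov_inj s g hginj a₀ (f' a₀) hg2
        rw [← hg1, ← hk1]
        apply ih _ hkinj
        have hsub : Finset.univ.filter (fun a => Function.update g a₀ (f' a₀) a ≠ f' a) ⊆
            (Finset.univ.filter (fun a => f a ≠ f' a)).erase a₀ := by
          intro a ha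
          simp only [Finset.mem_filter, Finset.mem_univ, true_and] at ha
          rw [Finset.mem_erase]
          have haa : a ≠ a₀ := by
            rintro rfl
            apply ha
            rw [Function.update_self]
          refine ⟨haa, ?_⟩
          rw [Function.update_of_ne haa] at ha
          simp only [Finset.mem_filter, Finset.mem_univ, true_and]
          by_cases ha1 : a = a₁
          · rw [ha1]
            exact hd1
          · rw [hg, Function.update_of_ne ha1] at ha
            exact ha
        have h5 := Finset.card_le_card hsub
        have h6 : a₀ ∈ Finset.univ.filter (fun a => f a ≠ f' a) := by simp [ha₀]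
        rw [Finset.card_erase_of_mem h6] at h5
        omega
      · push Not at hused
        have hk1 := Mov_step h c hc e s f hf a₀ (f' a₀) hused
        have hkinj := Mov_inj s f hf a₀ (f' a₀) hused
        rw [← hk1]
        apply ih _ hkinj
        have hsub : Finset.univ.filter (fun a => Function.update f a₀ (f' a₀) a ≠ f' a) ⊆
            (Finset.univ.filter (fun a => f a ≠ f' a)).erase a₀ := by
          intro a ha
          simp only [Finset.mem_filter, Finset.mem_univ, true_and] at ha
          rw [Finset.mem_erase]
          have haa : a ≠ a₀ := by
            rintro rfl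
            apply ha
            rw [Function.update_self]
          refine ⟨haa, ?_⟩
          rw [Function.update_of_ne haa] at ha
          simp only [Finset.mem_filter, Finset.mem_univ, true_and]
          exact ha
        have h5 := Finset.card_le_card hsub
        have h6 : a₀ ∈ Finset.univ.filter (fun a => f a ≠ f' a) := by simp [ha₀]
        rw [Finset.card_erase_of_mem h6] at h5
        omega

theorem thm_Mov (h : St_Exc) : St_Mov := by
  intro Pl _ m d hd c hc l e s f f' hf hf'
  exact Mov_main h hd c hc e s f' hf' _ f hf le_rfl

end Pool.Agent.K3P
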