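import Pool.Agent.K3P.St

/-!
# K3P, module ORT

From the first fundamental theorem in coordinates to multilinear forms on `T ⊗ ℂ`, by orthonormal
bases of the eigenspaces.
-/

set_option autoImplicit false
set_option linter.unusedSectionVars false

namespace Pool.Agent.K3P

open Module Matrix NumberField Pool.Agent.KSE
open Pool.Agent.GPC (TC)

private lemma Ort_diag {m : ℕ} (A : Matrix (Fin m) (Fin m) ℂ) (hA : Aᵀ = A) (hd : A.det ≠ 0) :
    ∃ E : (Fin m → ℂ) ≃ₗ[ℂ] (Fin m → ℂ), ∀ x y, x ⬝ᵥ (A *ᵥ y) = ∑ a, E x a * E y a := by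
  classical
  have hsymm : ∀ x y : Fin m → ℂ, x ⬝ᵥ (A *ᵥ y) = y ⬝ᵥ (A *ᵥ x) := by
    intro x y
    rw [Matrix.dotProduct_mulVec, ← Matrix.mulVec_transpose, hA, dotProduct_comm]
  have hBapp : ∀ x y, (Matrix.toLinearMap₂' ℂ A) x y = x ⬝ᵥ (A *ᵥ y) :=
    fun x y => Matrix.toLinearMap₂'_apply' A x y
  have hBs : ∀ x y, (Matrix.toLinearMap₂' ℂ A) x y = (Matrix.toLinearMap₂' ℂ A) y x :=
    fun x y => by rw [hBapp, hBapp]; exact hsymm x y
  have hsl : (QuadraticMap.associated (R := ℂ)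
      (LinearMap.BilinMap.toQuadraticMap (Matrix.toLinearMap₂' ℂ A))).SeparatingLeft := by
    rw [QuadraticMap.associated_left_inverse ℂ hBs]
    exact LinearMap.separatingLeft_toLinearMap₂'_of_det_ne_zero' hd
  obtain ⟨e⟩ := QuadraticForm.equivalent_weightedSumSquares_of_isAlgClosed _ hsl
  have hn : finrank ℂ (Fin m → ℂ) = m := finrank_fin_fun ℂ
  let E : (Fin m → ℂ) ≃ₗ[ℂ] (Fin m → ℂ) :=
    e.toLinearEquiv.trans (LinearEquiv.funCongrLeft ℂ ℂ (finCongr hn.symm))
  have hE : ∀ x a, E x a = e x (finCongr hn.symm a) := fun x a => rfl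
  have h1 : ∀ x, x ⬝ᵥ (A *ᵥ x) = ∑ a, E x a * E x a := by
    intro x
    have h2 := e.map_app x
    rw [QuadraticMap.weightedSumSquares_apply] at h2
    rw [LinearMap.BilinMap.toQuadraticMap_apply, hBapp] at h2
    rw [← h2, ← Equiv.sum_comp (finCongr hn.symm)]
    refine Finset.sum_congr rfl fun a _ => ?_
    rw [hE, Pi.one_apply, one_smul]
  refine ⟨E, fun x y => ?_⟩
  have h3 := h1 (x + y)
  rw [map_add, Matrix.mulVec_add, dotProduct_add, add_dotProduct, add_dotProduct, h1 x, h1 y,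
    hsymm y x] at h3
  simp only [Pi.add_apply, add_mul, mul_add, Finset.sum_add_distrib] at h3
  have h4 : ∑ a, E y a * E x a = ∑ a, E x a * E y a :=
    Finset.sum_congr rfl fun a _ => mul_comm _ _
  rw [h4] at h3
  linear_combination h3 / 2

section coord

variable {K : Type} [Field K] [NumberField K] {m : ℕ}
  (E : (K →+* ℂ) → (Fin m → ℂ) ≃ₗ[ℂ] (Fin m → ℂ))

/-- the coordinates of a vector -/
private noncomputable def Ort_L (p : (K →+* ℂ) × Fin m) : TC K m →ₗ[ℂ] ℂ :=
  (LinearMap.proj p.2).comp ((E p.1).toLinearMap.comp (LinearMap.proj p.1))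

private lemma Ort_L_apply (p : (K →+* ℂ) × Fin m) (v : TC K m) :
    Ort_L E p v = E p.1 (v p.1) p.2 := rfl

/-- the vectors of the basis -/
private noncomputable def Ort_B [DecidableEq (K →+* ℂ)] (p : (K →+* ℂ) × Fin m) : TC K m :=
  Pi.single p.1 ((E p.1).symm (Pi.single p.2 1))

private lemma Ort_sum [DecidableEq (K →+* ℂ)] (v : TC K m) :
    v = ∑ p : (K →+* ℂ) × Fin m, Ort_L E p v • Ort_B E p := by
  funext σ
  rw [Finset.sum_apply, Fintype.sum_prod_type, Finset.sum_eq_single σ]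
  · have h1 : ∀ a : Fin m, (Ort_L E (σ, a) v • Ort_B E (σ, a)) σ =
        (E σ).symm (E σ (v σ) a • Pi.single a (1 : ℂ)) := by
      intro a
      rw [Pi.smul_apply, Ort_L_apply, map_smul]
      show _ • (Pi.single σ ((E σ).symm (Pi.single a 1)) : TC K m) σ = _
      rw [Pi.single_eq_same]
    rw [Finset.sum_congr rfl fun a _ => h1 a, ← map_sum]
    have h2 : ∑ a, E σ (v σ) a • Pi.single a (1 : ℂ) = E σ (v σ) := by
      funext b
      rw [Finset.sum_apply, Finset.sum_eq_single b]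
      · rw [Pi.smul_apply, Pi.single_eq_same, smul_eq_mul, mul_one]
      · intro a _ hab
        rw [Pi.smul_apply, Pi.single_eq_of_ne (Ne.symm hab), smul_zero]
      · intro hb; exact absurd (Finset.mem_univ _) hb
    rw [h2, LinearEquiv.symm_apply_apply]
  · intro s _ hs
    refine Finset.sum_eq_zero fun a _ => ?_
    rw [Pi.smul_apply]
    show _ • (Pi.single s ((E s).symm (Pi.single a 1)) : TC K m) σ = _
    rw [Pi.single_eq_of_ne (Ne.symm hs), smul_zero]
  · intro hs; exact absurd (Finset.mem_univ _) hs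

/-- the products of coordinates -/
private noncomputable def Ort_mu {d : ℕ} (i : Fin d → (K →+* ℂ) × Fin m) :
    MultilinearMap ℂ (fun _ : Fin d => TC K m) ℂ :=
  (MultilinearMap.mkPiAlgebra ℂ (Fin d) ℂ).compLinearMap (fun r => Ort_L E (i r))

private lemma Ort_mu_apply {d : ℕ} (i : Fin d → (K →+* ℂ) × Fin m) (v : Fin d → TC K m) :
    Ort_mu E i v = ∏ r, E (i r).1 (v r (i r).1) (i r).2 := by
  rw [Ort_mu, MultilinearMap.compLinearMap_apply, MultilinearMap.mkPiAlgebra_apply]
  rfl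

private lemma Ort_A [DecidableEq (K →+* ℂ)] {d : ℕ}
    (F : MultilinearMap ℂ (fun _ : Fin d => TC K m) ℂ) :
    Fintype.linearCombination ℂ (Ort_mu E) (fun i => F (fun r => Ort_B E (i r))) = F := by
  refine MultilinearMap.ext fun v => ?_
  rw [Fintype.linearCombination_apply, _root_.sum_apply]
  have hv : F v = F (fun r => ∑ p, Ort_L E p (v r) • Ort_B E p) :=
    congrArg F (funext fun r => Ort_sum E (v r))
  rw [hv, F.map_sum]
  refine Finset.sum_congr rfl fun i _ => ?_
  rw [_root_.smul_apply, Ort_mu_apply]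
  have h2 := F.map_smul_univ (fun r => Ort_L E (i r) (v r)) (fun r => Ort_B E (i r))
  rw [h2, smul_eq_mul, smul_eq_mul, mul_comm]
  rfl

end coord

section sums

variable {X : Type} {d l : ℕ} (e : Fin l × Fin 2 ≃ Fin d)

/-- the tuples as tuples of pairs -/
private def Ort_eq : (Fin d → X) ≃ (Fin l → X × X) where
  toFun i a := (i (e (a, 0)), i (e (a, 1)))
  invFun j r := if (e.symm r).2 = 0 then (j (e.symm r).1).1 else (j (e.symm r).1).2
  left_inv i := by
    funext r
    obtain ⟨⟨a, t⟩, rfl⟩ := e.surjective r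
    simp only [Equiv.symm_apply_apply]
    fin_cases t <;> simp
  right_inv j := by
    funext a
    simp

private lemma Ort_prod {d l : ℕ} (e : Fin l × Fin 2 ≃ Fin d) (g : Fin d → ℂ) :
    ∏ r, g r = ∏ a, (g (e (a, 0)) * g (e (a, 1))) := by
  rw [← Equiv.prod_comp e, Fintype.prod_prod_type]
  refine Finset.prod_congr rfl fun a _ => ?_
  rw [Fin.prod_univ_two]

private lemma Ort_pair {Pl : Type} [Fintype Pl] [DecidableEq Pl] {m : ℕ} (s : Pl)
    (g g' : Pl × Fin m → ℂ) :
    ∑ x : (Pl × Fin m) × (Pl × Fin m), (if x.1 = x.2 ∧ x.1.1 = s then (1 : ℂ) else 0) *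
      (g x.1 * g' x.2) = ∑ b, g (s, b) * g' (s, b) := by
  rw [Fintype.sum_prod_type]
  have h1 : ∀ x : Pl × Fin m, ∑ y : Pl × Fin m, (if x = y ∧ x.1 = s then (1 : ℂ) else 0) *
      (g x * g' y) = if x.1 = s then g x * g' x else 0 := by
    intro x
    rw [Finset.sum_eq_single x]
    · by_cases hx : x.1 = s
      · rw [if_pos ⟨rfl, hx⟩, if_pos hx, one_mul]
      · rw [if_neg (fun hh => hx hh.2), if_neg hx, zero_mul]
    · intro y _ hy
      rw [if_neg (fun hh => hy hh.1.symm), zero_mul]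
    · intro hx; exact absurd (Finset.mem_univ _) hx
  rw [Finset.sum_congr rfl fun x _ => h1 x, Fintype.sum_prod_type, Finset.sum_eq_single s]
  · refine Finset.sum_congr rfl fun b _ => ?_
    rw [if_pos rfl]
  · intro s' _ hs'
    refine Finset.sum_eq_zero fun b _ => ?_
    rw [if_neg hs']
  · intro hs; exact absurd (Finset.mem_univ _) hs

private lemma Ort_dl {Pl : Type} [Fintype Pl] [DecidableEq Pl] {m d l : ℕ}
    (e : Fin l × Fin 2 ≃ Fin d) (s : Fin l → Pl) (g : Fin d → Pl × Fin m → ℂ) :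
    ∑ i : Fin d → Pl × Fin m, dl e s i * ∏ r, g r (i r) =
      ∏ a, ∑ b, g (e (a, 0)) (s a, b) * g (e (a, 1)) (s a, b) := by
  have h1 : ∀ i : Fin d → Pl × Fin m, dl e s i * ∏ r, g r (i r) =
      ∏ a, ((if ((Ort_eq e i) a).1 = ((Ort_eq e i) a).2 ∧ ((Ort_eq e i) a).1.1 = s a
        then (1 : ℂ) else 0) *
        (g (e (a, 0)) ((Ort_eq e i) a).1 * g (e (a, 1)) ((Ort_eq e i) a).2)) := by
    intro i
    rw [Ort_prod e (fun r => g r (i r)), dl, ← Finset.prod_mul_distrib]
    rfl
  rw [Finset.sum_congr rfl fun i _ => h1 i]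
  rw [Equiv.sum_comp (Ort_eq e) (fun j : Fin l → (Pl × Fin m) × (Pl × Fin m) =>
    ∏ a, ((if (j a).1 = (j a).2 ∧ (j a).1.1 = s a then (1 : ℂ) else 0) *
        (g (e (a, 0)) (j a).1 * g (e (a, 1)) (j a).2)))]
  rw [← Fintype.piFinset_univ, ← Finset.prod_univ_sum (fun _ : Fin l => Finset.univ)
    (fun a (x : (Pl × Fin m) × (Pl × Fin m)) =>
      (if x.1 = x.2 ∧ x.1.1 = s a then (1 : ℂ) else 0) *
        (g (e (a, 0)) x.1 * g (e (a, 1)) x.2))]
  refine Finset.prod_congr rfl fun a _ => ?_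
  exact Ort_pair (s a) (g (e (a, 0))) (g (e (a, 1)))

end sums

section rot

variable {K : Type} [Field K] [NumberField K] [DecidableEq (K →+* ℂ)] {m : ℕ}
  (E : (K →+* ℂ) → (Fin m → ℂ) ≃ₗ[ℂ] (Fin m → ℂ))

/-- the rotation in the plane of two vectors of the basis -/
private noncomputable def Ort_N (s : K →+* ℂ) (a b : Fin m) : (Fin m → ℂ) →ₗ[ℂ] (Fin m → ℂ) :=
  (((LinearMap.proj a : (Fin m → ℂ) →ₗ[ℂ] ℂ).comp (E s).toLinearMap).smulRight
      ((E s).symm (Pi.single b 1))) -
  (((LinearMap.proj b : (Fin m → ℂ) →ₗ[ℂ] ℂ).comp (E s).toLinearMap).smulRight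
      ((E s).symm (Pi.single a 1)))

private lemma Ort_N_apply (s : K →+* ℂ) (a b : Fin m) (y : Fin m → ℂ) :
    Ort_N E s a b y = E s y a • (E s).symm (Pi.single b 1) -
      E s y b • (E s).symm (Pi.single a 1) := rfl

private noncomputable def Ort_M (s : K →+* ℂ) (a b : Fin m) (σ : K →+* ℂ) :
    Matrix (Fin m) (Fin m) ℂ :=
  if σ = s then LinearMap.toMatrix' (Ort_N E s a b) else 0

private lemma Ort_M_self (s : K →+* ℂ) (a b : Fin m) (y : Fin m → ℂ) :
    Ort_M E s a b s *ᵥ y = Ort_N E s a b y := by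
  rw [Ort_M, if_pos rfl, LinearMap.toMatrix'_mulVec]

private lemma Ort_M_ne {s σ : K →+* ℂ} (hσ : σ ≠ s) (a b : Fin m) (y : Fin m → ℂ) :
    Ort_M E s a b σ *ᵥ y = 0 := by
  rw [Ort_M, if_neg hσ, Matrix.zero_mulVec]

private lemma Ort_M_B (s : K →+* ℂ) {a b : Fin m} (hab : a ≠ b) (p : (K →+* ℂ) × Fin m) :
    (fun σ => Ort_M E s a b σ *ᵥ Ort_B E p σ) =
      if p = (s, a) then Ort_B E (s, b) else if p = (s, b) then -Ort_B E (s, a) else 0 := by
  obtain ⟨s', a'⟩ := p
  funext σ
  by_cases hσ : σ = s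
  · subst hσ
    rw [Ort_M_self]
    by_cases hs : s' = σ
    · subst hs
      have h1 : Ort_B E (s', a') s' = (E s').symm (Pi.single a' 1) := by
        show (Pi.single s' ((E s').symm (Pi.single a' 1)) : TC K m) s' = _
        rw [Pi.single_eq_same]
      rw [h1, Ort_N_apply, LinearEquiv.apply_symm_apply]
      by_cases ha : a' = a
      · subst ha
        rw [if_pos rfl, Pi.single_eq_same, Pi.single_eq_of_ne (Ne.symm hab), zero_smul, one_smul,
          sub_zero]
        show _ = (Pi.single s' ((E s').symm (Pi.single b 1)) : TC K m) s'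
        rw [Pi.single_eq_same]
      · have h2 : ¬ ((s', a') = (s', a)) := fun hh => ha (congrArg Prod.snd hh)
        rw [if_neg h2]
        by_cases hb : a' = b
        · subst hb
          rw [if_pos rfl, Pi.single_eq_same, Pi.single_eq_of_ne (fun hh => ha hh.symm), zero_smul,
            one_smul, zero_sub, Pi.neg_apply]
          show _ = -(Pi.single s' ((E s').symm (Pi.single a 1)) : TC K m) s'
          rw [Pi.single_eq_same]
        · have h3 : ¬ ((s', a') = (s', b)) := fun hh => hb (congrArg Prod.snd hh)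
          rw [if_neg h3, Pi.single_eq_of_ne (fun hh => ha hh.symm),
            Pi.single_eq_of_ne (fun hh => hb hh.symm), zero_smul, zero_smul, sub_zero]
          rfl
    · have h1 : Ort_B E (s', a') σ = 0 := by
        show (Pi.single s' ((E s').symm (Pi.single a' 1)) : TC K m) σ = _
        rw [Pi.single_eq_of_ne (Ne.symm hs)]
      have h2 : ¬ ((s', a') = (σ, a)) := fun hh => hs (congrArg Prod.fst hh)
      have h3 : ¬ ((s', a') = (σ, b)) := fun hh => hs (congrArg Prod.fst hh)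
      rw [h1, map_zero, if_neg h2, if_neg h3]
      rfl
  · rw [Ort_M_ne E hσ]
    have h1 : ∀ c : Fin m, Ort_B E (s, c) σ = 0 := by
      intro c
      show (Pi.single s ((E s).symm (Pi.single c 1)) : TC K m) σ = _
      rw [Pi.single_eq_of_ne hσ]
    split_ifs
    · rw [h1]
    · rw [Pi.neg_apply, h1, neg_zero]
    · rfl

private lemma Ort_skew {h : Matrix (Fin m) (Fin m) K} (hcj : ∀ σ : K →+* ℂ, cj σ = σ)
    (hE : ∀ (σ : K →+* ℂ) (x y : Fin m → ℂ), pr h σ x y = ∑ a, E σ x a * E σ y a)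
    (s : K →+* ℂ) (a b : Fin m) : SkewM h (Ort_M E s a b) := by
  rw [skewM_iff]
  intro σ x y
  rw [hcj σ]
  by_cases hσ : σ = s
  · subst hσ
    rw [Ort_M_self, Ort_M_self, hE, hE]
    have h1 : ∀ z : Fin m → ℂ, E σ (Ort_N E σ a b z) =
        E σ z a • Pi.single b (1 : ℂ) - E σ z b • Pi.single a (1 : ℂ) := by
      intro z
      rw [Ort_N_apply, map_sub, map_smul, map_smul, LinearEquiv.apply_symm_apply,
        LinearEquiv.apply_symm_apply]
    rw [h1, h1]
    have h2 : ∀ (u v w : ℂ) (z : Fin m → ℂ) , ∑ c, (u • Pi.single b (1 : ℂ) -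
        v • Pi.single a (1 : ℂ) : Fin m → ℂ) c * z c = u * z b - v * z a := by
      intro u v _ z
      simp only [Pi.sub_apply, Pi.smul_apply, smul_eq_mul, sub_mul, Finset.sum_sub_distrib,
        Pi.single_apply, mul_ite, mul_one, mul_zero, ite_mul, zero_mul, Finset.sum_ite_eq',
        Finset.mem_univ, if_true]
    have h3 : ∑ c, E σ x c * (E σ y a • Pi.single b (1 : ℂ) - E σ y b • Pi.single a (1 : ℂ) :
        Fin m → ℂ) c = E σ y a * E σ x b - E σ y b * E σ x a := by
      rw [← h2 (E σ y a) (E σ y b) 0 (E σ x)]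
      exact Finset.sum_congr rfl fun c _ => mul_comm _ _
    rw [h2 (E σ x a) (E σ x b) 0 (E σ y), h3]
    ring
  · rw [Ort_M_ne E hσ, Ort_M_ne E hσ, pr, pr, zero_dotProduct, Matrix.mulVec_zero,
      dotProduct_zero, add_zero]

end rot

theorem thm_Ort (hC : St_Cmb) : St_Ort := by
  intro K _ _ m d h hdm hcj hsym hdet F hF
  classical
  have hE : ∀ σ : K →+* ℂ, ∃ E : (Fin m → ℂ) ≃ₗ[ℂ] (Fin m → ℂ),
      ∀ x y, pr h σ x y = ∑ a, E x a * E y a := by
    intro σ
    refine Ort_diag (h.map σ) ?_ ?_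
    · rw [← Matrix.transpose_map, hsym]
    · have e : (h.map σ).det = σ h.det := (RingHom.map_det σ h).symm
      rw [e]
      exact (map_ne_zero σ).mpr hdet
  choose E hE using hE
  have hrot : Rot (fun i : Fin d → (K →+* ℂ) × Fin m => F (fun r => Ort_B E (i r))) := by
    intro i s a b hab
    have h1 := hF (Ort_M E s a b) (Ort_skew E hcj hE s a b) (fun r => Ort_B E (i r))
    refine Eq.trans ?_ h1
    refine Finset.sum_congr rfl fun r _ => ?_
    have h2 := Ort_M_B E s hab (i r)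
    have hupd : ∀ p : (K →+* ℂ) × Fin m,
        Function.update (fun r => Ort_B E (i r)) r (Ort_B E p) =
          fun r' => Ort_B E (Function.update i r p r') := by
      intro p
      funext r'
      by_cases hr : r' = r
      · subst hr
        rw [Function.update_self, Function.update_self]
      · rw [Function.update_of_ne hr, Function.update_of_ne hr]
    by_cases ha : i r = (s, a)
    · rw [if_pos ha] at h2 ⊢
      rw [h2, hupd]
    · rw [if_neg ha] at h2 ⊢
      by_cases hb : i r = (s, b)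
      · rw [if_pos hb] at h2 ⊢
        rw [h2, MultilinearMap.map_update_neg, hupd]
      · rw [if_neg hb] at h2 ⊢
        rw [h2, MultilinearMap.map_update_zero]
  have h1 := hC (K →+* ℂ) m d hdm _ hrot
  have h2 := Submodule.mem_map_of_mem (f := Fintype.linearCombination ℂ (Ort_mu E (d := d))) h1
  rw [Ort_A, Submodule.map_span] at h2
  refine Submodule.span_mono ?_ h2
  rintro _ ⟨_, ⟨l, e, s, rfl⟩, rfl⟩
  refine ⟨l, e, s, fun v => ?_⟩
  rw [Fintype.linearCombination_apply, _root_.sum_apply]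
  have h3 : ∀ i : Fin d → (K →+* ℂ) × Fin m, (dl e s i • Ort_mu E i) v =
      dl e s i * ∏ r, (fun (r : Fin d) (p : (K →+* ℂ) × Fin m) => E p.1 (v r p.1) p.2) r (i r) := by
    intro i
    rw [_root_.smul_apply, Ort_mu_apply, smul_eq_mul]
  refine (Finset.sum_congr rfl fun i _ => h3 i).trans ((Ort_dl e s
    (fun (r : Fin d) (p : (K →+* ℂ) × Fin m) => E p.1 (v r p.1) p.2)).trans ?_)
  refine Finset.prod_congr rfl fun a _ => ?_
  rw [hcj, hE]

end Pool.Agent.K3P
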