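import Pool.Agent.TKS.Defs
import Pool.Agent.TwoDens.RK4
import Pool.Agent.TwoDens.Bridge

/-!
Triangle-free graphs in which every induced subgraph has a vertex of degree at most 3:
`e ≥ 6 n - 13 α`.  Consequence: `M(m, s + 1) ≥ 2` for `4 m ≥ 13 s - 3`.
-/

open Finset

namespace Pool.Agent.TwoDens.K3P

open Pool.Agent.TwoDens Pool.Agent.TwoDens.RK Pool.Agent.TwoDens.DD Pool.Agent.TwoDens.TS

variable {V : Type*} [DecidableEq V]

/-- the potential `2 (13 α - 6 n + e)` -/
noncomputable def rr (G : SimpleGraph V) [DecidableRel G.Adj] (X : Finset V) : ℤ :=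
  26 * (al G X : ℤ) - 12 * (X.card : ℤ) + (e2 G X : ℤ)

/-- a minimal counterexample -/
structure M6 (G : SimpleGraph V) [DecidableRel G.Adj] (X : Finset V) : Prop where
  tf : ∀ x y z, G.Adj x y → G.Adj y z → ¬ G.Adj x z
  sp : ∃ v ∈ X, (nb G X v).card ≤ 3
  neg : rr G X < 0
  min : ∀ Y ⊆ X, Y ≠ X → 0 ≤ rr G Y

section
variable {G : SimpleGraph V} [DecidableRel G.Adj]

theorem rr_even (X : Finset V) : ∃ m : ℤ, rr G X = 2 * m := by
  obtain ⟨h, hh⟩ := e2_even (G := G) X
  refine ⟨13 * al G X - 6 * X.card + h, ?_⟩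
  unfold rr
  rw [hh]
  push_cast
  ring

theorem rr_empty : rr G (∅ : Finset V) = 0 := by
  unfold rr
  rw [al_empty, Finset.card_empty]
  simp [e2]

theorem rr_sdiff {Y S : Finset V} (hS : S ⊆ Y) :
    rr G (Y \ S) + 26 * ((al G Y : ℤ) - al G (Y \ S)) +
      2 * ((∑ v ∈ S, (nb G Y v).card : ℕ) : ℤ) =
    rr G Y + 12 * S.card + e2 G S := by
  have h1 := e2_sdiff (G := G) hS
  have h2 : ((Y \ S).card : ℤ) + S.card = Y.card := by
    exact_mod_cast Finset.card_sdiff_add_card_eq_card hS
  have h3 : (e2 G Y : ℤ) + e2 G S = e2 G (Y \ S) + 2 * ((∑ v ∈ S, (nb G Y v).card : ℕ) : ℤ) := by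
    exact_mod_cast h1
  unfold rr
  rw [← h2]
  linarith

theorem al_rem_lt {B : Finset V} {v : V} (hv : v ∈ B) : al G (rem G B v) + 1 ≤ al G B := by
  obtain ⟨I, hI, hi, hc⟩ := exists_al (G := G) (rem G B v)
  have hvI : v ∉ I := fun h => (mem_rem.1 (hI h)).2.1 rfl
  have h1 := le_al (G := G) (X := B) (I := insert v I)
    (Finset.insert_subset hv (fun x hx => (mem_rem.1 (hI hx)).1))
    (indep_insert hi (fun x hx => (mem_rem.1 (hI hx)).2.2))
  rw [Finset.card_insert_of_notMem hvI] at h1
  omega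

theorem rem_sub (B : Finset V) (v : V) : rem G B v ⊆ B := Finset.filter_subset _ _

theorem rem_ne {X B : Finset V} (hB : B ⊆ X) {v : V} (hv : v ∈ B) : rem G B v ≠ X := by
  intro h
  have h1 : v ∈ rem G B v := by
    rw [h]
    exact hB hv
  exact (mem_rem.1 h1).2.1 rfl

/-- removal of a closed neighbourhood -/
theorem rr_rem (htf : ∀ x y z, G.Adj x y → G.Adj y z → ¬ G.Adj x z) {B : Finset V} {v : V}
    (hv : v ∈ B) : rr G (rem G B v) + 26 * ((al G B : ℤ) - al G (rem G B v)) + 2 * (Z G B v : ℤ) =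
      rr G B + 12 * ((nb G B v).card + 1) := by
  have h1 := e2_rem (G := G) htf hv
  have h2 := card_rem (G := G) hv
  have h3 : (e2 G B : ℤ) = e2 G (rem G B v) + 2 * Z G B v := by exact_mod_cast h1
  have h4 : (B.card : ℤ) = (rem G B v).card + (nb G B v).card + 1 := by exact_mod_cast h2
  unfold rr
  rw [h3, h4]
  ring

theorem M6.le {X : Finset V} (H : M6 G X) : rr G X ≤ -2 := by
  obtain ⟨m, hm⟩ := rr_even (G := G) X
  have := H.neg
  omega

theorem M6.Zle {X : Finset V} (H : M6 G X) {B : Finset V} (hB : B ⊆ X) {v : V} (hv : v ∈ B) :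
    2 * (Z G B v : ℤ) ≤ rr G B + 12 * (nb G B v).card - 14 := by
  have h1 := rr_rem (G := G) H.tf hv
  have h2 := H.min (rem G B v) ((rem_sub B v).trans hB) (rem_ne hB hv)
  have h3 : (al G (rem G B v) : ℤ) + 1 ≤ al G B := by exact_mod_cast al_rem_lt (G := G) hv
  linarith

/-- minimum degree 2 for small potential -/
theorem M6.two_le {X : Finset V} (H : M6 G X) {B : Finset V} (hB : B ⊆ X) (h0 : rr G B ≤ 0)
    {v : V} (hv : v ∈ B) : 2 ≤ (nb G B v).card := by
  have h1 := H.Zle hB hv
  by_contra hcon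
  push Not at hcon
  have h2 : (0 : ℤ) ≤ Z G B v := Int.natCast_nonneg _
  have h3 : ((nb G B v).card : ℤ) ≤ 1 := by exact_mod_cast (by omega : (nb G B v).card ≤ 1)
  linarith

omit [DecidableEq V] in
theorem Z_ge {B : Finset V} {v : V} {k : ℕ} (h : ∀ u ∈ nb G B v, k ≤ (nb G B u).card) :
    k * (nb G B v).card ≤ Z G B v := by
  unfold Z
  rw [mul_comm, ← smul_eq_mul, ← Finset.sum_const]
  exact Finset.sum_le_sum h

theorem e2_le_sum {Y S : Finset V} (hS : S ⊆ Y) : e2 G S ≤ ∑ v ∈ S, (nb G Y v).card := by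
  rw [sum_deg' hS]
  omega

/-- the second step at a vertex of degree two -/
theorem M6.deg2 {X : Finset V} (H : M6 G X) {B : Finset V} (hB : B ⊆ X) (h0 : rr G B ≤ 0)
    {v : V} (hv : v ∈ B) (h2 : (nb G B v).card = 2) :
    ∃ T ⊆ rem G B v, T.card + 2 ≤ Z G B v ∧ (∀ z ∈ T, ∃ a ∈ nb G B v, G.Adj a z) ∧
      (∀ a ∈ nb G B v, ∀ w ∈ rem G B v, G.Adj a w → w ∈ T) ∧
      rr G (rem G B v) + 2 * Z G B v ≤ rr G B + 10 ∧
      2 * ((∑ z ∈ T, (nb G (rem G B v) z).card : ℕ) : ℤ) + 26 ≤
        rr G (rem G B v) + 12 * T.card + e2 G T := by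
  obtain ⟨a, b, hab, hN⟩ := Finset.card_eq_two.1 h2
  have ha : a ∈ B ∧ G.Adj v a := mem_nb.1 (by rw [hN]; simp)
  have hb : b ∈ B ∧ G.Adj v b := mem_nb.1 (by rw [hN]; simp)
  have hR := rr_rem (G := G) H.tf hv
  have hlt : (al G (rem G B v) : ℤ) + 1 ≤ al G B := by exact_mod_cast al_rem_lt (G := G) hv
  have hmin := H.min (rem G B v) ((rem_sub B v).trans hB) (rem_ne hB hv)
  have hZ0 : (0 : ℤ) ≤ Z G B v := Int.natCast_nonneg _
  have hcard : ((nb G B v).card : ℤ) = 2 := by exact_mod_cast h2
  have hal : al G B < 2 + al G (rem G B v) := by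
    by_contra hcon
    push Not at hcon
    have h3 : (2 : ℤ) + al G (rem G B v) ≤ al G B := by exact_mod_cast hcon
    rw [hcard] at hR
    linarith
  set T := (nb G B a ∪ nb G B b).erase v with hT
  have hTsub : T ⊆ rem G B v := by
    intro z hz
    rw [hT, mem_erase, mem_union, mem_nb, mem_nb] at hz
    rw [mem_rem]
    rcases hz with ⟨hz1, ⟨hz2, hz3⟩ | ⟨hz2, hz3⟩⟩
    · exact ⟨hz2, hz1, H.tf v a z ha.2 hz3⟩
    · exact ⟨hz2, hz1, H.tf v b z hb.2 hz3⟩
  have hTc : T.card + 2 ≤ Z G B v := by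
    have hva : v ∈ nb G B a := mem_nb.2 ⟨hv, ha.2.symm⟩
    have hvb : v ∈ nb G B b := mem_nb.2 ⟨hv, hb.2.symm⟩
    have h3 : T = (nb G B a).erase v ∪ (nb G B b).erase v := by
      rw [hT, Finset.erase_union_distrib]
    have h4 := Finset.card_union_le ((nb G B a).erase v) ((nb G B b).erase v)
    rw [← h3, Finset.card_erase_of_mem hva, Finset.card_erase_of_mem hvb] at h4
    have h5 : Z G B v = (nb G B a).card + (nb G B b).card := by
      unfold Z
      rw [hN, Finset.sum_pair hab]
    have h6 := Finset.card_pos.2 ⟨v, hva⟩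
    have h7 := Finset.card_pos.2 ⟨v, hvb⟩
    omega
  have hcl : ∀ u ∈ nb G B v, ∀ w ∈ rem G B v, G.Adj u w → w ∈ T := by
    intro u hu w hw hadj
    rw [hN, mem_insert, mem_singleton] at hu
    rw [mem_rem] at hw
    rw [hT, mem_erase, mem_union, mem_nb, mem_nb]
    rcases hu with rfl | rfl
    · exact ⟨hw.2.1, Or.inl ⟨hw.1, hadj⟩⟩
    · exact ⟨hw.2.1, Or.inr ⟨hw.1, hadj⟩⟩
  have htr : Tr G (rem G B v) T := by
    refine tr_nbr (X := B) (J := {a, b}) (rem_sub B v) ?_ ?_ ?_ ?_ ?_
    · intro x hx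
      rw [mem_insert, mem_singleton] at hx
      rcases hx with rfl | rfl
      · exact ha.1
      · exact hb.1
    · rw [Finset.disjoint_left]
      intro x hx hx'
      rw [mem_insert, mem_singleton] at hx
      rw [mem_rem] at hx'
      rcases hx with rfl | rfl
      · exact hx'.2.2 ha.2
      · exact hx'.2.2 hb.2
    · exact indep_pair (H.tf a v b ha.2.symm hb.2)
    · rw [Finset.card_pair hab]
      exact hal
    · intro z hz w hw hadj
      exact hcl z (by rw [hN]; exact hz) w hw hadj
  refine ⟨T, hTsub, hTc, ?_, hcl, ?_, ?_⟩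
  · intro z hz
    rw [hT, mem_erase, mem_union, mem_nb, mem_nb] at hz
    rcases hz with ⟨_, ⟨_, h⟩ | ⟨_, h⟩⟩
    · exact ⟨a, mem_nb.2 ha, h⟩
    · exact ⟨b, mem_nb.2 hb, h⟩
  · rw [hcard] at hR
    linarith
  · have h3 := rr_sdiff (G := G) hTsub
    have h4 : rem G B v \ T ≠ X := by
      intro h
      have h5 : v ∈ rem G B v \ T := by
        rw [h]
        exact hB hv
      exact (mem_rem.1 (mem_sdiff.1 h5).1).2.1 rfl
    have h5 := H.min (rem G B v \ T) (Finset.sdiff_subset.trans ((rem_sub B v).trans hB)) h4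
    have h6 : (al G (rem G B v \ T) : ℤ) + 1 ≤ al G (rem G B v) := by
      unfold Tr at htr
      exact_mod_cast htr
    linarith

/-- minimum degree 3 for a minimal counterexample -/
theorem M6.three_le {X : Finset V} (H : M6 G X) {v : V} (hv : v ∈ X) : 3 ≤ (nb G X v).card := by
  have hneg := H.le
  by_contra hcon
  push Not at hcon
  have h0 : rr G X ≤ 0 := by linarith
  have h1 := H.two_le (B := X) (fun _ h => h) h0 hv
  have h2 : (nb G X v).card = 2 := by omega
  obtain ⟨T, hT, hTc, -, -, hR, hR2⟩ := H.deg2 (B := X) (fun _ h => h) h0 hv h2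
  have h3 := H.Zle (B := X) (fun _ h => h) hv
  have h4 := Z_ge (G := G) (B := X) (v := v) (k := 2)
    (fun u hu => H.two_le (B := X) (fun _ h => h) h0 (mem_nb.1 hu).1)
  have h5 : (e2 G T : ℤ) ≤ ((∑ z ∈ T, (nb G (rem G X v) z).card : ℕ) : ℤ) := by
    exact_mod_cast e2_le_sum hT
  have h6 : (0 : ℤ) ≤ e2 G T := Int.natCast_nonneg _
  rw [h2] at h3 h4
  have h7 : (4 : ℤ) ≤ Z G X v := by exact_mod_cast h4
  have h8 : (T.card : ℤ) + 2 ≤ Z G X v := by exact_mod_cast hTc
  push_cast at h3
  have h9 : (T.card : ℤ) ≤ 2 := by linarith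
  linarith

/-- sets with potential zero have minimum degree 3 -/
theorem M6.zero {X : Finset V} (H : M6 G X) : ∀ n : ℕ, ∀ B ⊆ X, B ≠ X → B.card = n →
    rr G B = 0 → ∀ v ∈ B, 3 ≤ (nb G B v).card := by
  intro n
  induction n using Nat.strong_induction_on with
  | _ n IH =>
    intro B hB hBX hn h0 v hv
    by_contra hcon
    push Not at hcon
    have h2l : ∀ u ∈ B, 2 ≤ (nb G B u).card := fun u hu => H.two_le hB h0.le hu
    have h2 : (nb G B v).card = 2 := by
      have := h2l v hv
      omega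
    obtain ⟨T, hT, hTc, hTa, hcl, hR, hR2⟩ := H.deg2 hB h0.le hv h2
    have h3 := H.Zle hB hv
    rw [h2, h0] at h3
    push_cast at h3
    have h4 := Z_ge (G := G) (B := B) (v := v) (k := 2) (fun u hu => h2l u (mem_nb.1 hu).1)
    rw [h2] at h4
    have h5 : (e2 G T : ℤ) ≤ ((∑ z ∈ T, (nb G (rem G B v) z).card : ℕ) : ℤ) := by
      exact_mod_cast e2_le_sum hT
    have h6 : (0 : ℤ) ≤ e2 G T := Int.natCast_nonneg _
    have h7 : (4 : ℤ) ≤ Z G B v := by exact_mod_cast h4
    have h8 : (T.card : ℤ) + 2 ≤ Z G B v := by exact_mod_cast hTc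
    have h9 : (Z G B v : ℤ) ≤ 5 := by linarith
    rw [h0] at hR
    have hmin := H.min (rem G B v) ((rem_sub B v).trans hB) (rem_ne hB hv)
    have hcase : (Z G B v : ℤ) = 4 ∨ (Z G B v : ℤ) = 5 := by omega
    rcases hcase with hZ | hZ
    · -- type (2,2)
      rw [hZ] at hR h8
      have h10 : (T.card : ℤ) = 2 := by omega
      have h11 : ((∑ z ∈ T, (nb G (rem G B v) z).card : ℕ) : ℤ) = 0 := by
        rw [h10] at hR2
        linarith [Int.natCast_nonneg (∑ z ∈ T, (nb G (rem G B v) z).card)]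
      have h12 : ∀ z ∈ T, (nb G (rem G B v) z).card = 0 := by
        have h13 : ∑ z ∈ T, (nb G (rem G B v) z).card = 0 := by exact_mod_cast h11
        exact fun z hz => (Finset.sum_eq_zero_iff.1 h13) z hz
      have hTc2 : T.card = 2 := by exact_mod_cast h10
      -- each z in T is adjacent to all neighbours of v
      have h13 : ∀ z ∈ T, ∀ a ∈ nb G B v, G.Adj z a := by
        intro z hz a ha
        have hzr := mem_rem.1 (hT hz)
        have hsub : nb G B z ⊆ nb G B v := by
          intro w hw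
          rw [mem_nb] at hw
          by_contra hw2
          have hw3 : w ∈ rem G B v := by
            rw [mem_rem]
            refine ⟨hw.1, ?_, fun h => hw2 (mem_nb.2 ⟨hw.1, h⟩)⟩
            rintro rfl
            exact hzr.2.2 hw.2.symm
          have h14 := h12 z hz
          rw [Finset.card_eq_zero, Finset.eq_empty_iff_forall_notMem] at h14
          exact h14 w (mem_nb.2 ⟨hw3, hw.2⟩)
        have heq := Finset.eq_of_subset_of_card_le hsub (by
          rw [h2]
          exact h2l z hzr.1)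
        rw [← heq] at ha
        exact (mem_nb.1 ha).2
      -- then a neighbour a of v has degree at least 3
      obtain ⟨a, ha⟩ := Finset.card_pos.1 (by omega : 0 < (nb G B v).card)
      have h14 : insert v T ⊆ nb G B a := by
        intro w hw
        rw [mem_insert] at hw
        rcases hw with rfl | hw
        · exact mem_nb.2 ⟨hv, (mem_nb.1 ha).2.symm⟩
        · exact mem_nb.2 ⟨(mem_rem.1 (hT hw)).1, (h13 w hw a ha).symm⟩
      have hvT : v ∉ T := fun h => (mem_rem.1 (hT h)).2.1 rfl
      have h15 := Finset.card_le_card h14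
      rw [Finset.card_insert_of_notMem hvT, hTc2] at h15
      have h16 : (nb G B v).erase a ⊆ nb G B v := Finset.erase_subset _ _
      have h17 : Z G B v = (nb G B a).card + ∑ u ∈ (nb G B v).erase a, (nb G B u).card := by
        unfold Z
        exact (Finset.add_sum_erase _ (fun u => (nb G B u).card) ha).symm
      have h18 : ∑ u ∈ (nb G B v).erase a, 2 ≤ ∑ u ∈ (nb G B v).erase a, (nb G B u).card :=
        Finset.sum_le_sum fun u hu => h2l u (mem_nb.1 (h16 hu)).1
      rw [Finset.sum_const, Finset.card_erase_of_mem ha, h2] at h18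
      have h19 : Z G B v = 4 := by exact_mod_cast hZ
      simp only [smul_eq_mul] at h18
      omega
    · -- type (2,3)
      rw [hZ] at hR h8
      have h10 : rr G (rem G B v) = 0 := by linarith
      have h11 : (T.card : ℤ) = 3 := by omega
      have h12 : (rem G B v).card < n := by
        rw [← hn]
        have := card_rem (G := G) hv
        omega
      have h13 := IH _ h12 (rem G B v) ((rem_sub B v).trans hB) (rem_ne hB hv) rfl h10
      have h14 : 3 * T.card ≤ ∑ z ∈ T, (nb G (rem G B v) z).card := by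
        rw [mul_comm, ← smul_eq_mul, ← Finset.sum_const]
        exact Finset.sum_le_sum fun z hz => h13 z (hT hz)
      have h15 : 3 * (T.card : ℤ) ≤ ((∑ z ∈ T, (nb G (rem G B v) z).card : ℕ) : ℤ) := by
        exact_mod_cast h14
      have hTc3 : T.card = 3 := by exact_mod_cast h11
      have h16 := e2_add_compl (G := G) T
      rw [hTc3] at h16
      have h17 : (e2 G T : ℤ) ≤ 6 := by exact_mod_cast (by omega : e2 G T ≤ 6)
      rw [h10, h11] at hR2
      rw [h11] at h15
      linarith

/-- all neighbours of a vertex of degree 3 have degree 3 -/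
theorem M6.cub {X : Finset V} (H : M6 G X) {v : V} (hv : v ∈ X) (h3 : (nb G X v).card = 3) :
    ∀ u ∈ nb G X v, (nb G X u).card = 3 := by
  have hneg := H.le
  have hd := fun u (hu : u ∈ X) => H.three_le hu
  -- the bound for every vertex of degree three
  have hZ : ∀ w ∈ X, (nb G X w).card = 3 → Z G X w ≤ 10 := by
    intro w hw hw3
    have h1 := H.Zle (B := X) (fun _ h => h) hw
    rw [hw3] at h1
    push_cast at h1
    have : (Z G X w : ℤ) ≤ 10 := by linarith
    exact_mod_cast this
  have h9 := Z_ge (G := G) (B := X) (v := v) (k := 3) (fun u hu => hd u (mem_nb.1 hu).1)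
  rw [h3] at h9
  have h10 := hZ v hv h3
  rcases Nat.lt_or_ge (Z G X v) 10 with h11 | h11
  · -- all are equal to three
    intro u hu
    have h12 : Z G X v = (nb G X u).card + ∑ w ∈ (nb G X v).erase u, (nb G X w).card := by
      unfold Z
      exact (Finset.add_sum_erase _ (fun w => (nb G X w).card) hu).symm
    have h13 : ∑ w ∈ (nb G X v).erase u, 3 ≤ ∑ w ∈ (nb G X v).erase u, (nb G X w).card :=
      Finset.sum_le_sum fun w hw => hd w (mem_nb.1 (Finset.erase_subset _ _ hw)).1
    rw [Finset.sum_const, Finset.card_erase_of_mem hu, h3] at h13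
    simp only [smul_eq_mul] at h13
    have h14 := hd u (mem_nb.1 hu).1
    omega
  · exfalso
    have hZ10 : Z G X v = 10 := le_antisymm h10 h11
    -- a neighbour of degree three
    have hex : ∃ a ∈ nb G X v, (nb G X a).card = 3 := by
      by_contra hcon
      push Not at hcon
      have h12 := Z_ge (G := G) (B := X) (v := v) (k := 4) (fun u hu => by
        have h13 := hd u (mem_nb.1 hu).1
        have h14 := hcon u hu
        omega)
      rw [h3] at h12
      omega
    obtain ⟨a, ha, ha3⟩ := hex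
    have haX := (mem_nb.1 ha).1
    have hva : v ∈ nb G X a := mem_nb.2 ⟨hv, (mem_nb.1 ha).2.symm⟩
    -- the potential of the rest is zero
    have hR := rr_rem (G := G) H.tf hv
    have hlt : (al G (rem G X v) : ℤ) + 1 ≤ al G X := by exact_mod_cast al_rem_lt (G := G) hv
    have hmin := H.min (rem G X v) (rem_sub X v) (rem_ne (fun _ h => h) hv)
    have h0 : rr G (rem G X v) = 0 := by
      rw [h3, hZ10] at hR
      push_cast at hR
      linarith
    have h12 := H.zero _ (rem G X v) (rem_sub X v) (rem_ne (fun _ h => h) hv) rfl h0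
    have h13 : ∀ w ∈ (nb G X a).erase v, 4 ≤ (nb G X w).card := by
      intro w hw
      rw [mem_erase, mem_nb] at hw
      have hwr : w ∈ rem G X v := by
        rw [mem_rem]
        exact ⟨hw.2.1, hw.1, H.tf v a w (mem_nb.1 ha).2 hw.2.2⟩
      have h14 := h12 w hwr
      have h15 : insert a (nb G (rem G X v) w) ⊆ nb G X w := by
        intro z hz
        rw [mem_insert] at hz
        rcases hz with rfl | hz
        · exact mem_nb.2 ⟨haX, hw.2.2.symm⟩
        · rw [mem_nb] at hz
          exact mem_nb.2 ⟨rem_sub X v hz.1, hz.2⟩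
      have h16 : a ∉ nb G (rem G X v) w := by
        intro h
        exact (mem_rem.1 (mem_nb.1 h).1).2.2 (mem_nb.1 ha).2
      have h17 := Finset.card_le_card h15
      rw [Finset.card_insert_of_notMem h16] at h17
      omega
    have h14 : ∑ w ∈ (nb G X a).erase v, 4 ≤ ∑ w ∈ (nb G X a).erase v, (nb G X w).card :=
      Finset.sum_le_sum h13
    rw [Finset.sum_const, Finset.card_erase_of_mem hva, ha3] at h14
    simp only [smul_eq_mul] at h14
    have h15 : Z G X a = (nb G X v).card + ∑ w ∈ (nb G X a).erase v, (nb G X w).card := by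
      unfold Z
      exact (Finset.add_sum_erase _ (fun w => (nb G X w).card) hva).symm
    have h16 := hZ a haX ha3
    omega

/-- there is no minimal counterexample -/
theorem M6.false {X : Finset V} (H : M6 G X) : False := by
  have hneg := H.le
  obtain ⟨v, hv, hv3⟩ := H.sp
  have hv3' : (nb G X v).card = 3 := le_antisymm hv3 (H.three_le hv)
  set C := X.filter (fun u => (nb G X u).card = 3) with hC
  have hCX : C ⊆ X := Finset.filter_subset _ _
  have hvC : v ∈ C := mem_filter.2 ⟨hv, hv3'⟩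
  have hcl : ∀ z ∈ C, ∀ w ∈ X, G.Adj z w → w ∈ C := by
    intro z hz w hw hadj
    have hz' := mem_filter.1 hz
    exact mem_filter.2 ⟨hw, H.cub hz'.1 hz'.2 w (mem_nb.2 ⟨hw, hadj⟩)⟩
  have hsum : ∑ z ∈ C, (nb G X z).card = e2 G C := by
    rw [e2_eq]
    refine Finset.sum_congr rfl fun z hz => ?_
    congr 1
    ext w
    rw [mem_nb, mem_nb]
    constructor
    · rintro ⟨h1, h2⟩
      exact ⟨hcl z hz w h1 h2, h2⟩
    · rintro ⟨h1, h2⟩
      exact ⟨hCX h1, h2⟩
  have hCeq : C = X := by
    by_contra hne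
    have h1 := rr_sdiff (G := G) hCX
    obtain ⟨J, hJ, hJi, hJc⟩ := exists_al (G := G) C
    have h2 := al_closed (G := G) (Y := X) (S := C) (J := J) (hJ.trans hCX) hJ hJi
      (fun z hz w hw hadj => hcl z (hJ hz) w hw hadj)
    rw [hJc] at h2
    have h3 := H.min C hCX hne
    have h4 := H.min (X \ C) Finset.sdiff_subset (by
      intro h
      have h5 : v ∈ X \ C := by
        rw [h]
        exact hv
      exact (mem_sdiff.1 h5).2 hvC)
    rw [hsum] at h1
    have h5 : (al G (X \ C) : ℤ) + al G C ≤ al G X := by exact_mod_cast h2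
    unfold rr at h3 h1 h4 hneg
    linarith
  have hall : ∀ u ∈ X, (nb G X u).card = 3 := by
    intro u hu
    rw [← hCeq] at hu
    exact (mem_filter.1 hu).2
  have he : e2 G X = 3 * X.card := by
    rw [e2_eq, Finset.sum_congr rfl hall, Finset.sum_const, smul_eq_mul, mul_comm]
  have hRK := RK.main (G := G) H.tf X.card X rfl (al G X) (fun I hI hi => le_al hI hi)
  unfold rr at hneg
  rw [he] at hRK hneg
  have h1 : (10 : ℤ) * X.card ≤ 3 * X.card + 20 * al G X := by exact_mod_cast hRK
  push_cast at hneg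
  linarith [Int.natCast_nonneg X.card]

end

/-- `e ≥ 6 n - 13 α` for triangle-free graphs whose induced subgraphs all have a vertex of degree
at most 3. -/
theorem six_thirteen (G : SimpleGraph V) [DecidableRel G.Adj] (X : Finset V)
    (tf : ∀ x y z, G.Adj x y → G.Adj y z → ¬ G.Adj x z)
    (sp : ∀ Y ⊆ X, Y.Nonempty → ∃ v ∈ Y, (nb G Y v).card ≤ 3) :
    12 * X.card ≤ e2 G X + 26 * al G X := by
  have key : ∀ n : ℕ, ∀ Y ⊆ X, Y.card = n → 0 ≤ rr G Y := by
    intro n
    induction n using Nat.strong_induction_on with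
    | _ n IH =>
      intro Y hY hn
      by_contra hcon
      push Not at hcon
      have hne : Y.Nonempty := by
        rw [Finset.nonempty_iff_ne_empty]
        rintro rfl
        rw [rr_empty] at hcon
        exact lt_irrefl _ hcon
      refine M6.false (G := G) (X := Y) ⟨tf, sp Y hY hne, hcon, ?_⟩
      intro W hW hWY
      refine IH W.card ?_ W (hW.trans hY) rfl
      rw [← hn]
      exact Finset.card_lt_card (Finset.ssubset_iff_subset_ne.2 ⟨hW, hWY⟩)
  have h := key _ X (fun _ h => h) rfl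
  unfold rr at h
  have h1 : (12 : ℤ) * X.card ≤ e2 G X + 26 * al G X := by linarith
  exact_mod_cast h1

/-- `M(m, s + 1) ≥ 2` for `4 m ≥ 13 s - 3`. -/
theorem two_le (m s : ℕ) (hs : 1 ≤ s) (h : 13 * s ≤ 4 * m + 3) :
    (2 : ℝ) ≤ minTwoDensity m (s + 1) := by
  refine le_minTwoDensity (by omega) ?_
  intro G _ hα
  by_contra hcon
  push Not at hcon
  have hD : ∀ Y : Finset (Fin m), 3 ≤ Y.card → e2 G Y + 8 ≤ 4 * Y.card := by
    intro Y hY
    have h1 := hcon Y hY
    have h2 : (e2 G Y : ℝ) + 6 < 4 * Y.card := by linarith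
    have h3 : e2 G Y + 6 < 4 * Y.card := by exact_mod_cast h2
    obtain ⟨q, hq⟩ := e2_even (G := G) Y
    omega
  have tf : ∀ x y z, G.Adj x y → G.Adj y z → ¬ G.Adj x z := by
    intro x y z hxy hyz hxz
    have hx : x ≠ y := hxy.ne
    have hy : y ≠ z := hyz.ne
    have hz : x ≠ z := hxz.ne
    have hclq : Clq G ({x, y, z} : Finset (Fin m)) := by
      intro a ha b hb hab
      simp only [mem_insert, mem_singleton] at ha hb
      rcases ha with rfl | rfl | rfl <;> rcases hb with rfl | rfl | rfl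
      · exact absurd rfl hab
      · exact hxy
      · exact hxz
      · exact hxy.symm
      · exact absurd rfl hab
      · exact hyz
      · exact hxz.symm
      · exact hyz.symm
      · exact absurd rfl hab
    have hc : ({x, y, z} : Finset (Fin m)).card = 3 := by
      rw [Finset.card_eq_three]
      exact ⟨x, y, z, hx, hz, hy, rfl⟩
    have h1 := clq_e2 (G := G) hclq
    have h2 := hD _ hc.ge
    rw [hc] at h1 h2
    omega
  have sp : ∀ Y ⊆ (Finset.univ : Finset (Fin m)), Y.Nonempty →
      ∃ v ∈ Y, (nb G Y v).card ≤ 3 := by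
    intro Y _ hY
    by_contra hno
    push Not at hno
    have h1 : 4 * Y.card ≤ e2 G Y := by
      rw [e2_eq, mul_comm, ← smul_eq_mul, ← Finset.sum_const]
      exact Finset.sum_le_sum fun v hv => hno v hv
    obtain ⟨v, hv⟩ := hY
    have h2 := hno v hv
    have h3 : (nb G Y v).card ≤ Y.card := Finset.card_le_card (Finset.filter_subset _ _)
    have h4 := hD Y (by omega)
    omega
  have hmain := six_thirteen G Finset.univ tf sp
  have hn : (Finset.univ : Finset (Fin m)).card = m := by
    rw [Finset.card_univ, Fintype.card_fin]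
  have hal : al G (Finset.univ : Finset (Fin m)) ≤ s := al_le (fun I _ hI => by
    have := hα I hI
    omega)
  rw [hn] at hmain
  rcases Nat.lt_or_ge m 3 with h5 | h5
  · omega
  · have h6 := hD Finset.univ (by rw [hn]; exact h5)
    rw [hn] at h6
    omega

end Pool.Agent.TwoDens.K3P
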