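import Pool.Agent.K3P.All

/-!
Grothendieck classes on all powers `X^n` of a K3 surface `X` over the algebraic numbers, in all
degrees.

Let `A` be an abelian variety over `ℚ̄` with a Kuga-Satake structure `S` for `T = K^m`,
`q(x, y) = Tr (∑ h_ab x_a c(y_b))`, where `K` is the endomorphism field of the Hodge structure `T` of K3
type. `T ⊗ ℂ` has the rational structure `T` (`IsRatT`) and the de Rham structure (`S.IsDRT`) of the
vectors whose operators on `H_1(A, ℂ)` respect `H_1^dR(A)`.

For a K3 surface `X` over `ℚ̄` with the transcendental part `T` of `H^2(X)(1)` and its Kuga-Satake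
variety `A` these are the Betti and the de Rham structure of `T ⊗ ℂ` (Deligne), and `H^*(X, ℂ)` is
`HX r K m = ℂ^r ⊕ T ⊗ ℂ`, where `ℂ^r` has the basis of the classes of `X`, of a basis of the Neron-Severi
group and of a point. By Künneth and Poincaré duality a class in `⊕_k H^(2k)(X^n, ℂ)(k)` is a
multilinear form `F` on `n` copies of `HX r K m`, and it is in `⊕_k H^(2k)_Gr(X^n, ℚ(k))` if and only
if `IsGrK3 S r n F`.

The theorem: this is the case if and only if `F` is a combination with rational coefficients of
products of classes `q(z x, y)`, `z ∈ K`, from pairs of different factors, of determinants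
`Tr (z det (x_1, ..., x_m))` from `m` different factors (only for `K` totally real), and of the classes
of `X`, divisors and points. No hypothesis other than the stated ones is made, and nothing is
assumed.

New ingredients: the vector in `T` of two elements of `H_1(A)`, which turns a form on `T` into a
form on `H_1(A)` to which the theorem on Kuga-Satake varieties applies; the first fundamental theorem
for the special orthogonal groups (by Casimir operators and positivity).
-/

namespace Pool.Agent.K3P.StoreK3Powers

open Pool.Agent.GPC

theorem result (A : AbVar) (hA : A.g ≠ 0) (K : Type) [Field K] [NumberField K] (c : K →+* K)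
    (m : ℕ) (S : A.KugaSatakeMul K c m)
    (hK : (c = RingHom.id K ∧ 3 ≤ m ∧
        (m ≠ 5 ∨ (Module.finrank ℚ K = 1 ∧
          ∃ B : AbVar, B.IsGenericSurface ∧ ∃ f, B.IsMor A f ∧ ∃ v, f v ≠ 0))) ∨
      (c ≠ RingHom.id K ∧ (m = 1 ∨ Even m) ∧
        ((IsGalois ℚ K ∧ ∀ g g' : K ≃ₐ[ℚ] K, g * g' = g' * g) ∨
          Module.finrank ℚ K ≤ 6 ∨ OddSparse K)))
    (r n : ℕ) (F : MultilinearMap ℂ (fun _ : Fin n => HX r K m) ℂ) :
    IsGrK3 S r n F ↔ IsGenPow c S.h r n F :=
  Pool.Agent.K3P.main S hA hK r n F

end Pool.Agent.K3P.StoreK3Powers
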