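import Pool.Agent.KSE.Types

/-!
Grothendieck classes on the powers of a K3 surface.

`X` is a K3 surface over the algebraic numbers, `T ⊗ ℂ` its transcendental part (of `H^2(X)(1)`), with
its Kuga-Satake variety `A`. Künneth's theorem and Poincaré duality identify `⊕_k H^(2k)(X^n)(k)` with
the space of multilinear forms on `n` copies of `H^*(X) = H^0(X) ⊕ H^2(X)(1) ⊕ H^4(X)(2)`.
-/

set_option autoImplicit false

open scoped ComplexConjugate

namespace Pool.Agent.GPC

open NumberField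

section K3

variable {K : Type} [Field K] [NumberField K] {m : ℕ}

/-- `T ⊗ ℂ` for `T = K^m`: the sum of the eigenspaces `ℂ^m` of the embeddings of `K`. -/
abbrev TC (K : Type) [Field K] (m : ℕ) : Type := (K →+* ℂ) → Fin m → ℂ

/-- The rational vectors of `T ⊗ ℂ`: the elements of `T = K^m`. -/
def IsRatT (v : TC K m) : Prop := ∃ x : Fin m → K, ∀ σ a, v σ a = σ (x a)

/-- The de Rham vectors of `T ⊗ ℂ`: their operators on `H_1(A, ℂ)` respect the de Rham structure. -/
def AbVar.KugaSatakeMul.IsDRT {A : AbVar} {c : K →+* K} (S : A.KugaSatakeMul K c m)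
    (v : TC K m) : Prop :=
  ∀ u, A.IsDeRham u → A.IsDeRham (∑ σ : K →+* ℂ, ∑ a, v σ a • S.e σ a u)

/-- The form `q(z x, y)`, `z ∈ K`, where `q(x, y) = Tr (∑ h_ab x_a c(y_b))`. -/
noncomputable def qf (h : Matrix (Fin m) (Fin m) K) (z : K) (x y : TC K m) : ℂ :=
  ∑ σ : K →+* ℂ, σ z * ∑ a, ∑ b, x σ a * σ (h a b) * y (ComplexEmbedding.conjugate σ) b

/-- The cohomology `H^*(X, ℂ)` of the K3 surface `X`: `ℂ^r` (`r = ρ + 2`) has the basis of the classes
of `X`, of a basis of the Neron-Severi group and of a point. -/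
abbrev HX (r : ℕ) (K : Type) [Field K] (m : ℕ) : Type := (Fin r → ℂ) × TC K m

/-- `F` is a Grothendieck class on `X^n`: the multilinear form `F` has rational values on the
Betti structure and algebraic values on the de Rham structure. -/
def IsGrK3 {A : AbVar} {c : K →+* K} (S : A.KugaSatakeMul K c m) (r n : ℕ)
    (F : MultilinearMap ℂ (fun _ : Fin n => HX r K m) ℂ) : Prop :=
  (∀ v : Fin n → HX r K m, (∀ s, (∀ i, ∃ p : ℚ, (v s).1 i = p) ∧ IsRatT (v s).2) →
    ∃ p : ℚ, F v = p) ∧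
  ∀ v : Fin n → HX r K m, (∀ s, (∀ i, IsAlgebraic ℚ ((v s).1 i)) ∧ S.IsDRT (v s).2) →
    IsAlgebraic ℚ (F v)

/-- `ω` is a product of classes `q(z x, y)`, `z ∈ K`, from pairs of different factors and of
the classes of `X`, divisors and points from the remaining factors. -/
def IsBasicK3 (h : Matrix (Fin m) (Fin m) K) (r n : ℕ) (ω : (Fin n → HX r K m) → ℂ) : Prop :=
  ∃ (l l' : ℕ) (e : (Fin l × Fin 2) ⊕ Fin l' ≃ Fin n) (z : Fin l → K) (i : Fin l' → Fin r),
    ∀ v, ω v = (∏ a, qf h (z a) (v (e (.inl (a, 0)))).2 (v (e (.inl (a, 1)))).2) *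
      ∏ b, (v (e (.inr b))).1 (i b)

/-- `F` is a combination with rational coefficients of such products. -/
def IsGenK3 (h : Matrix (Fin m) (Fin m) K) (r n : ℕ)
    (F : MultilinearMap ℂ (fun _ : Fin n => HX r K m) ℂ) : Prop :=
  ∃ (N : ℕ) (p : Fin N → ℚ) (ω : Fin N → (Fin n → HX r K m) → ℂ),
    (∀ j, IsBasicK3 h r n (ω j)) ∧ ∀ v, F v = ∑ j, (p j : ℂ) * ω j v

end K3

end Pool.Agent.GPC
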