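import Pool.Agent.K3P.Types

/-!
The explicit Grothendieck classes on the powers of a K3 surface.
-/

set_option autoImplicit false

namespace Pool.Agent.GPC

open NumberField

section K3

variable {K : Type} [Field K] [NumberField K] {m : ℕ}

/-- The form `Tr (z det (x_1, ..., x_m))`, `z ∈ K`: the determinant over `K` of `m` vectors of
`T = K^m`, multiplied by `z`, and the trace. -/
noncomputable def df (z : K) (x : Fin m → TC K m) : ℂ :=
  ∑ σ : K →+* ℂ, σ z * (Matrix.of fun j k => x j σ k).det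

/-- `ω` is a product of classes `q(z x, y)` from pairs of different factors, if `K` is totally real
(`c = id`) of determinants `Tr (z det)` from `m` different factors, and of the classes of `X`,
divisors and points from the remaining factors. -/
def IsBasicPow (c : K →+* K) (h : Matrix (Fin m) (Fin m) K) (r n : ℕ)
    (ω : (Fin n → HX r K m) → ℂ) : Prop :=
  ∃ (l l₁ l₂ : ℕ) (e : ((Fin l × Fin 2) ⊕ (Fin l₁ × Fin m)) ⊕ Fin l₂ ≃ Fin n)
    (z : Fin l → K) (z₁ : Fin l₁ → K) (i : Fin l₂ → Fin r), (c ≠ RingHom.id K → l₁ = 0) ∧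
    ∀ v, ω v =
      (∏ a, qf h (z a) (v (e (.inl (.inl (a, 0))))).2 (v (e (.inl (.inl (a, 1))))).2) *
      (∏ b, df (z₁ b) fun j => (v (e (.inl (.inr (b, j))))).2) *
      ∏ b, (v (e (.inr b))).1 (i b)

/-- `F` is a combination with rational coefficients of such products. -/
def IsGenPow (c : K →+* K) (h : Matrix (Fin m) (Fin m) K) (r n : ℕ)
    (F : MultilinearMap ℂ (fun _ : Fin n => HX r K m) ℂ) : Prop :=
  ∃ (N : ℕ) (p : Fin N → ℚ) (ω : Fin N → (Fin n → HX r K m) → ℂ),
    (∀ j, IsBasicPow c h r n (ω j)) ∧ ∀ v, F v = ∑ j, (p j : ℂ) * ω j v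

end K3

end Pool.Agent.GPC
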