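import Pool.Agent.K3P.St

/-!
# K3P: vanishing of the coefficients
-/

set_option autoImplicit false

namespace Pool.Agent.K3P

/-- A tuple all of whose values are taken exactly twice. -/
theorem Van_pairs {W : Type} [DecidableEq W] {d : ℕ} (i : Fin d → W)
    (h2 : ∀ r, (Finset.univ.filter fun r' => i r' = i r).card = 2) :
    ∃ (l : ℕ) (e : Fin l × Fin 2 ≃ Fin d) (w : Fin l → W), Function.Injective w ∧
      ∀ r, i r = w (e.symm r).1 := by
  classical
  let S : Finset W := Finset.univ.image i
  let g : Fin d → S := fun r => ⟨i r, Finset.mem_image_of_mem i (Finset.mem_univ r)⟩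
  have hc : ∀ y : S, Nonempty (Fin 2 ≃ {x // g x = y}) := by
    intro y
    obtain ⟨r, -, hr⟩ := Finset.mem_image.1 y.2
    refine ⟨(Fintype.equivFinOfCardEq ?_).symm⟩
    rw [Fintype.card_subtype, ← h2 r]
    congr 1
    ext x
    simp only [Finset.mem_filter, Finset.mem_univ, true_and, g, Subtype.ext_iff]
    rw [hr]
  let eqv : ∀ y : S, Fin 2 ≃ {x // g x = y} := fun y => (hc y).some
  let e : Fin S.card × Fin 2 ≃ Fin d :=
    (Equiv.prodCongr S.equivFin.symm (Equiv.refl (Fin 2))).trans
      ((Equiv.sigmaEquivProd S (Fin 2)).symm.trans
        ((Equiv.sigmaCongrRight eqv).trans (Equiv.sigmaFiberEquiv g)))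
  refine ⟨S.card, e, fun a => (S.equivFin.symm a).1, ?_, ?_⟩
  · exact Subtype.val_injective.comp S.equivFin.symm.injective
  · intro r
    obtain ⟨p, rfl⟩ := e.surjective r
    rw [Equiv.symm_apply_apply]
    have h3 : e p = (eqv (S.equivFin.symm p.1) p.2).1 := rfl
    have h4 : g (e p) = S.equivFin.symm p.1 := by
      rw [h3]
      exact (eqv (S.equivFin.symm p.1) p.2).2
    exact congrArg Subtype.val h4

/-- VAN -/
theorem thm_Van (h : St_Exc) : St_Van := by
  intro Pl _ m d hdm c hR h0
  suffices H : ∀ n : ℕ, ∀ i : Fin d → Pl × Fin m, d - (Finset.univ.image i).card = n → c i = 0 by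
    funext i
    exact H _ i rfl
  intro n
  induction n using Nat.strong_induction_on with
  | _ n ih =>
    intro i hi
    by_cases h2 : ∀ r, (Finset.univ.filter fun r' => i r' = i r).card = 2
    · obtain ⟨l, e, w, hw, hiw⟩ := Van_pairs i h2
      have h3 := h0 l e (fun a => (w a).1) (fun a => (w a).2) hw
      have h4 : tup e (fun a => (w a).1) (fun a => (w a).2) = i := by
        funext r
        exact (hiw r).symm
      rwa [h4] at h3
    · push Not at h2
      obtain ⟨r₀, hr₀⟩ := h2
      obtain ⟨b, hb⟩ : ∃ b : Fin m, ∀ r, (i r).2 ≠ b := by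
        by_contra hcon
        push Not at hcon
        have hs : Function.Surjective fun r => (i r).2 := hcon
        have := Fintype.card_le_of_surjective _ hs
        simp only [Fintype.card_fin] at this
        omega
      have hv : ∀ r, i r ≠ ((i r₀).1, b) := fun r hr => hb r (congrArg Prod.snd hr)
      rw [h Pl m d c hR i r₀ b hv]
      refine Finset.sum_eq_zero fun r hr => ?_
      obtain ⟨-, hr1, hr2⟩ := Finset.mem_filter.1 hr
      obtain ⟨r', hr'0, hr'1, hr'⟩ : ∃ r', r' ≠ r₀ ∧ r' ≠ r ∧ i r' = i r₀ := by
        by_contra hcon
        push Not at hcon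
        apply hr₀
        have : (Finset.univ.filter fun r' => i r' = i r₀) = {r₀, r} := by
          ext x
          simp only [Finset.mem_filter, Finset.mem_univ, true_and, Finset.mem_insert,
            Finset.mem_singleton]
          constructor
          · intro hx
            by_contra hx'
            push Not at hx'
            exact hcon x hx'.1 hx'.2 hx
          · rintro (rfl | rfl)
            · rfl
            · exact hr2
        rw [this, Finset.card_pair hr1.symm]
      set v : Pl × Fin m := ((i r₀).1, b) with hvdef
      set j := Function.update (Function.update i r₀ v) r v with hj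
      have hsub : insert v (Finset.univ.image i) ⊆ Finset.univ.image j := by
        intro x hx
        rw [Finset.mem_insert] at hx
        rcases hx with rfl | hx
        · exact Finset.mem_image.2 ⟨r, Finset.mem_univ r, by rw [hj, Function.update_self]⟩
        · obtain ⟨y, -, rfl⟩ := Finset.mem_image.1 hx
          by_cases hy : y = r₀ ∨ y = r
          · refine Finset.mem_image.2 ⟨r', Finset.mem_univ _, ?_⟩
            rw [hj, Function.update_of_ne hr'1, Function.update_of_ne hr'0, hr']
            rcases hy with rfl | rfl
            · rfl
            · exact hr2.symm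
          · push Not at hy
            refine Finset.mem_image.2 ⟨y, Finset.mem_univ _, ?_⟩
            rw [hj, Function.update_of_ne hy.2, Function.update_of_ne hy.1]
      have hnot : v ∉ Finset.univ.image i := by
        intro hx
        obtain ⟨y, -, hy⟩ := Finset.mem_image.1 hx
        exact hv y hy
      have h5 := Finset.card_le_card hsub
      rw [Finset.card_insert_of_notMem hnot] at h5
      have h6 : (Finset.univ.image j).card ≤ d := by
        refine Finset.card_image_le.trans ?_
        simp
      exact ih (d - (Finset.univ.image j).card) (by omega) j rfl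

end Pool.Agent.K3P
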